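import Pool.Agent.Work.MP_55ff09_co.SG.Surf
import Pool.Agent.Work.MP_55ff09_co.PL.Base

/-!
# MP_55ff09_co, block SG (string graphs on surfaces): definitions

Paper proof: note 4021. `Touch`, `DegLe`, `cmp` are in `Pool.Agent.IM55`, `Emb`, `qG` in
`Pool.Agent.IM55.PL`. The host graph is always `gph T`.
-/

set_option autoImplicit false

namespace Pool.Agent.IM55.SG

open SimpleGraph Pool.Agent.IM55 Pool.Agent.IM55.PL

variable {P V : Type}

/-! ### Chains mod 2 -/

/-- functions supported on `X` -/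
def sp {ι : Type} (X : Set ι) : Submodule (ZMod 2) (ι → ZMod 2) where
  carrier := {a | ∀ i, a i ≠ 0 → i ∈ X}
  add_mem' := by
    intro a b ha hb i hi
    by_cases h : a i = 0
    · refine hb i fun h' => hi ?_
      rw [Pi.add_apply, h, h', add_zero]
    · exact ha i h
  zero_mem' := fun i hi => absurd rfl hi
  smul_mem' := by
    intro c a ha i hi
    refine ha i fun h => hi ?_
    rw [Pi.smul_apply, h, smul_zero]

open Classical in
/-- the function which is 1 at `i` and 0 elsewhere -/
noncomputable def dl {ι : Type} (i : ι) : ι → ZMod 2 := fun j => if j = i then 1 else 0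

/-- the edges inside `A` -/
def EE (T : Finset (Finset P)) (A : Set P) : Set (Sym2 P) :=
  {e | e ∈ (gph T).edgeSet ∧ ∀ x ∈ e, x ∈ A}

/-- the triangles inside `A` -/
def FF (T : Finset (Finset P)) (A : Set P) : Set (Finset P) := {t | t ∈ T ∧ ∀ x ∈ t, x ∈ A}

/-- the boundary of a 1-chain -/
def d1 [Fintype P] : (Sym2 P → ZMod 2) →ₗ[ZMod 2] (P → ZMod 2) where
  toFun a x := ∑ y, a s(x, y)
  map_add' := by
    intro a b
    funext x
    simp [Finset.sum_add_distrib]
  map_smul' := by
    intro m a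
    funext x
    simp [Finset.mul_sum]

open Classical in
/-- the boundary of a 2-chain (only its values on `T` count) -/
noncomputable def d2 (T : Finset (Finset P)) :
    (Finset P → ZMod 2) →ₗ[ZMod 2] (Sym2 P → ZMod 2) where
  toFun c e := if e ∈ (gph T).edgeSet then ∑ t ∈ T with ∀ x ∈ e, x ∈ t, c t else 0
  map_add' := by
    intro a b
    funext e
    by_cases h : e ∈ (gph T).edgeSet
    · simp only [if_pos h, Pi.add_apply, Finset.sum_add_distrib]
    · simp only [if_neg h, Pi.add_apply, add_zero]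
  map_smul' := by
    intro m a
    funext e
    by_cases h : e ∈ (gph T).edgeSet
    · simp only [if_pos h, Pi.smul_apply, smul_eq_mul, Finset.mul_sum, RingHom.id_apply]
    · simp only [if_neg h, Pi.smul_apply, smul_eq_mul, mul_zero, RingHom.id_apply]

/-- the cycles supported in `A` -/
def Z [Fintype P] (T : Finset (Finset P)) (A : Set P) : Submodule (ZMod 2) (Sym2 P → ZMod 2) :=
  sp (EE T A) ⊓ LinearMap.ker d1

/-- a region: connected, the complement is connected and contains cycles which span `H_1` -/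
structure Reg [Fintype P] (T : Finset (Finset P)) (D : Set P) : Prop where
  conn : ((gph T).induce D).Connected
  cconn : ((gph T).induce Dᶜ).Connected
  hom : Z T Set.univ ≤ Z T Dᶜ ⊔ LinearMap.range (d2 T)

/-- the neighbours of `D` -/
def nbD (T : Finset (Finset P)) (D : Set P) : Set P := {b | b ∉ D ∧ ∃ d ∈ D, (gph T).Adj d b}

/-- the corners of `D`: triangles `{d, b, b'}` with `d ∈ D`, `b, b' ∉ D`, `lam b ≠ lam b'` -/
def Cor (T : Finset (Finset P)) (D : Set P) (lam : P → P) : Set (Finset P) :=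
  {t | t ∈ T ∧ ∃ d ∈ t, ∃ b ∈ t, ∃ b' ∈ t, d ∈ D ∧ b ∉ D ∧ b' ∉ D ∧ lam b ≠ lam b'}

/-- the union of the curves `Pi x`, `x ∈ A ∩ D` -/
def nn (Pi : P → Set P) (D A : Set P) : Set P := {z | ∃ x ∈ A, x ∈ D ∧ z ∈ Pi x}

/-! ### Strings -/

/-- breadth first search layers `ly` and parents `p` -/
structure Bfs (G : SimpleGraph V) (r : V) (p : V → V) (ly : V → ℕ) : Prop where
  lay : ∀ u v, G.Adj u v → ly u ≤ ly v + 1
  par : ∀ v, v ≠ r → G.Adj v (p v) ∧ ly (p v) + 1 = ly v
  root : ly r = 0

/-- `A` is a curve for `x ∈ D`: it consists of points of `D`, contains `x`, is adjacent to the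
complement of `D`, and meets few strings -/
structure Crv (T : Finset (Finset P)) (S : V → Set P) (ly : V → ℕ) (Δ : ℕ) (D : Set P) (x : P)
    (A : Set P) : Prop where
  sub : A ⊆ D
  self : x ∈ A
  conn : ((gph T).induce A).Connected
  touch : Touch (gph T) A Dᶜ
  wid : ∀ j, {v | S v ⊆ D ∧ (S v ∩ A).Nonempty ∧ ly v = j}.ncard ≤ 4 * (Δ + 1)
  old : {v | ¬ S v ⊆ D ∧ (S v ∩ A).Nonempty}.ncard ≤ 2 * (Δ + 1)

/-- `N` is a good cut of the region `D`: a component of `D \ N` has at most half of the corners -/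
structure Cut (T : Finset (Finset P)) (S : V → Set P) (ly : V → ℕ) (Δ : ℕ) (D : Set P)
    (lam : P → P) (N : Set P) : Prop where
  sub : N ⊆ D
  conn : ((gph T).induce N).Connected
  touch : Touch (gph T) N Dᶜ
  wid : ∀ j, {v | S v ⊆ D ∧ (S v ∩ N).Nonempty ∧ ly v = j}.ncard ≤ 12 * (Δ + 1)
  old : {v | ¬ S v ⊆ D ∧ (S v ∩ N).Nonempty}.ncard ≤ 6 * (Δ + 1)
  half : ∀ x, x ∈ D → x ∉ N →
    2 * {t | t ∈ Cor T D lam ∧ ∃ d ∈ t, d ∈ cmp (gph T) (D \ N) x}.ncard ≤ (Cor T D lam).ncard

/-- A state of the induction. `D` is a region. `e w` is the name (a representative) of the part of the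
old string `w` (`w` is old if `S w` is not contained in `D`). Every neighbour `b` of `D` has a label
`lam b`; all strings through `b` are in the part with name `nm (lam b)` or in the exceptional set
`X (lam b)` of at most `m` strings. There are at most 4 corners. -/
structure St [Fintype P] (T : Finset (Finset P)) (S : V → Set P) (m : ℕ) (D : Set P) (e : V → V)
    (lam : P → P) (nm : P → V) (X : P → Set V) : Prop where
  reg : Reg T D
  old : ∀ w, ¬ S w ⊆ D → ¬ S (e w) ⊆ D
  lamD : ∀ b ∈ nbD T D, lam b ∉ D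
  exc : ∀ b ∈ nbD T D, ∀ w, b ∈ S w → e w = nm (lam b) ∨ w ∈ X (lam b)
  card : ∀ i, (X i).ncard ≤ m
  cor : (Cor T D lam).ncard ≤ 4

open Classical in
/-- the new names: the strings in `D` which meet `N` form the new part with name `q` -/
noncomputable def en (S : V → Set P) (D N : Set P) (q : V) (e : V → V) (w : V) : V :=
  if S w ⊆ D then (if (S w ∩ N).Nonempty then q else w) else e w

/-- A rooted tree decomposition for the edges of `G` with an end in `New`; `lb v` is the name of the
vertex `v`, the parts consist of names and have at most `w` elements, the root part contains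
`Root`. -/
def RD (G : SimpleGraph V) (w : ℕ) (New Root : Set V) (lb : V → V) : Prop :=
  ∃ (Y : Type) (t : SimpleGraph Y) (ρ : Y) (bag : Y → Set V), t.IsTree ∧
    (∀ i, (t.induce {y | i ∈ bag y}).Preconnected) ∧
    (∀ y, bag y ⊆ Root ∪ New) ∧ Root ⊆ bag ρ ∧
    (∀ u v, u ∈ New → G.Adj u v → ∃ y, lb u ∈ bag y ∧ lb v ∈ bag y) ∧
    ∀ y, (bag y).encard ≤ w

/-- the names of the old strings which poke into `D` -/
def pk (S : V → Set P) (D : Set P) (e : V → V) : Set V :=
  e '' {v | ¬ S v ⊆ D ∧ (S v ∩ D).Nonempty}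

/-- the conclusion of the induction for the region `D` -/
def Con (G : SimpleGraph V) (S : V → Set P) (ly : V → ℕ) (c w : ℕ) (D : Set P) (e : V → V) :
    Prop :=
  ∃ lb : V → V, (∀ v, ¬ S v ⊆ D → lb v = e v) ∧ (∀ v, S v ⊆ D → S (lb v) ⊆ D) ∧
    (∀ i j, {v | S v ⊆ D ∧ lb v = i ∧ ly v = j}.ncard ≤ c) ∧
    RD G w {v | S v ⊆ D} (pk S D e) lb

end Pool.Agent.IM55.SG
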