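import Pool.Agent.Work.MP_55ff09_co.SG.Stmts

/-!
# MP_55ff09_co, block SG: item ABC
-/

set_option autoImplicit false

namespace Pool.Agent.IM55.SG

open SimpleGraph Pool.Agent.IM55 Pool.Agent.IM55.PL

namespace XABC

open Classical in
/-- the colouring: 0 on `D'`, 1 on `D \ D'`, 2 outside `D` -/
noncomputable def col {P : Type} (D D' : Set P) (x : P) : Fin 3 :=
  if x ∈ D then (if x ∈ D' then 0 else 1) else 2

lemma col0 {P : Type} {D D' : Set P} (h : D' ⊆ D) (x : P) : col D D' x = 0 ↔ x ∈ D' := by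
  unfold col
  by_cases h1 : x ∈ D
  · by_cases h2 : x ∈ D'
    · simp [h1, h2]
    · simp [h1, h2]
  · have h2 : x ∉ D' := fun h' => h1 (h h')
    simp [h1, h2]

lemma col1 {P : Type} {D D' : Set P} (x : P) : col D D' x = 1 ↔ x ∈ D ∧ x ∉ D' := by
  unfold col
  by_cases h1 : x ∈ D
  · by_cases h2 : x ∈ D'
    · simp [h1, h2]
    · simp [h1, h2]
  · simp [h1]

lemma col2 {P : Type} {D D' : Set P} (x : P) : col D D' x = 2 ↔ x ∉ D := by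
  unfold col
  by_cases h1 : x ∈ D
  · by_cases h2 : x ∈ D'
    · simp [h1, h2]
    · simp [h1, h2]
  · simp [h1]

end XABC

open XABC in
theorem i_ABC (h1 : S_CH1) (h2 : S_CHC) (h3 : S_TRI) : S_ABC := by
  intro P _ T g hT D D' hD hsub hc' hc
  have e0 : {x | col D D' x = 0} = D' := Set.ext fun x => col0 hsub x
  have e1 : {x | col D D' x = 1} = D \ D' := Set.ext fun x => col1 x
  have e2 : {x | col D D' x = 2} = Dᶜ := Set.ext fun x => col2 x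
  obtain ⟨⟨z, hz⟩⟩ := hD.cconn.nonempty
  have n1 : D' ≠ Set.univ := fun h => hz (hsub (h ▸ Set.mem_univ z))
  have n2 : D \ D' ≠ Set.univ := fun h => hz (h ▸ Set.mem_univ z : z ∈ D \ D').1
  have c1 := h1 T g hT D' n1 hc'
  have c2 := h1 T g hT (D \ D') n2 hc
  have c3 := h2 T g hT D hD
  have t := h3 T g hT (col D D')
  have es : {t | t ∈ T ∧ (∃ x ∈ t, x ∈ D') ∧ (∃ x ∈ t, x ∈ D ∧ x ∉ D') ∧ ∃ x ∈ t, x ∉ D} =
      {t | t ∈ T ∧ ∀ i, ∃ x ∈ t, col D D' x = i} := by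
    ext t
    simp only [Set.mem_setOf_eq, Fin.forall_fin_succ]
    simp only [Fin.succ_zero_eq_one, Fin.succ_one_eq_two, IsEmpty.forall_iff, and_true]
    constructor
    · rintro ⟨ht, ⟨x, hx, hx'⟩, ⟨y, hy, hy'⟩, ⟨w, hw, hw'⟩⟩
      exact ⟨ht, ⟨x, hx, (col0 hsub x).2 hx'⟩, ⟨y, hy, (col1 y).2 hy'⟩, ⟨w, hw, (col2 w).2 hw'⟩⟩
    · rintro ⟨ht, ⟨x, hx, hx'⟩, ⟨y, hy, hy'⟩, ⟨w, hw, hw'⟩⟩
      exact ⟨ht, ⟨x, hx, (col0 hsub x).1 hx'⟩, ⟨y, hy, (col1 y).1 hy'⟩, ⟨w, hw, (col2 w).1 hw'⟩⟩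
  rw [es]
  simp only [Fin.sum_univ_three, e0, e1, e2] at t
  omega

end Pool.Agent.IM55.SG
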