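import Pool.Agent.Work.MP_55ff09_co.SG.Stmts

/-!
# MP_55ff09_co, block SG, item ADP: the adaptive curve of a point
-/

set_option autoImplicit false

namespace Pool.Agent.IM55.SG

open SimpleGraph Pool.Agent.IM55 Pool.Agent.IM55.PL

namespace XADP

variable {P V : Type}

theorem meet {T : Finset (Finset P)} {G : SimpleGraph V} {S : V → Set P} (hS : Str T G S)
    {u w : V} {y : P} (h1 : y ∈ S w) (h2 : y ∈ S u) : w = u ∨ G.Adj w u := by
  by_cases h : w = u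
  · exact Or.inl h
  · exact Or.inr ((hS.adj w u h).2 ⟨y, h1, h2⟩)

theorem nb_card [Finite V] {G : SimpleGraph V} {Δ : ℕ} (hΔ : DegLe G Δ) (z : V) :
    {w | w = z ∨ G.Adj w z}.ncard ≤ Δ + 1 := by
  have h : {w | w = z ∨ G.Adj w z} ⊆ insert z (G.neighborSet z) := by
    rintro w (hw | hw)
    · exact Or.inl hw
    · exact Or.inr hw.symm
  have h1 := Set.ncard_le_ncard h (Set.toFinite _)
  have h2 := Set.ncard_insert_le z (G.neighborSet z)
  have h3 := hΔ z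
  omega

end XADP

open XADP

theorem i_ADP (h1 : S_UPW) (h2 : S_VCT) (h3 : S_UCN) (h4 : S_CRV) : S_ADP := by
  classical
  intro P V _ _ T Δ G S r p ly hS hcov hb hΔ D hr x hx
  obtain ⟨v, hv⟩ := hcov x
  obtain ⟨k, z, hk, hz, hkz⟩ := h1 G r p ly hb {w | ¬ S w ⊆ D} hr v
  have hkr : ∀ i < k, p^[i] v ≠ r := fun i hi => (hk i hi r hr).1
  have hUc : ((gph T).induce ({y | ∃ i ≤ k, y ∈ S (p^[i] v)} ∪ S z)).Connected := by
    apply conn_union (h3 T G S r p ly hS hb v k hkr) (hS.conn z)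
    rcases hkz with e | e
    · obtain ⟨⟨y, hy⟩⟩ := (hS.conn z).nonempty
      exact ⟨y, ⟨k, le_rfl, e ▸ hy⟩, y, hy, Or.inl rfl⟩
    · obtain ⟨y, hy1, hy2⟩ := (hS.adj _ _ e.ne).1 e
      exact ⟨y, ⟨k, le_rfl, hy1⟩, y, hy2, Or.inl rfl⟩
  generalize hU : ({y | ∃ i ≤ k, y ∈ S (p^[i] v)} ∪ S z) = U at hUc
  have hxU : x ∈ U := by
    rw [← hU]
    exact Or.inl ⟨0, Nat.zero_le _, hv⟩
  have hUD : ¬ U ⊆ D := by
    intro h
    apply hz
    intro y hy
    apply h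
    rw [← hU]
    exact Or.inr hy
  have hsub : ∀ y, y ∈ cmp (gph T) (U ∩ D) x → y ∈ U ∧ y ∈ D := by
    intro y hy
    have h := cmp_subset hy
    exact ⟨h.1, h.2⟩
  have hnb : ∀ w, (S w ∩ cmp (gph T) (U ∩ D) x).Nonempty →
      (∃ i ≤ k, w = p^[i] v ∨ G.Adj w (p^[i] v)) ∨ (w = z ∨ G.Adj w z) := by
    rintro w ⟨y, hy1, hy2⟩
    have hyU := (hsub y hy2).1
    rw [← hU] at hyU
    rcases hyU with ⟨i, hi, hyi⟩ | hyz
    · exact Or.inl ⟨i, hi, meet hS hy1 hyi⟩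
    · exact Or.inr (meet hS hy1 hyz)
  refine ⟨cmp (gph T) (U ∩ D) x, fun y hy => (hsub y hy).2, mem_cmp_self ⟨hxU, hx⟩,
    cmp_connected ⟨hxU, hx⟩, h4 _ U D x hUc hxU hx hUD, ?_, ?_⟩
  · intro j
    have hs : {w | S w ⊆ D ∧ (S w ∩ cmp (gph T) (U ∩ D) x).Nonempty ∧ ly w = j} ⊆
        {w | (∃ i ≤ k, w = p^[i] v ∨ G.Adj w (p^[i] v)) ∧ ly w = j} ∪
          {w | w = z ∨ G.Adj w z} := by
      rintro w ⟨-, hw1, hw2⟩
      rcases hnb w hw1 with h | h
      · exact Or.inl ⟨h, hw2⟩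
      · exact Or.inr h
    have e1 := Set.ncard_le_ncard hs (Set.toFinite _)
    have e2 := Set.ncard_union_le {w | (∃ i ≤ k, w = p^[i] v ∨ G.Adj w (p^[i] v)) ∧ ly w = j}
      {w | w = z ∨ G.Adj w z}
    have e3 := h2 G Δ r p ly hb hΔ v k hkr j
    have e4 := nb_card hΔ z
    omega
  · have hs : {w | ¬ S w ⊆ D ∧ (S w ∩ cmp (gph T) (U ∩ D) x).Nonempty} ⊆
        {w | w = p^[k] v ∨ G.Adj w (p^[k] v)} ∪ {w | w = z ∨ G.Adj w z} := by
      rintro w ⟨hw0, hw1⟩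
      rcases hnb w hw1 with ⟨i, hi, h⟩ | h
      · rcases Nat.lt_or_ge i k with hik | hik
        · exfalso
          obtain ⟨g1, g2⟩ := hk i hik w hw0
          rcases h with h | h
          · exact g1 h.symm
          · exact g2 h.symm
        · have : i = k := le_antisymm hi hik
          subst this
          exact Or.inl h
      · exact Or.inr h
    have e1 := Set.ncard_le_ncard hs (Set.toFinite _)
    have e2 := Set.ncard_union_le {w | w = p^[k] v ∨ G.Adj w (p^[k] v)} {w | w = z ∨ G.Adj w z}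
    have e3 := nb_card hΔ (p^[k] v)
    have e4 := nb_card hΔ z
    omega

end Pool.Agent.IM55.SG
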