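import Pool.Agent.Work.MP_55ff09_co.SG.Stmts

/-!
# MP_55ff09_co, block SG, item BDM: dimension of the boundaries
-/

set_option autoImplicit false

namespace Pool.Agent.IM55.SG

open SimpleGraph Pool.Agent.IM55 Pool.Agent.IM55.PL

namespace XBDM

variable {P : Type}

/-- evaluation of `d2` at an edge -/
theorem d2_edge [Fintype P] (T : Finset (Finset P)) (e : Sym2 P) (he : e ∈ (gph T).edgeSet) :
    ∃ F : Finset (Finset P), (∀ t, t ∈ F ↔ t ∈ T ∧ ∀ x ∈ e, x ∈ t) ∧
      ∀ c : Finset P → ZMod 2, d2 T c e = ∑ t ∈ F, c t := by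
  classical
  refine ⟨T.filter fun t => ∀ x ∈ e, x ∈ t, fun t => Finset.mem_filter, fun c => ?_⟩
  unfold d2
  simp only [LinearMap.coe_mk, AddHom.coe_mk]
  rw [if_pos he]
  apply Finset.sum_congr _ fun _ _ => rfl
  ext t
  simp only [Finset.mem_filter]

/-- evaluation of `d2` at a non-edge -/
theorem d2_nonedge [Fintype P] (T : Finset (Finset P)) (e : Sym2 P) (he : e ∉ (gph T).edgeSet)
    (c : Finset P → ZMod 2) : d2 T c e = 0 := by
  unfold d2
  simp only [LinearMap.coe_mk, AddHom.coe_mk]
  rw [if_neg he]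

/-- `d2` only depends on the values on `T` -/
theorem d2_congr [Fintype P] (T : Finset (Finset P)) (c c' : Finset P → ZMod 2)
    (h : ∀ t ∈ T, c t = c' t) : d2 T c = d2 T c' := by
  funext e
  by_cases he : e ∈ (gph T).edgeSet
  · obtain ⟨F, hF, hd⟩ := d2_edge T e he
    rw [hd, hd]
    exact Finset.sum_congr rfl fun t ht => h t ((hF t).1 ht).1
  · rw [d2_nonedge T e he, d2_nonedge T e he]

/-- the constant function 1 is a cycle -/
theorem d2_one [Fintype P] (T : Finset (Finset P)) (g : ℕ) (hT : Surf T g) :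
    d2 T (fun _ => 1) = 0 := by
  funext e
  by_cases he : e ∈ (gph T).edgeSet
  · obtain ⟨F, hF, hd⟩ := d2_edge T e he
    rw [hd, Finset.sum_const, nsmul_eq_mul, mul_one]
    have h3 : F.card = 2 := by
      induction e using Sym2.ind with
      | _ x y =>
        rw [SimpleGraph.mem_edgeSet] at he
        rw [← Set.ncard_coe_finset, ← hT.two x y he]
        congr 1
        ext t
        rw [Finset.mem_coe, hF]
        simp only [Set.mem_ofPred_eq, Sym2.mem_iff]
        constructor
        · rintro ⟨h1, h2⟩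
          exact ⟨h1, h2 x (Or.inl rfl), h2 y (Or.inr rfl)⟩
        · rintro ⟨h1, h2, h3⟩
          refine ⟨h1, ?_⟩
          rintro z (rfl | rfl)
          · exact h2
          · exact h3
    rw [h3]
    exact (by decide : ((2 : ℕ) : ZMod 2) = 0)
  · rw [d2_nonedge T e he]
    rfl

end XBDM

open XBDM in
/-- **BDM** -/
theorem i_BDM (h1 : S_KER) (h2 : S_DM0) : S_BDM := by
  classical
  intro P _ T g hT
  obtain ⟨x0⟩ := hT.conn.nonempty
  obtain ⟨t0, ht0, -⟩ := hT.cover x0
  set X : Set (Finset P) := (T : Set (Finset P)) with hX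
  set f : sp X →ₗ[ZMod 2] (Sym2 P → ZMod 2) := (d2 T).comp (sp X).subtype with hf
  have hfa : ∀ v : sp X, f v = d2 T v.1 := fun v => rfl
  have hr : LinearMap.range f = LinearMap.range (d2 T) := by
    apply le_antisymm
    · rintro _ ⟨v, rfl⟩
      exact ⟨v.1, rfl⟩
    · rintro _ ⟨c, rfl⟩
      refine ⟨⟨fun t => if t ∈ T then c t else 0, ?_⟩, ?_⟩
      · intro t ht
        by_contra h
        apply ht
        exact if_neg h
      · rw [hfa]
        apply d2_congr
        intro t ht
        exact if_pos ht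
  have hk : Module.finrank (ZMod 2) (LinearMap.ker f) = 1 := by
    rw [finrank_eq_one_iff']
    have hv : (fun t => if t ∈ T then (1 : ZMod 2) else 0) ∈ sp X := by
      intro t ht
      by_contra h
      apply ht
      exact if_neg h
    have hv2 : (⟨_, hv⟩ : sp X) ∈ LinearMap.ker f := by
      rw [LinearMap.mem_ker, hfa]
      rw [← d2_one T g hT]
      apply d2_congr
      intro t ht
      exact if_pos ht
    refine ⟨⟨⟨_, hv⟩, hv2⟩, ?_, ?_⟩
    · intro h
      have h3 := congrArg (fun z : LinearMap.ker f => z.1.1 t0) h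
      simp only [if_pos ht0] at h3
      exact one_ne_zero h3
    · rintro ⟨⟨w, hw⟩, hwk⟩
      refine ⟨w t0, ?_⟩
      apply Subtype.ext
      apply Subtype.ext
      funext t
      change w t0 * (if t ∈ T then (1 : ZMod 2) else 0) = w t
      by_cases ht : t ∈ T
      · rw [if_pos ht, mul_one]
        have h3 : d2 T w = 0 := by
          rw [LinearMap.mem_ker] at hwk
          exact hwk
        exact h1 T g hT w h3 t0 ht0 t ht
      · rw [if_neg ht, mul_zero]
        by_contra h
        exact ht (hw t (fun h' => h h'.symm))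
  have h3 := LinearMap.finrank_range_add_finrank_ker f
  rw [hr, hk, h2 X, hX, Set.ncard_coe_finset] at h3
  exact h3

end Pool.Agent.IM55.SG
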