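import Pool.Agent.Work.MP_55ff09_co.SG.Stmts

/-! # MP_55ff09_co, block SG, item BFS -/

set_option autoImplicit false

namespace Pool.Agent.IM55.SG

open SimpleGraph Pool.Agent.IM55 Pool.Agent.IM55.PL

theorem XBFS.exists_parent {V : Type} (G : SimpleGraph V) (hG : G.Connected) (r v : V)
    (hv : v ≠ r) : ∃ w, G.Adj v w ∧ G.dist r w + 1 = G.dist r v := by
  obtain ⟨q, hq⟩ := hG.exists_walk_length_eq_dist v r
  cases q with
  | nil => exact absurd rfl hv
  | @cons _ w _ h q' =>
    refine ⟨w, h, ?_⟩
    have h1 : q'.length + 1 = G.dist v r := by simpa using hq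
    have h2 : G.dist w r ≤ q'.length := SimpleGraph.dist_le q'
    have h3 : G.dist v r ≤ G.dist v w + G.dist w r := hG.dist_triangle
    have h4 : G.dist v w = 1 := SimpleGraph.dist_eq_one_iff_adj.mpr h
    rw [SimpleGraph.dist_comm (u := r) (v := w), SimpleGraph.dist_comm (u := r) (v := v)]
    omega

theorem i_BFS : S_BFS := by
  intro V G hG r
  classical
  refine ⟨fun v => if h : v = r then r else (XBFS.exists_parent G hG r v h).choose,
    fun v => G.dist r v, ?_, ?_, ?_⟩
  · intro u v huv
    have h1 : G.dist r u ≤ G.dist r v + G.dist v u := hG.dist_triangle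
    have h2 : G.dist v u = 1 := SimpleGraph.dist_eq_one_iff_adj.mpr huv.symm
    show G.dist r u ≤ G.dist r v + 1
    omega
  · intro v hv
    simp only [dif_neg hv]
    exact (XBFS.exists_parent G hG r v hv).choose_spec
  · exact SimpleGraph.dist_self

end Pool.Agent.IM55.SG
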