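import Pool.Agent.Work.MP_55ff09_co.SG.Stmts

/-!
# MP_55ff09_co, block SG, item CH1 (helper46)
-/

set_option autoImplicit false

namespace Pool.Agent.IM55.SG

open SimpleGraph Pool.Agent.IM55 Pool.Agent.IM55.PL

theorem i_CH1 (h1 : S_DMZ) (h2 : S_INJ) : S_CH1 := by
  intro P _ T g hT A hA hc
  have e1 := h1 T A hc
  have e2 := h2 T g hT A hA
  have e3 : Module.finrank (ZMod 2) ↥(Z T A ⊓ LinearMap.range (d2 T)) ≤
      Module.finrank (ZMod 2) (Z T A) := Submodule.finrank_mono inf_le_left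
  omega

end Pool.Agent.IM55.SG
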