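import Pool.Agent.Work.MP_55ff09_co.SG.Stmts

/-!
# MP_55ff09_co, block SG, item CHC: Euler characteristic of the complement of a region
-/

set_option autoImplicit false

namespace Pool.Agent.IM55.SG

open SimpleGraph Pool.Agent.IM55 Pool.Agent.IM55.PL

namespace XCHC

/-- Linear algebra: if `Y ≤ Zc ⊔ B` then `dim Y + dim (Zc ⊓ B) ≤ dim Zc + dim B`. -/
theorem dim_le {K M : Type} [Field K] [AddCommGroup M] [Module K M] [Module.Finite K M]
    (Y Zc B : Submodule K M) (h : Y ≤ Zc ⊔ B) :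
    Module.finrank K Y + Module.finrank K ↥(Zc ⊓ B) ≤
      Module.finrank K Zc + Module.finrank K B := by
  have h1 := Submodule.finrank_sup_add_finrank_inf_eq Zc B
  have h2 := Submodule.finrank_mono h
  omega

end XCHC

/-- CHC. -/
theorem i_CHC (h1 : S_DMZ) (h2 : S_INJ) (h3 : S_HG) : S_CHC := by
  intro P _ T g hT D hD
  have hne : (Dᶜ : Set P) ≠ Set.univ := by
    intro h
    obtain ⟨⟨x, hx⟩⟩ := hD.conn.nonempty
    have : x ∈ (Dᶜ : Set P) := by rw [h]; trivial
    exact this hx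
  have e1 := h1 T Dᶜ hD.cconn
  have e2 := h2 T g hT Dᶜ hne
  have e3 := h3 T g hT
  have e4 := XCHC.dim_le (Z T Set.univ) (Z T Dᶜ) (LinearMap.range (d2 T)) hD.hom
  omega

end Pool.Agent.IM55.SG
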