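import Pool.Agent.Work.MP_55ff09_co.SG.Stmts

/-!
# MP_55ff09_co, block SG: item CO1 (the cut functional vanishes on boundaries)
-/

set_option autoImplicit false

namespace Pool.Agent.IM55.SG

open SimpleGraph Pool.Agent.IM55 Pool.Agent.IM55.PL

namespace XCO1

open Classical in
theorem value {P : Type} (T : Finset (Finset P)) (c : Finset P → ZMod 2) (d b : P) (h : d ≠ b) :
    d2 T c s(d, b) = ∑ t ∈ T, if d ∈ t ∧ b ∈ t then c t else 0 := by
  have hf : (T.filter fun t => ∀ x ∈ s(d, b), x ∈ t) = T.filter fun t => d ∈ t ∧ b ∈ t := by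
    apply Finset.filter_congr
    intro t _
    simp [Sym2.mem_iff]
  have hv : d2 T c s(d, b) = if s(d, b) ∈ (gph T).edgeSet then
      ∑ t ∈ T.filter (fun t => ∀ x ∈ s(d, b), x ∈ t), c t else 0 := rfl
  rw [hv, ← Finset.sum_filter]
  split_ifs with hE
  · rw [hf]
  · symm
    apply Finset.sum_eq_zero
    intro t ht
    rw [Finset.mem_filter] at ht
    have hadj : (gph T).Adj d b := ⟨h, t, ht.1, ht.2.1, ht.2.2⟩
    exact absurd ((SimpleGraph.mem_edgeSet _).2 hadj) hE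

open Classical in
theorem even_pairs {P : Type} (t : Finset P) (ht : t.card = 3) (D I : Set P)
    (h : ∀ d ∈ t, d ∈ D → ∀ b ∈ t, b ∉ D → ∀ b' ∈ t, b' ∉ D → (b ∈ I ↔ b' ∈ I)) :
    2 ∣ (t.filter (fun d => d ∈ D)).card * (t.filter (fun b => b ∉ D ∧ b ∈ I)).card := by
  rcases Finset.eq_empty_or_nonempty (t.filter (fun d => d ∈ D)) with hA | ⟨d, hd⟩
  · rw [hA]
    simp
  rcases Finset.eq_empty_or_nonempty (t.filter (fun b => b ∉ D ∧ b ∈ I)) with hB | ⟨b, hb⟩
  · rw [hB]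
    simp
  rw [Finset.mem_filter] at hd hb
  have hBC : t.filter (fun b => b ∉ D ∧ b ∈ I) = t.filter (fun b => ¬ b ∈ D) := by
    apply Finset.filter_congr
    intro b' hb'
    constructor
    · intro h1
      exact h1.1
    · intro h1
      exact ⟨h1, (h d hd.1 hd.2 b hb.1 hb.2.1 b' hb' h1).1 hb.2.2⟩
  have hc := Finset.card_filter_add_card_filter_not (s := t) (fun d => d ∈ D)
  rw [ht] at hc
  rw [hBC]
  have hA : (t.filter (fun d => d ∈ D)).card ≤ 3 := by omega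
  have hC : (t.filter (fun b => ¬ b ∈ D)).card = 3 - (t.filter (fun d => d ∈ D)).card := by omega
  rw [hC]
  interval_cases (t.filter (fun d => d ∈ D)).card <;> decide

open Classical in
theorem tri {P : Type} [Fintype P] (t : Finset P) (ht : t.card = 3) (D I : Set P)
    (h : ∀ d ∈ t, d ∈ D → ∀ b ∈ t, b ∉ D → ∀ b' ∈ t, b' ∉ D → (b ∈ I ↔ b' ∈ I)) (m : ZMod 2) :
    ∑ d : P, ∑ b : P,
      (if d ∈ D ∧ b ∉ D ∧ b ∈ I then (if d ∈ t ∧ b ∈ t then m else 0) else 0) = 0 := by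
  have h1 : ∀ d b : P, (if d ∈ D ∧ b ∉ D ∧ b ∈ I then (if d ∈ t ∧ b ∈ t then m else 0) else 0) =
      (if d ∈ t.filter (fun d => d ∈ D) then
        (if b ∈ t.filter (fun b => b ∉ D ∧ b ∈ I) then m else 0) else 0) := by
    intro d b
    simp only [Finset.mem_filter]
    by_cases h2 : d ∈ D <;> by_cases h3 : b ∈ D <;> by_cases h4 : b ∈ I <;>
      by_cases h5 : d ∈ t <;> by_cases h6 : b ∈ t <;> simp [h2, h3, h4, h5, h6]
  have h2 : ∀ d : P, ∑ b : P, (if d ∈ t.filter (fun d => d ∈ D) then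
        (if b ∈ t.filter (fun b => b ∉ D ∧ b ∈ I) then m else 0) else 0) =
      (if d ∈ t.filter (fun d => d ∈ D) then
        ((t.filter (fun b => b ∉ D ∧ b ∈ I)).card : ZMod 2) * m else 0) := by
    intro d
    split_ifs with h3
    · rw [Finset.sum_ite_mem, Finset.univ_inter, Finset.sum_const, nsmul_eq_mul]
    · simp
  simp only [h1, h2]
  rw [Finset.sum_ite_mem, Finset.univ_inter, Finset.sum_const, nsmul_eq_mul, ← mul_assoc,
    ← Nat.cast_mul, (ZMod.natCast_eq_zero_iff _ 2).2 (even_pairs t ht D I h), zero_mul]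

end XCO1

theorem i_CO1 : S_CO1 := by
  classical
  intro P _ T g hT D I hDI F hF c
  rw [hF]
  have h1 : ∀ d b : P, (if d ∈ D ∧ b ∉ D ∧ b ∈ I then d2 T c s(d, b) else 0) =
      ∑ t ∈ T, (if d ∈ D ∧ b ∉ D ∧ b ∈ I then (if d ∈ t ∧ b ∈ t then c t else 0) else 0) := by
    intro d b
    by_cases h : d ∈ D ∧ b ∉ D ∧ b ∈ I
    · simp only [if_pos h]
      have hne : d ≠ b := by
        rintro rfl
        exact h.2.1 h.1
      rw [XCO1.value T c d b hne]
    · simp only [if_neg h, Finset.sum_const_zero]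
  have h2 : (∑ d : P, ∑ b : P, if d ∈ D ∧ b ∉ D ∧ b ∈ I then d2 T c s(d, b) else 0) =
      ∑ t ∈ T, ∑ d : P, ∑ b : P,
        (if d ∈ D ∧ b ∉ D ∧ b ∈ I then (if d ∈ t ∧ b ∈ t then c t else 0) else 0) := by
    simp only [h1]
    have h3 : ∀ d : P, ∑ b : P, ∑ t ∈ T,
        (if d ∈ D ∧ b ∉ D ∧ b ∈ I then (if d ∈ t ∧ b ∈ t then c t else 0) else 0) =
        ∑ t ∈ T, ∑ b : P,
        (if d ∈ D ∧ b ∉ D ∧ b ∈ I then (if d ∈ t ∧ b ∈ t then c t else 0) else 0) := by
      intro d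
      exact Finset.sum_comm
    simp only [h3]
    exact Finset.sum_comm
  have h4 : ∀ t ∈ T, ∑ d : P, ∑ b : P,
      (if d ∈ D ∧ b ∉ D ∧ b ∈ I then (if d ∈ t ∧ b ∈ t then c t else 0) else 0) = 0 := by
    intro t ht
    have h5 := XCO1.tri t (hT.card t ht) D I (hDI t ht) (c t)
    convert h5 using 1
  rw [Finset.sum_eq_zero h4] at h2
  convert h2 using 1

end Pool.Agent.IM55.SG
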