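import Pool.Agent.Work.MP_55ff09_co.SG.Stmts

/-!
# Item COC of the block SG: the cocycle argument
-/

set_option autoImplicit false

namespace Pool.Agent.IM55.SG

open SimpleGraph Pool.Agent.IM55 Pool.Agent.IM55.PL

namespace XCOC

variable {P : Type}

theorem dl_self {ι : Type} (i : ι) : dl i i = 1 := by
  unfold dl
  rw [if_pos rfl]

theorem dl_ne {ι : Type} {i j : ι} (h : j ≠ i) : dl i j = 0 := by
  unfold dl
  rw [if_neg h]

theorem d1_dl [Fintype P] {x y : P} (h : x ≠ y) :
    d1 (dl s(x, y)) = dl x + dl y := by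
  classical
  funext z
  rw [Pi.add_apply]
  show ∑ w, dl s(x, y) s(z, w) = _
  by_cases hzx : z = x
  · rw [hzx, dl_self, dl_ne h, add_zero, Finset.sum_eq_single y, dl_self]
    · intro w _ hw
      refine dl_ne fun h' => ?_
      rw [Sym2.eq_iff] at h'
      rcases h' with h1 | h1
      · exact hw h1.2
      · exact h h1.1
    · intro h'
      exact absurd (Finset.mem_univ y) h'
  · by_cases hzy : z = y
    · rw [hzy, dl_self, dl_ne h.symm, zero_add, Finset.sum_eq_single x]
      · rw [Sym2.eq_swap, dl_self]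
      · intro w _ hw
        refine dl_ne fun h' => ?_
        rw [Sym2.eq_iff] at h'
        rcases h' with h1 | h1
        · exact h h1.1.symm
        · exact hw h1.2
      · intro h'
        exact absurd (Finset.mem_univ x) h'
    · rw [dl_ne hzx, dl_ne hzy, add_zero]
      refine Finset.sum_eq_zero fun w _ => dl_ne fun h' => ?_
      rw [Sym2.eq_iff] at h'
      rcases h' with h1 | h1
      · exact hzx h1.1
      · exact hzy h1.1

open Classical in
/-- the functional of the docstring -/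
noncomputable def Fn [Fintype P] (D I : Set P) (a : Sym2 P → ZMod 2) : ZMod 2 :=
  ∑ d : P, ∑ b : P, if d ∈ D ∧ b ∉ D ∧ b ∈ I then a s(d, b) else 0

theorem Fn_add [Fintype P] (D I : Set P) (a a' : Sym2 P → ZMod 2) :
    Fn D I (a + a') = Fn D I a + Fn D I a' := by
  unfold Fn
  rw [← Finset.sum_add_distrib]
  refine Finset.sum_congr rfl fun d _ => ?_
  rw [← Finset.sum_add_distrib]
  refine Finset.sum_congr rfl fun b _ => ?_
  split_ifs
  · rfl
  · rw [add_zero]

theorem Fn_in [Fintype P] {T : Finset (Finset P)} {D I : Set P} {a : Sym2 P → ZMod 2}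
    (h : a ∈ sp (EE T D)) : Fn D I a = 0 := by
  unfold Fn
  refine Finset.sum_eq_zero fun d _ => Finset.sum_eq_zero fun b _ => ?_
  split_ifs with h1
  · by_contra h2
    exact h1.2.1 ((h _ h2).2 b (Sym2.mem_mk_right d b))
  · rfl

theorem Fn_out [Fintype P] {T : Finset (Finset P)} {D I : Set P} {a : Sym2 P → ZMod 2}
    (h : a ∈ sp (EE T Dᶜ)) : Fn D I a = 0 := by
  unfold Fn
  refine Finset.sum_eq_zero fun d _ => Finset.sum_eq_zero fun b _ => ?_
  split_ifs with h1
  · by_contra h2
    exact (h _ h2).2 d (Sym2.mem_mk_left d b) h1.1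
  · rfl

open Classical in
theorem Fn_dl [Fintype P] {D I : Set P} {d b : P} (hd : d ∈ D) (hb : b ∉ D) :
    Fn D I (dl s(d, b)) = if b ∈ I then 1 else 0 := by
  unfold Fn
  rw [Finset.sum_eq_single d, Finset.sum_eq_single b]
  · rw [dl_self]
    by_cases h : b ∈ I
    · rw [if_pos ⟨hd, hb, h⟩, if_pos h]
    · rw [if_neg (fun h' => h h'.2.2), if_neg h]
  · intro b' _ hb'
    split_ifs with h1
    · refine dl_ne fun h' => ?_
      rw [Sym2.eq_iff] at h'
      rcases h' with h2 | h2
      · exact hb' h2.2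
      · exact hb (h2.1 ▸ hd)
    · rfl
  · intro h
    exact absurd (Finset.mem_univ b) h
  · intro d' _ hd'
    refine Finset.sum_eq_zero fun b' _ => ?_
    split_ifs with h1
    · refine dl_ne fun h' => ?_
      rw [Sym2.eq_iff] at h'
      rcases h' with h2 | h2
      · exact hd' h2.1
      · exact hb (h2.1 ▸ h1.1)
    · rfl
  · intro h
    exact absurd (Finset.mem_univ d) h

theorem EE_mono {T : Finset (Finset P)} {A B : Set P} (h : A ⊆ B) : EE T A ⊆ EE T B :=
  fun _ he => ⟨he.1, fun x hx => h (he.2 x hx)⟩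

theorem sp_mono {ι : Type} {X Y : Set ι} (h : X ⊆ Y) : sp X ≤ sp Y :=
  fun _ ha i hi => h (ha i hi)

theorem dl_mem {T : Finset (Finset P)} {x y : P} (h : (gph T).Adj x y) :
    dl s(x, y) ∈ sp (EE T (Set.univ : Set P)) := by
  intro e he
  by_cases h1 : e = s(x, y)
  · rw [h1]
    exact ⟨(gph T).mem_edgeSet.2 h, fun _ _ => Set.mem_univ _⟩
  · exact absurd (dl_ne h1) he

theorem add_self2 {ι : Type} (a : ι → ZMod 2) : a + a = 0 := by
  funext i
  rw [Pi.add_apply, Pi.zero_apply]
  exact CharTwo.add_self_eq_zero _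

end XCOC

open XCOC

theorem i_COC (h1 : S_CO1) (h2 : S_PTH) : S_COC := by
  intro P _ T g hT D I hD hI b hb b' hb'
  obtain ⟨hbD, d, hd, hdb⟩ := hb
  obtain ⟨hbD', d', hd', hdb'⟩ := hb'
  obtain ⟨a1, ha1, ha1'⟩ := h2 T D hD.conn.preconnected d hd d' hd'
  obtain ⟨a2, ha2, ha2'⟩ := h2 T Dᶜ hD.cconn.preconnected b hbD b' hbD'
  have hF : ∀ a ∈ Z T (Set.univ : Set P), Fn D I a = 0 := by
    intro a ha
    obtain ⟨z, hz, w, ⟨c, rfl⟩, rfl⟩ := Submodule.mem_sup.1 (hD.hom ha)
    rw [Fn_add, Fn_out hz.1, h1 T g hT D I hI (Fn D I) (fun _ => rfl) c, add_zero]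
  have hmem : dl s(d, b) + dl s(d', b') + a1 + a2 ∈ Z T (Set.univ : Set P) := by
    refine ⟨?_, ?_⟩
    · exact Submodule.add_mem _ (Submodule.add_mem _ (Submodule.add_mem _ (dl_mem hdb)
        (dl_mem hdb')) (sp_mono (EE_mono (Set.subset_univ _)) ha1))
        (sp_mono (EE_mono (Set.subset_univ _)) ha2)
    · show d1 _ = 0
      rw [map_add, map_add, map_add, d1_dl hdb.ne, d1_dl hdb'.ne, ha1', ha2']
      have e1 : dl d + dl b + (dl d' + dl b') + (dl d + dl d') + (dl b + dl b') =
          (dl d + dl d) + (dl b + dl b) + (dl d' + dl d') + (dl b' + dl b') := by abel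
      rw [e1]
      simp only [add_self2, add_zero]
  have h3 := hF _ hmem
  rw [Fn_add, Fn_add, Fn_add, Fn_in ha1, Fn_out ha2, Fn_dl hd hbD, Fn_dl hd' hbD', add_zero,
    add_zero] at h3
  by_cases hi : b ∈ I
  · by_cases hi' : b' ∈ I
    · exact ⟨fun _ => hi', fun _ => hi⟩
    · rw [if_pos hi, if_neg hi', add_zero] at h3
      exact absurd h3 one_ne_zero
  · by_cases hi' : b' ∈ I
    · rw [if_neg hi, if_pos hi', zero_add] at h3
      exact absurd h3 one_ne_zero
    · exact ⟨fun h => absurd h hi, fun h => absurd h hi'⟩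

end Pool.Agent.IM55.SG
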