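import Pool.Agent.Work.MP_55ff09_co.SG.Stmts

/-!
# MP_55ff09_co, block SG, item COV: the strings may be extended so that they cover all points
-/

set_option autoImplicit false

namespace Pool.Agent.IM55.SG

open SimpleGraph Pool.Agent.IM55 Pool.Agent.IM55.PL

namespace XCOV

/-- add one uncovered point to a string -/
theorem step {P V : Type} (T : Finset (Finset P)) (G : SimpleGraph V) (S : V → Set P)
    (hS : Str T G S) (v : V) (x y : P) (hy : y ∈ S v) (hx : ∀ u, x ∉ S u)
    (hxy : (gph T).Adj y x) :
    ∃ S' : V → Set P, Str T G S' ∧ ∀ z, (∃ u, z ∈ S' u) ↔ (z = x ∨ ∃ u, z ∈ S u) := by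
  classical
  refine ⟨Function.update S v (S v ∪ {x}), ⟨?_, ?_⟩, ?_⟩
  · intro u
    by_cases hu : u = v
    · subst hu
      rw [Function.update_self]
      exact conn_union (hS.conn u) (conn_singleton x) ⟨y, hy, x, rfl, Or.inr hxy⟩
    · rw [Function.update_of_ne hu]
      exact hS.conn u
  · intro u w huw
    rw [hS.adj u w huw]
    by_cases hu : u = v
    · subst hu
      rw [Function.update_self, Function.update_of_ne (Ne.symm huw)]
      constructor
      · rintro ⟨z, hz1, hz2⟩
        exact ⟨z, Or.inl hz1, hz2⟩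
      · rintro ⟨z, hz1 | hz1, hz2⟩
        · exact ⟨z, hz1, hz2⟩
        · rw [Set.mem_singleton_iff] at hz1
          subst hz1
          exact absurd hz2 (hx w)
    · by_cases hw : w = v
      · subst hw
        rw [Function.update_self, Function.update_of_ne huw]
        constructor
        · rintro ⟨z, hz1, hz2⟩
          exact ⟨z, hz1, Or.inl hz2⟩
        · rintro ⟨z, hz1, hz2 | hz2⟩
          · exact ⟨z, hz1, hz2⟩
          · rw [Set.mem_singleton_iff] at hz2
            subst hz2
            exact absurd hz1 (hx u)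
      · rw [Function.update_of_ne hu, Function.update_of_ne hw]
  · intro z
    constructor
    · rintro ⟨u, hu⟩
      by_cases huv : u = v
      · subst huv
        rw [Function.update_self] at hu
        rcases hu with hu | hu
        · exact Or.inr ⟨u, hu⟩
        · exact Or.inl hu
      · rw [Function.update_of_ne huv] at hu
        exact Or.inr ⟨u, hu⟩
    · rintro (rfl | ⟨u, hu⟩)
      · refine ⟨v, ?_⟩
        rw [Function.update_self]
        exact Or.inr rfl
      · by_cases huv : u = v
        · subst huv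
          refine ⟨u, ?_⟩
          rw [Function.update_self]
          exact Or.inl hu
        · refine ⟨u, ?_⟩
          rw [Function.update_of_ne huv]
          exact hu

end XCOV

open XCOV in
theorem i_COV : S_COV := by
  classical
  intro P V _ T G S hG hV hS
  generalize hn : {x | ∀ v, x ∉ S v}.ncard = n
  induction n generalizing S with
  | zero =>
    refine ⟨S, hS, ?_⟩
    intro x
    by_contra h
    have h0 : {x | ∀ v, x ∉ S v} = ∅ := (Set.ncard_eq_zero (Set.toFinite _)).1 hn
    have hx : x ∈ {x | ∀ v, x ∉ S v} := fun v hv => h ⟨v, hv⟩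
    rw [h0] at hx
    exact hx
  | succ n ih =>
    obtain ⟨v₀⟩ := hV
    obtain ⟨y₀, hy₀⟩ : (S v₀).Nonempty := by
      obtain ⟨y⟩ := (hS.conn v₀).nonempty
      exact ⟨y.1, y.2⟩
    obtain ⟨x₀, hx₀⟩ : ({x | ∀ v, x ∉ S v} : Set P).Nonempty := by
      rw [← Set.ncard_pos (Set.toFinite _), hn]
      exact Nat.succ_pos n
    obtain ⟨p⟩ := hG.preconnected y₀ x₀
    obtain ⟨d, -, hd1, hd2⟩ := p.exists_boundary_dart {x | ∃ v, x ∈ S v} ⟨v₀, hy₀⟩
      (fun ⟨v, hv⟩ => hx₀ v hv)
    obtain ⟨v, hv⟩ := hd1
    have hd2' : ∀ u, d.snd ∉ S u := fun u hu => hd2 ⟨u, hu⟩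
    obtain ⟨S', hS', hc⟩ := step T G S hS v d.snd d.fst hv hd2' d.adj
    refine ih S' hS' ?_
    have e1 : {x | ∀ v, x ∉ S v} = insert d.snd {x | ∀ v, x ∉ S' v} := by
      ext z
      have h1 := hc z
      constructor
      · intro hz
        by_cases hzd : z = d.snd
        · exact Or.inl hzd
        · refine Or.inr fun u hu => ?_
          rcases h1.1 ⟨u, hu⟩ with h | ⟨w, hw⟩
          · exact hzd h
          · exact hz w hw
      · rintro (hz | hz)
        · rw [hz]
          exact hd2'
        · intro u hu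
          obtain ⟨w, hw⟩ := h1.2 (Or.inr ⟨u, hu⟩)
          exact hz w hw
    have e2 : d.snd ∉ {x | ∀ v, x ∉ S' v} := by
      intro h
      obtain ⟨w, hw⟩ := (hc d.snd).2 (Or.inl rfl)
      exact h w hw
    rw [e1, Set.ncard_insert_of_notMem e2 (Set.toFinite _)] at hn
    omega

end Pool.Agent.IM55.SG
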