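import Pool.Agent.Work.MP_55ff09_co.SG.Stmts

/-!
# MP_55ff09_co, block SG, item CPL: the complement of a component is connected
-/

set_option autoImplicit false

namespace Pool.Agent.IM55.SG

open SimpleGraph Pool.Agent.IM55 Pool.Agent.IM55.PL

theorem i_CPL : S_CPL := by
  intro P G A K hA hK hKA x hx hxK
  obtain ⟨⟨k, hk⟩⟩ := hK.nonempty
  have h := conn_iUnion (ι := {v : P // v ∈ A ∧ v ∉ K ∧ v ∉ cmp G (A \ K) x})
    (fun v => cmp G (A \ K) v.1) hK (fun v => cmp_connected ⟨v.2.1, v.2.2.1⟩) (by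
      rintro ⟨v, hvA, hvK, hvx⟩
      obtain ⟨u, hu, w, hw, h1, h2, h3⟩ := exit_edge hA (fun z => z ∈ cmp G (A \ K) v) hvA
        (mem_cmp_self ⟨hvA, hvK⟩) (hKA hk) (fun h => (cmp_subset h).2 hk)
      have hwK : w ∈ K := by
        by_contra hwK
        exact h2 (cmp_adj h1 ⟨hw, hwK⟩ h3)
      exact ⟨w, hwK, u, h1, Or.inr h3.symm⟩)
  have he : A \ cmp G (A \ K) x =
      K ∪ ⋃ v : {v : P // v ∈ A ∧ v ∉ K ∧ v ∉ cmp G (A \ K) x}, cmp G (A \ K) v.1 := by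
    ext y
    constructor
    · rintro ⟨hyA, hyC⟩
      by_cases hyK : y ∈ K
      · exact Or.inl hyK
      · exact Or.inr (Set.mem_iUnion.2 ⟨⟨y, hyA, hyK, hyC⟩, mem_cmp_self ⟨hyA, hyK⟩⟩)
    · rintro (hy | hy)
      · exact ⟨hKA hy, fun h => (cmp_subset h).2 hy⟩
      · obtain ⟨v, hv⟩ := Set.mem_iUnion.1 hy
        exact ⟨(cmp_subset hv).1, fun h => (cmp_anti v.2.2.2 y hv y h).1 rfl⟩
  rw [he]
  exact h

end Pool.Agent.IM55.SG
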