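import Pool.Agent.Work.MP_55ff09_co.SG.Stmts

/-!
# MP_55ff09_co, block SG, item CRN: the corners of a component
-/

set_option autoImplicit false

namespace Pool.Agent.IM55.SG

open SimpleGraph Pool.Agent.IM55 Pool.Agent.IM55.PL

namespace XCRN

theorem mem_nb {P : Type} {T : Finset (Finset P)} {D : Set P} {t : Finset P} {d b : P}
    (ht : t ∈ T) (hd : d ∈ t) (hb : b ∈ t) (hdD : d ∈ D) (hbD : b ∉ D) : b ∈ nbD T D :=
  ⟨hbD, d, hdD, fun h => hbD (h ▸ hdD), t, ht, hd, hb⟩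

end XCRN

open XCRN in
theorem i_CRN (h1 : S_ABC) : S_CRN := by
  intro P _ T g hT D N D' lam lam' x₁ hD hN hD' hDD' hsub hdis hnb hlN hlD
  have hA := h1 T g hT D D' hD hsub hD' hDD'
  refine le_trans ?_ (Nat.add_le_add_left hA _)
  refine le_trans (Set.ncard_le_ncard ?_ (Set.toFinite _)) (Set.ncard_union_le _ _)
  rintro t ⟨ht, d, hd, b, hb, b', hb', hdD, hbD, hb'D, hne⟩
  rcases hnb b (mem_nb ht hd hb hdD hbD) with h2 | h2
  · rcases hnb b' (mem_nb ht hd hb' hdD hb'D) with h3 | h3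
    · exact absurd ((hlN b h2).trans (hlN b' h3).symm) hne
    · exact Or.inr ⟨ht, ⟨d, hd, hdD⟩, ⟨b, hb, hN h2, hbD⟩, b', hb', h3⟩
  · rcases hnb b' (mem_nb ht hd hb' hdD hb'D) with h3 | h3
    · exact Or.inr ⟨ht, ⟨d, hd, hdD⟩, ⟨b', hb', hN h3, hb'D⟩, b, hb, h2⟩
    · rw [hlD b h2, hlD b' h3] at hne
      exact Or.inl ⟨⟨ht, d, hd, b, hb, b', hb', hsub hdD, h2, h3, hne⟩, d, hd, hdD⟩

end Pool.Agent.IM55.SG
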