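import Pool.Agent.Work.MP_55ff09_co.SG.Stmts

/-!
# MP_55ff09_co, block SG, item CRV: the component touches the complement
-/

set_option autoImplicit false

namespace Pool.Agent.IM55.SG

open SimpleGraph Pool.Agent.IM55 Pool.Agent.IM55.PL

namespace XCRV

theorem walk_touch {P : Type} {G : SimpleGraph P} {U D : Set P} {x : P} :
    ∀ {a z : P} (p : G.Walk a z), (∀ y ∈ p.support, y ∈ U) → a ∈ cmp G (U ∩ D) x → z ∉ D →
      Touch G (cmp G (U ∩ D) x) Dᶜ := by
  intro a z p
  induction p with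
  | nil =>
    intro _ ha hz
    exact absurd (cmp_subset ha).2 hz
  | @cons a b z h q ih =>
    intro hU ha hz
    by_cases hb : b ∈ D
    · refine ih (fun y hy => hU y ?_) (cmp_adj ha ⟨hU b ?_, hb⟩ h) hz
      · rw [Walk.support_cons]
        exact List.mem_cons_of_mem _ hy
      · rw [Walk.support_cons]
        exact List.mem_cons_of_mem _ q.start_mem_support
    · exact ⟨a, ha, b, hb, Or.inr h⟩

end XCRV

open XCRV in
theorem i_CRV : S_CRV := by
  intro P G U D x hU hxU hxD hUD
  obtain ⟨z, hz, hzD⟩ := Set.not_subset.1 hUD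
  obtain ⟨p⟩ := hU.preconnected ⟨x, hxU⟩ ⟨z, hz⟩
  refine walk_touch (p.map (Embedding.induce U).toHom) ?_ (mem_cmp_self ⟨hxU, hxD⟩) hzD
  intro y hy
  have hy' := hy
  erw [Walk.support_map] at hy'
  obtain ⟨w, -, rfl⟩ := List.mem_map.1 hy'
  exact w.2

end Pool.Agent.IM55.SG
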