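import Pool.Agent.Work.MP_55ff09_co.SG.Stmts

/-!
# MP_55ff09_co, block SG, item CST
-/

set_option autoImplicit false

namespace Pool.Agent.IM55.SG

open SimpleGraph Pool.Agent.IM55 Pool.Agent.IM55.PL

theorem i_CST (h1 : S_LNK) : S_CST := by
  intro P _ T g hT c A hA hz s hs t ht hxs hyt
  obtain ⟨x, hxs, hxA⟩ := hxs
  obtain ⟨y, hyt, hyA⟩ := hyt
  have hr : ((gph T).induce A).Reachable ⟨x, hxA⟩ ⟨y, hyA⟩ := hA _ _
  rw [SimpleGraph.reachable_iff_reflTransGen] at hr
  have key : ∀ z : A, Relation.ReflTransGen ((gph T).induce A).Adj ⟨x, hxA⟩ z →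
      ∀ u ∈ T, (z : P) ∈ u → c s = c u := by
    intro z hz'
    induction hz' with
    | refl =>
      intro u hu hxu
      exact h1 T g hT c x (hz x hxA) s hs u hu hxs hxu
    | tail hab hbc ih =>
      rename_i b d
      intro u hu hdu
      have hadj : (gph T).Adj (b : P) (d : P) := hbc
      obtain ⟨-, v, hv, hbv, hdv⟩ := hadj
      rw [ih v hv hbv]
      exact h1 T g hT c d (hz d d.2) v hv u hu hdv hdu
  exact key _ hr t ht hyt

end Pool.Agent.IM55.SG
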