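import Pool.Agent.Work.MP_55ff09_co.SG.Stmts

/-!
# MP_55ff09_co, block SG, item CUT: a good cut
-/

set_option autoImplicit false

namespace Pool.Agent.IM55.SG

open SimpleGraph Pool.Agent.IM55 Pool.Agent.IM55.PL

namespace XCUT

variable {P V : Type}

/-- union bound for the number of strings meeting `nn Pi D t` -/
theorem card_nn [Finite V] (Pi : P → Set P) (D : Set P) (S : V → Set P) (Q : Set V)
    (m : ℕ) (h : ∀ x ∈ D, {v | v ∈ Q ∧ (S v ∩ Pi x).Nonempty}.ncard ≤ m) (t : Finset P) :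
    {v | v ∈ Q ∧ (S v ∩ nn Pi D ↑t).Nonempty}.ncard ≤ t.card * m := by
  classical
  induction t using Finset.induction_on with
  | empty =>
    have e : {v | v ∈ Q ∧ (S v ∩ nn Pi D ↑(∅ : Finset P)).Nonempty} = ∅ := by
      ext v
      constructor
      · rintro ⟨-, z, -, x, hx, -⟩
        simp at hx
      · exact fun h => h.elim
    rw [e]
    simp
  | insert x t hx ih =>
    have e : {v | v ∈ Q ∧ (S v ∩ nn Pi D ↑(insert x t)).Nonempty} ⊆
        {v | x ∈ D ∧ v ∈ Q ∧ (S v ∩ Pi x).Nonempty} ∪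
          {v | v ∈ Q ∧ (S v ∩ nn Pi D ↑t).Nonempty} := by
      rintro v ⟨hv, z, hz, y, hy, hyD, hzy⟩
      rw [Finset.mem_coe, Finset.mem_insert] at hy
      rcases hy with rfl | hy
      · exact Or.inl ⟨hyD, hv, z, hz, hzy⟩
      · exact Or.inr ⟨hv, z, hz, y, hy, hyD, hzy⟩
    have h1 : {v | x ∈ D ∧ v ∈ Q ∧ (S v ∩ Pi x).Nonempty}.ncard ≤ m := by
      by_cases hD : x ∈ D
      · exact (Set.ncard_le_ncard (fun v hv => hv.2) (Set.toFinite _)).trans (h x hD)
      · have e0 : {v | x ∈ D ∧ v ∈ Q ∧ (S v ∩ Pi x).Nonempty} = ∅ := by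
          ext v
          exact ⟨fun hv => (hD hv.1).elim, fun hv => hv.elim⟩
        rw [e0]
        simp
    refine (Set.ncard_le_ncard e (Set.toFinite _)).trans ((Set.ncard_union_le _ _).trans ?_)
    rw [Finset.card_insert_of_notMem hx, Nat.add_mul, one_mul, add_comm]
    exact Nat.add_le_add ih h1

/-- the curves of the points of a triangle form a connected set -/
theorem conn_nn (T : Finset (Finset P)) (Pi : P → Set P) (D : Set P)
    (h1 : ∀ x ∈ D, x ∈ Pi x) (h2 : ∀ x ∈ D, ((gph T).induce (Pi x)).Connected) (t : Finset P)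
    (ht : t ∈ T) (hD : ∃ x ∈ t, x ∈ D) : ((gph T).induce (nn Pi D ↑t)).Connected := by
  obtain ⟨x, hx, hxD⟩ := hD
  have e : nn Pi D ↑t = Pi x ∪ ⋃ i : {y // y ∈ t ∧ y ∈ D}, Pi i := by
    ext z
    constructor
    · rintro ⟨y, hy, hyD, hz⟩
      exact Or.inr (Set.mem_iUnion.2 ⟨⟨y, hy, hyD⟩, hz⟩)
    · rintro (hz | hz)
      · exact ⟨x, hx, hxD, hz⟩
      · obtain ⟨⟨y, hy, hyD⟩, hz⟩ := Set.mem_iUnion.1 hz
        exact ⟨y, hy, hyD, hz⟩
  rw [e]
  refine conn_iUnion (fun i : {y // y ∈ t ∧ y ∈ D} => Pi i) (h2 x hxD) (fun i => h2 _ i.2.2)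
    fun i => ?_
  refine ⟨x, h1 x hxD, i, h1 _ i.2.2, ?_⟩
  by_cases hxi : x = i
  · exact Or.inl hxi
  · exact Or.inr ⟨hxi, t, ht, hx, i.2.1⟩

/-- a corner has only one point in the region -/
theorem cor_unique [Fintype P] {T : Finset (Finset P)} {g : ℕ} (hT : Surf T g) {D : Set P}
    {lam : P → P} {t : Finset P} (ht : t ∈ Cor T D lam) {x y : P} (hx : x ∈ t) (hxD : x ∈ D)
    (hy : y ∈ t) (hyD : y ∈ D) : x = y := by
  classical
  obtain ⟨htT, d, hd, b, hb, b', hb', hdD, hbD, hbD', hl⟩ := ht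
  have hbb : b ≠ b' := fun h => hl (by rw [h])
  by_contra hxy
  have h1 : x ≠ b := fun h => hbD (h ▸ hxD)
  have h2 : x ≠ b' := fun h => hbD' (h ▸ hxD)
  have h3 : y ≠ b := fun h => hbD (h ▸ hyD)
  have h4 : y ≠ b' := fun h => hbD' (h ▸ hyD)
  have h5 : ({x, y, b, b'} : Finset P) ⊆ t := by
    intro z hz
    simp only [Finset.mem_insert, Finset.mem_singleton] at hz
    rcases hz with rfl | rfl | rfl | rfl <;> assumption
  have h6 : ({x, y, b, b'} : Finset P).card = 4 := by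
    rw [Finset.card_insert_of_notMem, Finset.card_insert_of_notMem,
      Finset.card_insert_of_notMem, Finset.card_singleton]
    · simpa using hbb
    · simp only [Finset.mem_insert, Finset.mem_singleton]
      tauto
    · simp only [Finset.mem_insert, Finset.mem_singleton]
      tauto
  have h7 := Finset.card_le_card h5
  rw [h6, hT.card t htT] at h7
  omega

end XCUT

theorem i_CUT (h1 : S_ADP) (h2 : S_SEP) : S_CUT := by
  classical
  intro P V _ _ T g Δ G S r p ly hT hS hc hB hG D lam hD hr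
  have hA : ∀ x, ∃ A : Set P, x ∈ D → Crv T S ly Δ D x A := by
    intro x
    by_cases hx : x ∈ D
    · obtain ⟨A, hA⟩ := h1 T Δ G S r p ly hS hc hB hG D hr x hx
      exact ⟨A, fun _ => hA⟩
    · exact ⟨∅, fun h => (hx h).elim⟩
  choose Pi hPi using hA
  obtain ⟨⟨x₀, hx₀⟩⟩ := hD.conn.nonempty
  obtain ⟨pos, hpos⟩ : ∃ pos : Finset P → P, ∀ t, (∃ d ∈ t, d ∈ D) → pos t ∈ t ∧ pos t ∈ D := by
    have : ∀ t : Finset P, ∃ y, (∃ d ∈ t, d ∈ D) → y ∈ t ∧ y ∈ D := by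
      intro t
      by_cases h : ∃ d ∈ t, d ∈ D
      · obtain ⟨d, hd⟩ := h
        exact ⟨d, fun _ => hd⟩
      · exact ⟨x₀, fun h' => (h h').elim⟩
    choose pos hpos using this
    exact ⟨pos, hpos⟩
  have hfin : (Cor T D lam).Finite := Set.toFinite _
  obtain ⟨t, htT, htD, hh⟩ := h2 T g hT D hD Pi
    (fun x hx => ⟨(hPi x hx).sub, (hPi x hx).self, (hPi x hx).conn, (hPi x hx).touch⟩)
    hfin.toFinset pos (by
      intro s hs
      obtain ⟨-, d, hd, b, hb, b', hb', hdD, -⟩ := hfin.mem_toFinset.1 hs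
      exact (hpos s ⟨d, hd, hdD⟩).2)
  obtain ⟨x, hx, hxD⟩ := htD
  refine ⟨nn Pi D ↑t, ?_, ?_, ?_, ?_, ?_, ?_⟩
  · rintro z ⟨y, -, hy, hz⟩
    exact (hPi y hy).sub hz
  · exact XCUT.conn_nn T Pi D (fun y hy => (hPi y hy).self) (fun y hy => (hPi y hy).conn) t htT
      ⟨x, hx, hxD⟩
  · exact (hPi x hxD).touch.mono (fun z hz => ⟨x, hx, hxD, hz⟩) (fun z hz => hz)
  · intro j
    have h3 := XCUT.card_nn Pi D S {v | S v ⊆ D ∧ ly v = j} (4 * (Δ + 1)) (by
      intro y hy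
      refine le_trans (Set.ncard_le_ncard ?_ (Set.toFinite _)) ((hPi y hy).wid j)
      rintro v ⟨⟨hv1, hv2⟩, hv3⟩
      exact ⟨hv1, hv3, hv2⟩) t
    rw [hT.card t htT] at h3
    refine le_trans (Set.ncard_le_ncard ?_ (Set.toFinite _)) (h3.trans (by omega))
    rintro v ⟨hv1, hv2, hv3⟩
    exact ⟨⟨hv1, hv3⟩, hv2⟩
  · have h3 := XCUT.card_nn Pi D S {v | ¬ S v ⊆ D} (2 * (Δ + 1))
      (fun y hy => (hPi y hy).old) t
    rw [hT.card t htT] at h3
    exact h3.trans (by omega)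
  · intro y hy hyN
    have h3 := hh y hy hyN
    rw [Set.ncard_eq_toFinset_card _ hfin]
    refine le_trans (Nat.mul_le_mul_left 2 (Set.ncard_le_ncard ?_ (Set.toFinite _))) h3
    rintro s ⟨hs, d, hd, hdc⟩
    refine ⟨hfin.mem_toFinset.2 hs, ?_⟩
    have hdD : d ∈ D := (cmp_subset hdc).1
    have h4 := hpos s ⟨d, hd, hdD⟩
    rw [XCUT.cor_unique hT hs h4.1 h4.2 hd hdD]
    exact hdc

end Pool.Agent.IM55.SG
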