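import Pool.Agent.Work.MP_55ff09_co.SG.Stmts

/-!
# MP_55ff09_co, block SG: DBL
-/

set_option autoImplicit false

namespace Pool.Agent.IM55.SG

open SimpleGraph Pool.Agent.IM55 Pool.Agent.IM55.PL

namespace XDBL

variable {P : Type}

open Classical in
/-- the sum of `b` over the edges of a triangle -/
theorem tri_sum [Fintype P] (T : Finset (Finset P)) (t : Finset P) (ht : t ∈ T) (x y z : P)
    (hxy : x ≠ y) (hyz : y ≠ z) (hxz : x ≠ z) (he : t = {x, y, z}) (b : Sym2 P → ZMod 2) :
    ∑ e ∈ Finset.univ.filter (fun e : Sym2 P => e ∈ (gph T).edgeSet ∧ ∀ w ∈ e, w ∈ t), b e =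
      b s(x, y) + b s(y, z) + b s(x, z) := by
  have hx : x ∈ t := by rw [he]; simp
  have hy : y ∈ t := by rw [he]; simp
  have hz : z ∈ t := by rw [he]; simp
  have hmem : ∀ w, w ∈ t → w = x ∨ w = y ∨ w = z := by
    intro w hw
    rw [he] at hw
    simpa using hw
  have hF : Finset.univ.filter (fun e : Sym2 P => e ∈ (gph T).edgeSet ∧ ∀ w ∈ e, w ∈ t) =
      {s(x, y), s(y, z), s(x, z)} := by
    ext e
    induction e using Sym2.ind with
    | _ p q =>
      simp only [Finset.mem_filter, Finset.mem_univ, true_and, Finset.mem_insert,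
        Finset.mem_singleton, SimpleGraph.mem_edgeSet]
      constructor
      · rintro ⟨hadj, hin⟩
        have hpq : p ≠ q := hadj.1
        have hp := hmem p (hin p (Sym2.mem_mk_left p q))
        have hq := hmem q (hin q (Sym2.mem_mk_right p q))
        rcases hp with rfl | rfl | rfl <;> rcases hq with rfl | rfl | rfl
        · exact absurd rfl hpq
        · exact Or.inl rfl
        · exact Or.inr (Or.inr rfl)
        · exact Or.inl Sym2.eq_swap
        · exact absurd rfl hpq
        · exact Or.inr (Or.inl rfl)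
        · exact Or.inr (Or.inr Sym2.eq_swap)
        · exact Or.inr (Or.inl Sym2.eq_swap)
        · exact absurd rfl hpq
      · have aux : ∀ u v : P, u ∈ t → v ∈ t → u ≠ v → s(p, q) = s(u, v) →
            (gph T).Adj p q ∧ ∀ w ∈ s(p, q), w ∈ t := by
          intro u v hu hv huv h
          have hadj : (gph T).Adj u v := ⟨huv, t, ht, hu, hv⟩
          refine ⟨?_, ?_⟩
          · rw [← SimpleGraph.mem_edgeSet, h, SimpleGraph.mem_edgeSet]
            exact hadj
          · intro w hw
            rw [h, Sym2.mem_iff] at hw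
            rcases hw with rfl | rfl
            · exact hu
            · exact hv
        rintro (h | h | h)
        · exact aux x y hx hy hxy h
        · exact aux y z hy hz hyz h
        · exact aux x z hx hz hxz h
  rw [hF, Finset.sum_insert, Finset.sum_insert, Finset.sum_singleton, ← add_assoc]
  · rw [Finset.mem_singleton, Sym2.eq_iff]
    rintro (⟨h1, h2⟩ | ⟨h1, h2⟩)
    · exact hxy h1.symm
    · exact hyz h1
  · rw [Finset.mem_insert, Finset.mem_singleton, Sym2.eq_iff, Sym2.eq_iff]
    rintro ((⟨h1, h2⟩ | ⟨h1, h2⟩) | (⟨h1, h2⟩ | ⟨h1, h2⟩))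
    · exact hxy h1
    · exact hxz h1
    · exact hyz h2
    · exact hxz h1

end XDBL

open Classical in
theorem i_DBL : S_DBL := by
  intro P _ T g hS b h hh
  have h1 : ∀ t ∈ T, h t =
      ∑ e ∈ Finset.univ.filter (fun e : Sym2 P => e ∈ (gph T).edgeSet ∧ ∀ w ∈ e, w ∈ t), b e := by
    intro t ht
    obtain ⟨x, y, z, hxy, hxz, hyz, he⟩ := Finset.card_eq_three.1 (hS.card t ht)
    rw [XDBL.tri_sum T t ht x y z hxy hyz hxz he b]
    apply hh t ht x _ y _ z _ hxy hyz hxz
    · rw [he]; simp
    · rw [he]; simp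
    · rw [he]; simp
  rw [Finset.sum_congr rfl h1]
  have h2 : ∀ t ∈ T,
      ∑ e ∈ Finset.univ.filter (fun e : Sym2 P => e ∈ (gph T).edgeSet ∧ ∀ w ∈ e, w ∈ t), b e =
      ∑ e : Sym2 P, if e ∈ (gph T).edgeSet ∧ ∀ w ∈ e, w ∈ t then b e else 0 := by
    intro t _
    rw [Finset.sum_filter]
  rw [Finset.sum_congr rfl h2, Finset.sum_comm]
  apply Finset.sum_eq_zero
  intro e _
  by_cases he : e ∈ (gph T).edgeSet
  · induction e using Sym2.ind with
    | _ p q =>
      have hadj : (gph T).Adj p q := he
      have hc := hS.two p q hadj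
      have hset : {t | t ∈ T ∧ p ∈ t ∧ q ∈ t} =
          ((T.filter (fun t => p ∈ t ∧ q ∈ t) : Finset (Finset P)) : Set (Finset P)) := by
        ext t
        simp
      rw [hset, Set.ncard_coe_finset] at hc
      have e1 : ∀ t ∈ T, (if s(p, q) ∈ (gph T).edgeSet ∧ ∀ w ∈ s(p, q), w ∈ t then b s(p, q)
          else 0) = if p ∈ t ∧ q ∈ t then b s(p, q) else 0 := by
        intro t _
        have : (s(p, q) ∈ (gph T).edgeSet ∧ ∀ w ∈ s(p, q), w ∈ t) ↔ (p ∈ t ∧ q ∈ t) := by
          constructor
          · rintro ⟨_, hw⟩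
            exact ⟨hw p (Sym2.mem_mk_left p q), hw q (Sym2.mem_mk_right p q)⟩
          · rintro ⟨hp, hq⟩
            refine ⟨he, ?_⟩
            intro w hw
            rw [Sym2.mem_iff] at hw
            rcases hw with rfl | rfl
            · exact hp
            · exact hq
        simp only [this]
      rw [Finset.sum_congr rfl e1, ← Finset.sum_filter, Finset.sum_const, hc]
      rw [two_nsmul]
      exact CharTwo.add_self_eq_zero _
  · apply Finset.sum_eq_zero
    intro t _
    rw [if_neg]
    rintro ⟨h, _⟩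
    exact he h

end Pool.Agent.IM55.SG
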