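import Pool.Agent.Work.MP_55ff09_co.SG.Stmts

set_option autoImplicit false

namespace Pool.Agent.IM55.SG

open SimpleGraph Pool.Agent.IM55 Pool.Agent.IM55.PL

open Classical in
/-- DD: the boundary of a boundary is zero -/
theorem i_DD : S_DD := by
  intro P _ T g hS c
  funext x
  have h1 : ∀ y : P, d2 T c s(x, y) =
      ∑ t ∈ T, if (x ∈ t ∧ y ∈ t.erase x) then c t else 0 := by
    intro y
    by_cases h : s(x, y) ∈ (gph T).edgeSet
    · have hne : x ≠ y := ((SimpleGraph.mem_edgeSet _).1 h).ne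
      simp only [d2, LinearMap.coe_mk, AddHom.coe_mk, if_pos h]
      rw [Finset.sum_filter]
      refine Finset.sum_congr rfl fun t _ => ?_
      have : (∀ z ∈ s(x, y), z ∈ t) ↔ (x ∈ t ∧ y ∈ t.erase x) := by
        simp only [Sym2.mem_iff, forall_eq_or_imp, forall_eq, Finset.mem_erase]
        constructor
        · rintro ⟨a, b⟩
          exact ⟨a, hne.symm, b⟩
        · rintro ⟨a, -, b⟩
          exact ⟨a, b⟩
      by_cases h2 : (x ∈ t ∧ y ∈ t.erase x)
      · rw [if_pos (this.2 h2), if_pos h2]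
      · rw [if_neg (fun h3 => h2 (this.1 h3)), if_neg h2]
    · have hd : d2 T c s(x, y) = 0 := if_neg h
      rw [hd]
      symm
      refine Finset.sum_eq_zero fun t ht => if_neg ?_
      rintro ⟨ha, hb⟩
      rw [Finset.mem_erase] at hb
      exact h ((SimpleGraph.mem_edgeSet _).2 ⟨hb.1.symm, t, ht, ha, hb.2⟩)
  have h2 : d1 (d2 T c) x = ∑ y, d2 T c s(x, y) := rfl
  rw [h2, Finset.sum_congr rfl fun y _ => h1 y, Finset.sum_comm]
  refine Finset.sum_eq_zero fun t ht => ?_
  by_cases hx : x ∈ t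
  · have h3 : (∑ y, if (x ∈ t ∧ y ∈ t.erase x) then c t else 0) = ∑ y ∈ t.erase x, c t := by
      rw [← Finset.sum_filter]
      refine Finset.sum_congr ?_ fun _ _ => rfl
      ext y
      simp [hx]
    rw [h3, Finset.sum_const, Finset.card_erase_of_mem hx, hS.card t ht]
    have h4 : ((3 - 1 : ℕ)) • c t = (2 : ZMod 2) * c t := by
      rw [nsmul_eq_mul]
      rfl
    rw [h4]
    have h5 : (2 : ZMod 2) = 0 := by decide
    rw [h5, zero_mul]
  · refine Finset.sum_eq_zero fun y _ => if_neg fun h => hx h.1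

end Pool.Agent.IM55.SG
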