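import Pool.Agent.Work.MP_55ff09_co.SG.Stmts

/-!
# MP_55ff09_co, block SG, item DM0
-/

set_option autoImplicit false

namespace Pool.Agent.IM55.SG

namespace XDM0

open Classical in
/-- functions supported on `X` are functions on `X` -/
noncomputable def eqv {ι : Type} (X : Set ι) : sp X ≃ₗ[ZMod 2] (X → ZMod 2) where
  toFun a := fun x => a.1 x.1
  map_add' a b := rfl
  map_smul' c a := rfl
  invFun f := ⟨fun i => if h : i ∈ X then f ⟨i, h⟩ else 0, by
    intro i hi
    by_contra h
    exact hi (dif_neg h)⟩
  left_inv a := by
    apply Subtype.ext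
    funext i
    by_cases h : i ∈ X
    · exact dif_pos h
    · have h0 : a.1 i = 0 := by
        by_contra h1
        exact h (a.2 i h1)
      exact (dif_neg h).trans h0.symm
  right_inv f := by
    funext x
    exact dif_pos x.2

end XDM0

theorem i_DM0 : S_DM0 := by
  intro ι _ X
  classical
  have : Fintype X := Fintype.ofFinite X
  rw [LinearEquiv.finrank_eq (XDM0.eqv X), Module.finrank_fintype_fun_eq_card,
    ← Nat.card_eq_fintype_card]
  rfl

end Pool.Agent.IM55.SG
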