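import Pool.Agent.Work.MP_55ff09_co.SG.Stmts

/-!
# MP_55ff09_co, block SG, item DM1: the image of `d1` on a connected set
-/

set_option autoImplicit false

namespace Pool.Agent.IM55.SG

open SimpleGraph Pool.Agent.IM55 Pool.Agent.IM55.PL

namespace XDM1

/-- the sum over ordered pairs of a symmetric function with zero diagonal is 0 mod 2 -/
theorem sum_symm {P : Type} [Fintype P] (g : P → P → ZMod 2) (hs : ∀ x y, g x y = g y x)
    (hd : ∀ x, g x x = 0) : ∑ x, ∑ y, g x y = 0 := by
  classical
  rw [← Finset.sum_product']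
  refine Finset.sum_involution (fun p _ => (p.2, p.1)) ?_ ?_ ?_ ?_
  · intro p _
    show g p.1 p.2 + g p.2 p.1 = 0
    rw [hs p.2 p.1]
    exact CharTwo.add_self_eq_zero _
  · intro p _ hp h
    apply hp
    have h1 : p.2 = p.1 := congrArg Prod.fst h
    rw [h1]
    exact hd _
  · intro p _
    simp
  · intro p _
    rfl

theorem decomp {P : Type} [Fintype P] (f : P → ZMod 2) : f = ∑ x, f x • (dl x : P → ZMod 2) := by
  classical
  funext y
  rw [Finset.sum_apply, Finset.sum_eq_single y]
  · simp [dl]
  · intro x _ hx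
    simp [dl, Ne.symm hx]
  · intro h
    exact absurd (Finset.mem_univ _) h

end XDM1

open XDM1 in
theorem i_DM1 (h1 : S_PTH) : S_DM1 := by
  classical
  intro P _ T A hA f
  constructor
  · rintro ⟨hf, hsum⟩
    rcases A.eq_empty_or_nonempty with rfl | ⟨x₀, hx₀⟩
    · refine ⟨0, Submodule.zero_mem _, ?_⟩
      rw [map_zero]
      funext x
      by_contra hx
      exact absurd (hf x (fun h => hx h.symm)) (Set.notMem_empty x)
    · have hex : ∀ x : P, ∃ a ∈ sp (EE T A), x ∈ A → d1 a = dl x + dl x₀ := by
        intro x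
        by_cases hx : x ∈ A
        · obtain ⟨a, ha, hda⟩ := h1 T A hA x hx x₀ hx₀
          exact ⟨a, ha, fun _ => hda⟩
        · exact ⟨0, Submodule.zero_mem _, fun h => absurd h hx⟩
      choose a ha hda using hex
      refine ⟨∑ x, f x • a x, Submodule.sum_mem _ fun x _ => Submodule.smul_mem _ _ (ha x), ?_⟩
      rw [map_sum]
      have e1 : ∀ x, d1 (f x • a x) = f x • (dl x : P → ZMod 2) + f x • (dl x₀ : P → ZMod 2) := by
        intro x
        rw [map_smul]
        by_cases hx : x ∈ A
        · rw [hda x hx, smul_add]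
        · have h0 : f x = 0 := by
            by_contra h
            exact hx (hf x h)
          rw [h0, zero_smul, zero_smul, zero_smul, add_zero]
      rw [Finset.sum_congr rfl fun x _ => e1 x, Finset.sum_add_distrib, ← Finset.sum_smul, hsum,
        zero_smul, add_zero, ← decomp]
  · rintro ⟨a, ha, rfl⟩
    refine ⟨?_, ?_⟩
    · intro x hx
      have hx' : ∑ y, a s(x, y) ≠ 0 := hx
      obtain ⟨y, -, hy⟩ := Finset.exists_ne_zero_of_sum_ne_zero hx'
      exact (ha _ hy).2 x (Sym2.mem_mk_left x y)
    · show ∑ x, ∑ y, a s(x, y) = 0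
      refine sum_symm (fun x y => a s(x, y)) (fun x y => by rw [Sym2.eq_swap]) fun x => ?_
      by_contra hx
      have h2 := (ha _ hx).1
      rw [SimpleGraph.mem_edgeSet] at h2
      exact (gph T).loopless.irrefl x h2

end Pool.Agent.IM55.SG
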