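import Pool.Agent.Work.MP_55ff09_co.SG.Stmts

/-!
# MP_55ff09_co, block SG: item DM2, dimension of the space of functions with sum 0
-/

set_option autoImplicit false

namespace Pool.Agent.IM55.SG

open SimpleGraph Pool.Agent.IM55 Pool.Agent.IM55.PL

namespace XDM2

/-- The sum of the values. -/
def sm (P : Type) [Fintype P] : (P → ZMod 2) →ₗ[ZMod 2] ZMod 2 where
  toFun f := ∑ x, f x
  map_add' f g := by simp [Finset.sum_add_distrib]
  map_smul' c f := by simp [Finset.mul_sum]

theorem sm_apply (P : Type) [Fintype P] (f : P → ZMod 2) : sm P f = ∑ x, f x := rfl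

end XDM2

open XDM2

theorem i_DM2 (h1 : S_DM0) : S_DM2 := by
  intro P _ A E hA hE
  classical
  set φ : sp A →ₗ[ZMod 2] ZMod 2 := (sm P).comp (sp A).subtype with hφ
  have hE' : E = (LinearMap.ker φ).map (sp A).subtype := by
    ext f
    rw [hE f, Submodule.mem_map]
    constructor
    · rintro ⟨hf, hs⟩
      exact ⟨⟨f, hf⟩, by rw [LinearMap.mem_ker]; exact hs, rfl⟩
    · rintro ⟨⟨g, hg⟩, hk, rfl⟩
      rw [LinearMap.mem_ker] at hk
      exact ⟨hg, hk⟩
  obtain ⟨a, ha⟩ := hA
  have hsurj : LinearMap.range φ = ⊤ := by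
    rw [LinearMap.range_eq_top]
    intro c
    refine ⟨⟨fun j => if j = a then c else 0, ?_⟩, ?_⟩
    · intro i hi
      by_contra hia
      refine hi ?_
      have : i ≠ a := fun h => hia (h ▸ ha)
      simp [this]
    · show ∑ x, (if x = a then c else 0) = c
      simp
  have hrn := LinearMap.finrank_range_add_finrank_ker φ
  rw [hsurj, finrank_top, Module.finrank_self, h1 A] at hrn
  rw [hE', Submodule.finrank_map_subtype_eq]
  omega

end Pool.Agent.IM55.SG
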