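import Pool.Agent.Work.MP_55ff09_co.SG.Stmts

/-!
# MP_55ff09_co, block SG, item DMZ: dimension of the cycle space of a connected set
-/

set_option autoImplicit false

namespace Pool.Agent.IM55.SG

open SimpleGraph Pool.Agent.IM55 Pool.Agent.IM55.PL

theorem i_DMZ (h1 : S_DM0) (h2 : S_DM1) (h3 : S_DM2) : S_DMZ := by
  intro P _ T A hA
  have hne : A.Nonempty := by
    obtain ⟨x⟩ := hA.nonempty
    exact ⟨x.1, x.2⟩
  have hr := LinearMap.finrank_range_add_finrank_ker ((d1 (P := P)).domRestrict (sp (EE T A)))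
  rw [h1 (EE T A)] at hr
  have hE := h3 A (LinearMap.range ((d1 (P := P)).domRestrict (sp (EE T A)))) hne (by
    intro f
    rw [h2 T A hA.preconnected f, LinearMap.mem_range]
    constructor
    · rintro ⟨⟨a, ha⟩, h⟩
      exact ⟨a, ha, h⟩
    · rintro ⟨a, ha, h⟩
      exact ⟨⟨a, ha⟩, h⟩)
  have hk : Module.finrank (ZMod 2) (LinearMap.ker ((d1 (P := P)).domRestrict (sp (EE T A)))) =
      Module.finrank (ZMod 2) (Z T A) := by
    have e1 : LinearMap.ker ((d1 (P := P)).domRestrict (sp (EE T A))) =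
        Submodule.comap (sp (EE T A)).subtype (LinearMap.ker (d1 (P := P))) := by
      ext x
      simp [LinearMap.mem_ker, Submodule.mem_comap]
    rw [e1, Z, ← Submodule.map_comap_subtype,
      Submodule.finrank_map_subtype_eq]
  omega

end Pool.Agent.IM55.SG
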