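import Pool.Agent.Work.MP_55ff09_co.SG.Stmts

/-!
# MP_55ff09_co, block SG, item EXF: extraction of `g` vectors
-/

set_option autoImplicit false

namespace Pool.Agent.IM55.SG

namespace XEXF

variable {K M : Type} [Field K] [AddCommGroup M] [Module K M] [Module.Finite K M]

lemma rank_quot (B Y : Submodule K M) (h : B ≤ Y) :
    Module.finrank K (Y.map B.mkQ) + Module.finrank K B = Module.finrank K Y := by
  have h1 := LinearMap.finrank_range_add_finrank_ker (B.mkQ.comp Y.subtype)
  rw [LinearMap.range_comp, Submodule.range_subtype, LinearMap.ker_comp, Submodule.ker_mkQ,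
    LinearEquiv.finrank_eq (Submodule.comapSubtypeEquivOfLe h)] at h1
  exact h1

end XEXF

open XEXF in
theorem i_EXF : S_EXF := by
  classical
  intro K M _ _ _ _ B Y s g hsY hBY hY hr
  obtain ⟨b, hbs, hspan, hli⟩ := exists_linearIndependent K (B.mkQ '' s)
  have hfin : b.Finite := hli.setFinite
  have hft : Fintype b := hfin.fintype
  have hle : Submodule.span K b ≤ Y.map B.mkQ := by
    rw [Submodule.span_le]
    intro y hy
    obtain ⟨x, hx, hxy⟩ := hbs hy
    exact ⟨x, hsY hx, hxy⟩
  have hcard : b.toFinset.card ≤ g := by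
    have h1 := finrank_span_set_eq_card hli
    have h2 := Submodule.finrank_mono hle
    have h3 := rank_quot B Y hBY
    omega
  have hch : ∀ y : b, ∃ x ∈ s, B.mkQ x = y := fun y => by
    obtain ⟨x, hx, hxy⟩ := hbs y.2
    exact ⟨x, hx, hxy⟩
  choose f hfs hf using hch
  refine ⟨Finset.univ.image f, ?_, ?_, ?_⟩
  · intro x hx
    rw [Finset.mem_coe, Finset.mem_image] at hx
    obtain ⟨y, -, rfl⟩ := hx
    exact hfs y
  · refine le_trans Finset.card_image_le ?_
    rw [Finset.card_univ, ← Set.toFinset_card]
    exact hcard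
  · intro x hx
    have h1 : B.mkQ x ∈ Submodule.span K b := by
      rw [hspan]
      have h2 := hY hx
      rw [Submodule.mem_sup] at h2
      obtain ⟨u, hu, w, hw, rfl⟩ := h2
      rw [map_add]
      have h3 : B.mkQ w = 0 := by
        rw [Submodule.mkQ_apply, Submodule.Quotient.mk_eq_zero]
        exact hw
      rw [h3, add_zero, ← Submodule.map_span]
      exact Submodule.mem_map_of_mem hu
    have h4 : Submodule.span K b ≤
        (Submodule.span K (↑(Finset.univ.image f) : Set M)).map B.mkQ := by
      rw [Submodule.span_le]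
      intro y hy
      refine ⟨f ⟨y, hy⟩, ?_, hf ⟨y, hy⟩⟩
      apply Submodule.subset_span
      rw [Finset.mem_coe]
      exact Finset.mem_image_of_mem f (Finset.mem_univ _)
    obtain ⟨z, hz, hzx⟩ := h4 h1
    have h5 : x - z ∈ B := by
      rw [← Submodule.Quotient.mk_eq_zero B, Submodule.Quotient.mk_sub, sub_eq_zero]
      exact hzx.symm
    rw [Submodule.mem_sup]
    exact ⟨z, hz, x - z, h5, by abel⟩

end Pool.Agent.IM55.SG
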