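import Pool.Agent.Work.MP_55ff09_co.SG.Stmts

/-!
# MP_55ff09_co, block SG, item FIL
-/

set_option autoImplicit false

namespace Pool.Agent.IM55.SG

namespace XFIL

variable {P : Type}

open Classical in
/-- the indicator of `T` -/
noncomputable def ind (T : Finset (Finset P)) : Finset P → ZMod 2 := fun t => if t ∈ T then 1 else 0

theorem ind_mem (T : Finset (Finset P)) : ind T ∈ sp (↑T : Set (Finset P)) := by
  intro t ht
  by_contra h
  exact ht (if_neg (fun h' => h (Finset.mem_coe.mpr h')))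

theorem ind_eq (T : Finset (Finset P)) (t : Finset P) (ht : t ∈ T) : ind T t = 1 := if_pos ht

theorem d2_congr (T : Finset (Finset P)) (c c' : Finset P → ZMod 2) (h : ∀ t ∈ T, c t = c' t) :
    d2 T c = d2 T c' := by
  classical
  funext e
  change (if e ∈ (gph T).edgeSet then ∑ t ∈ T with ∀ x ∈ e, x ∈ t, c t else 0) =
    (if e ∈ (gph T).edgeSet then ∑ t ∈ T with ∀ x ∈ e, x ∈ t, c' t else 0)
  by_cases he : e ∈ (gph T).edgeSet
  · rw [if_pos he, if_pos he]
    exact Finset.sum_congr rfl fun t ht => h t (Finset.mem_filter.mp ht).1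
  · rw [if_neg he, if_neg he]

theorem d2_ind (T : Finset (Finset P)) (g : ℕ) (hT : Surf T g) : d2 T (ind T) = 0 := by
  classical
  funext e
  change (if e ∈ (gph T).edgeSet then ∑ t ∈ T with ∀ x ∈ e, x ∈ t, ind T t else 0) = 0
  by_cases he : e ∈ (gph T).edgeSet
  · rw [if_pos he]
    induction e using Sym2.ind with
    | _ x y =>
      have hadj : (gph T).Adj x y := he
      have h2 := hT.two x y hadj
      have hs : {t | t ∈ T ∧ x ∈ t ∧ y ∈ t} =
          (↑(T.filter fun t => ∀ z ∈ s(x, y), z ∈ t) : Set (Finset P)) := by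
        ext t
        simp
      rw [hs, Set.ncard_coe_finset] at h2
      rw [Finset.sum_congr rfl (g := fun _ => (1 : ZMod 2))
        fun t ht => ind_eq T t (Finset.mem_filter.mp ht).1]
      rw [Finset.sum_const, h2]
      rfl
  · rw [if_neg he]

theorem dl_mem (T : Finset (Finset P)) (t : Finset P) (ht : t ∈ T) :
    dl t ∈ sp (↑T : Set (Finset P)) := by
  intro s hs
  by_cases h : s = t
  · rw [h]
    exact ht
  · exact absurd (if_neg h) hs

theorem dl_self (t : Finset P) : dl t t = 1 := if_pos rfl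

theorem dl_ne (t s : Finset P) (h : s ≠ t) : dl t s = 0 := if_neg h

end XFIL

theorem i_FIL (h1 : S_LA) (h2 : S_KER) : S_FIL := by
  classical
  intro P _ T g hT D hD t₀ ht₀
  obtain ⟨f, hf1, hf2⟩ := h1 (d2 T) (sp (↑T : Set (Finset P))) (LinearMap.proj t₀) (XFIL.ind T)
    (sp (EE T Dᶜ)) (Z T Set.univ)
    (by
      intro c hc hd hp
      have hp' : c t₀ = 0 := hp
      funext s
      by_cases hs : s ∈ T
      · rw [h2 T g hT c hd s hs t₀ ht₀, hp']
        rfl
      · by_contra h
        exact hs (hc s h))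
    (XFIL.ind_mem T) (XFIL.d2_ind T g hT) (XFIL.ind_eq T t₀ ht₀)
    (by
      refine hD.hom.trans (sup_le_sup inf_le_left ?_)
      rintro _ ⟨c, rfl⟩
      refine ⟨fun t => if t ∈ T then c t else 0, ?_, ?_⟩
      · intro t ht
        by_contra h
        exact ht (if_neg (fun h' => h (Finset.mem_coe.mpr h')))
      · exact XFIL.d2_congr T _ _ fun t ht => if_pos ht)
  refine ⟨f, ?_, ?_, ?_⟩
  · intro a ha
    exact ⟨d2 T (f a) - a, hf1 a ha, by abel⟩
  · intro t ht hne s hs
    rw [hf2 (dl t) (XFIL.dl_mem T t ht) (XFIL.dl_ne t t₀ (Ne.symm hne))]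
  · intro s hs
    have e1 : d2 T (dl t₀) = d2 T (dl t₀ + XFIL.ind T) := by
      rw [map_add, XFIL.d2_ind T g hT, add_zero]
    have h0 : (dl t₀ + XFIL.ind T) t₀ = 0 := by
      rw [Pi.add_apply, XFIL.dl_self, XFIL.ind_eq T t₀ ht₀]
      rfl
    rw [e1, hf2 (dl t₀ + XFIL.ind T)
      (Submodule.add_mem _ (XFIL.dl_mem T t₀ ht₀) (XFIL.ind_mem T)) h0]
    rw [Pi.add_apply, XFIL.ind_eq T s hs, add_comm]

end Pool.Agent.IM55.SG
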