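import Pool.Agent.Work.MP_55ff09_co.SG.Stmts
import Pool.Agent.Work.Tools.GridThm.T0

/-!
# MP_55ff09_co, block SG, item GLU: gluing rooted tree decompositions
-/

set_option autoImplicit false

namespace Pool.Agent.IM55.SG

open SimpleGraph Pool.Agent.IM55 Pool.Agent.IM55.PL

namespace XGLU

/-- the parts of the glued decomposition -/
def gbag {V ι : Type} {Y : ι → Type} (R' : Set V) (bag : ∀ i, Y i → Set V) :
    Option (Σ i, Y i) → Set V
  | none => R'
  | some ⟨i, y⟩ => bag i y

theorem map_reach {V ι : Type} {Y : ι → Type} (t : ∀ i, SimpleGraph (Y i)) (ρ : ∀ i, Y i)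
    (R' : Set V) (bag : ∀ i, Y i → Set V) (x : V) (i : ι)
    (h : ((t i).induce {y | x ∈ bag i y}).Preconnected) (y z : Y i) (hy : x ∈ bag i y)
    (hz : x ∈ bag i z) :
    ((GridThm.glue t ρ).induce {a | x ∈ gbag R' bag a}).Reachable ⟨some ⟨i, y⟩, hy⟩
      ⟨some ⟨i, z⟩, hz⟩ := by
  have h1 := h ⟨y, hy⟩ ⟨z, hz⟩
  let f : (t i).induce {y | x ∈ bag i y} →g (GridThm.glue t ρ).induce {a | x ∈ gbag R' bag a} :=
    { toFun := fun y => ⟨some ⟨i, y.1⟩, y.2⟩
      map_rel' := by
        intro a b hab
        rw [SimpleGraph.induce_adj] at hab ⊢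
        exact GridThm.AuxT0.adj_some t ρ i hab }
  exact h1.map f

end XGLU

open XGLU in
theorem i_GLU : S_GLU := by
  intro V ι G w lb Q R' Root New Nw R lbi hRD hR hRN hNN hlb hRw hRR hRRN hNw hNew hQ
  choose Y t ρ bag ht hc hsub hroot hedge hw using hRD
  refine ⟨Option (Σ i, Y i), GridThm.glue t ρ, none, gbag R' bag, GridThm.T0 ι Y t ρ ht, ?_, ?_,
    hRR, ?_, ?_⟩
  · intro x
    by_cases hx : x ∈ R'
    · have key : ∀ a : {a | x ∈ gbag R' bag a},
          ((GridThm.glue t ρ).induce {a | x ∈ gbag R' bag a}).Reachable a ⟨none, hx⟩ := by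
        rintro ⟨a, ha⟩
        rcases a with _ | ⟨i, y⟩
        · exact SimpleGraph.Reachable.refl _
        · have hxR : x ∈ R i := by
            rcases hsub i y ha with h | h
            · exact h
            · exact absurd h (Set.disjoint_left.1 (hRN i) hx)
          have hxρ : x ∈ bag i (ρ i) := hroot i hxR
          refine (map_reach t ρ R' bag x i (hc i x) y (ρ i) ha hxρ).trans ?_
          apply SimpleGraph.Adj.reachable
          rw [SimpleGraph.induce_adj]
          exact (GridThm.AuxT0.adj_none t ρ i).symm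
      intro a b
      exact (key a).trans (key b).symm
    · have key : ∀ (i : ι) (y : Y i), x ∈ bag i y → x ∈ Nw i := by
        intro i y h
        rcases hsub i y h with h | h
        · exact absurd (hR i h) hx
        · exact h
      rintro ⟨a, ha⟩ ⟨b, hb⟩
      rcases a with _ | ⟨i, y⟩
      · exact absurd ha hx
      rcases b with _ | ⟨j, z⟩
      · exact absurd hb hx
      have hij : i = j := by
        by_contra hne
        exact Set.disjoint_left.1 (hNN i j hne) (key i y ha) (key j z hb)
      subst hij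
      exact map_reach t ρ R' bag x i (hc i x) y z ha hb
  · rintro (_ | ⟨i, y⟩)
    · exact fun x hx => hRRN x hx
    · intro x hx
      rcases hsub i y hx with h | h
      · exact hRRN x (hR i h)
      · exact Or.inr (hNw i h)
  · intro u v hu huv
    have key : ∀ i, u ∈ Nw i ∨ v ∈ Nw i →
        ∃ y, lb u ∈ gbag R' bag y ∧ lb v ∈ gbag R' bag y := by
      intro i h
      rcases h with h | h
      · obtain ⟨h1, h2⟩ := hlb i u h v huv
        obtain ⟨y, h3, h4⟩ := hedge i u v h huv
        refine ⟨some ⟨i, y⟩, ?_, ?_⟩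
        · rw [h1]
          exact h3
        · rw [h2]
          exact h4
      · obtain ⟨h1, h2⟩ := hlb i v h u huv.symm
        obtain ⟨y, h3, h4⟩ := hedge i v u h huv.symm
        refine ⟨some ⟨i, y⟩, ?_, ?_⟩
        · rw [h2]
          exact h4
        · rw [h1]
          exact h3
    rcases hNew u hu with h | ⟨i, h⟩
    · rcases hQ u h v huv with h | ⟨i, h⟩
      · exact ⟨none, h⟩
      · exact key i (Or.inr h)
    · exact key i (Or.inl h)
  · rintro (_ | ⟨i, y⟩)
    · exact hRw
    · exact hw i y

end Pool.Agent.IM55.SG
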