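import Pool.Agent.Work.MP_55ff09_co.SG.Stmts

set_option autoImplicit false

namespace Pool.Agent.IM55.SG

open SimpleGraph Pool.Agent.IM55 Pool.Agent.IM55.PL

namespace XHG

theorem conn_univ {P : Type} {G : SimpleGraph P} (h : G.Connected) :
    (G.induce (Set.univ : Set P)).Connected := by
  exact (SimpleGraph.induceUnivIso G).connected_iff.mpr h

theorem EE_univ {P : Type} (T : Finset (Finset P)) : EE T Set.univ = (gph T).edgeSet := by
  ext e
  simp [EE]

end XHG

theorem i_HG (h1 : S_DMZ) (h2 : S_BDM) : S_HG := by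
  intro P _ T g hS
  have a := h1 T Set.univ (XHG.conn_univ hS.conn)
  have b := h2 T g hS
  have c := hS.euler
  rw [XHG.EE_univ, Set.ncard_univ] at a
  omega

end Pool.Agent.IM55.SG
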