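import Pool.Agent.Work.MP_55ff09_co.SG.Stmts

/-!
# MP_55ff09_co, block SG, item IND: the induction
-/

set_option autoImplicit false

namespace Pool.Agent.IM55.SG

open SimpleGraph Pool.Agent.IM55 Pool.Agent.IM55.PL

namespace XIND

/-- a string inside `D` which meets `N`, if there is one -/
theorem exq {P V : Type} (S : V → Set P) (D N : Set P) (r : V) : ∃ q : V, ∀ v, S v ⊆ D →
    (S v ∩ N).Nonempty → S q ⊆ D ∧ (S q ∩ N).Nonempty := by
  by_cases h : ∃ v, S v ⊆ D ∧ (S v ∩ N).Nonempty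
  · obtain ⟨q, hq⟩ := h
    exact ⟨q, fun _ _ _ => hq⟩
  · exact ⟨r, fun v h1 h2 => absurd ⟨v, h1, h2⟩ h⟩

end XIND

theorem i_IND (h1 : S_CUT) (h2 : S_NEW) (h3 : S_POK) (h4 : S_STP) : S_IND := by
  intro P V _ _ T g Δ G S r p ly hT hS hc hB hD
  have key : ∀ (n : ℕ) (D : Set P) (e : V → V) (lam : P → P) (nm : P → V) (X : P → Set V),
      D.ncard = n → ¬ S r ⊆ D → St T S (6 * (Δ + 1)) D e lam nm X →
      Con G S ly (12 * (Δ + 1)) (5 * (6 * (Δ + 1) + 1) + 1) D e := by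
    intro n
    induction n using Nat.strong_induction_on with
    | _ n ih =>
      intro D e lam nm X hn hr hSt
      obtain ⟨N, hN⟩ := h1 T g Δ G S r p ly hT hS hc hB hD D lam hSt.reg hr
      obtain ⟨q, hq⟩ := XIND.exq S D N r
      have hpk := h3 T g (6 * (Δ + 1)) S hT hS.conn D e lam nm X hSt
      refine h4 T Δ (6 * (Δ + 1)) (12 * (Δ + 1)) (5 * (6 * (Δ + 1) + 1) + 1) G S ly hS D e lam nm X
        N q hSt hN (by omega) le_rfl hq ?_
      intro x hx hxN
      obtain ⟨lam', nm', X', hSt'⟩ := h2 T g Δ (6 * (Δ + 1)) S ly hT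
        (fun v => by
          obtain ⟨⟨y, hy⟩⟩ := (hS.conn v).nonempty
          exact ⟨y, hy⟩) le_rfl D e lam nm X N q hSt hN hq x hx hxN
      have hsub : cmp (gph T) (D \ N) x ⊆ D \ N := cmp_subset
      refine ih _ ?_ _ _ lam' nm' X' rfl ?_ hSt'
      · rw [← hn]
        refine Set.ncard_lt_ncard ?_ (Set.toFinite _)
        refine (Set.ssubset_iff_of_subset (fun y hy => (hsub hy).1)).2 ?_
        obtain ⟨⟨y, hy⟩⟩ := hN.conn.nonempty
        exact ⟨y, hN.sub hy, fun h => (hsub h).2 hy⟩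
      · exact fun h => hr (h.trans fun y hy => (hsub hy).1)
  intro D e lam nm X hr hSt
  exact key _ D e lam nm X rfl hr hSt

end Pool.Agent.IM55.SG
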