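import Pool.Agent.Work.MP_55ff09_co.SG.Stmts

/-!
# MP_55ff09_co, block SG, item INJ: triangles inside a proper subset are independent
-/

set_option autoImplicit false

namespace Pool.Agent.IM55.SG

open SimpleGraph Pool.Agent.IM55 Pool.Agent.IM55.PL

namespace XINJ

/-- a non zero value of the boundary of a 2-chain is at an edge of a triangle of its support -/
theorem d2_ne {P : Type} (T : Finset (Finset P)) (c : Finset P → ZMod 2) (e : Sym2 P)
    (he : d2 T c e ≠ 0) : e ∈ (gph T).edgeSet ∧ ∃ t ∈ T, c t ≠ 0 ∧ ∀ x ∈ e, x ∈ t := by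
  classical
  unfold d2 at he
  simp only [LinearMap.coe_mk, AddHom.coe_mk] at he
  split_ifs at he with h
  · obtain ⟨t, ht, hct⟩ := Finset.exists_ne_zero_of_sum_ne_zero he
    rw [Finset.mem_filter] at ht
    exact ⟨h, t, ht.1, hct, ht.2⟩
  · exact absurd rfl he

end XINJ

theorem i_INJ (h1 : S_KER) (h2 : S_DD) (h3 : S_DM0) : S_INJ := by
  intro P _ T g hS A hA
  have hmem : ∀ c ∈ sp (FF T A), d2 T c ∈ Z T A ⊓ LinearMap.range (d2 T) := by
    intro c hc
    refine ⟨⟨?_, ?_⟩, ⟨c, rfl⟩⟩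
    · intro e he
      obtain ⟨he1, t, _, hct, hxt⟩ := XINJ.d2_ne T c e he
      exact ⟨he1, fun x hx => (hc t hct).2 x (hxt x hx)⟩
    · exact h2 T g hS c
  rw [← h3 (FF T A)]
  refine LinearMap.finrank_le_finrank_of_injective (f := (d2 T).restrict hmem) ?_
  rw [← LinearMap.ker_eq_bot, LinearMap.ker_eq_bot']
  rintro ⟨c, hc⟩ h0
  have h0' : d2 T c = 0 := congrArg Subtype.val h0
  obtain ⟨x, hx⟩ := (Set.ne_univ_iff_exists_notMem A).1 hA
  obtain ⟨t, ht, hxt⟩ := hS.cover x
  have hct : c t = 0 := by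
    by_contra hne
    exact hx ((hc t hne).2 x hxt)
  refine Subtype.ext ?_
  funext s
  change c s = 0
  by_contra hne
  exact hne ((h1 T g hS c h0' s (hc s hne).1 t ht).trans hct)

end Pool.Agent.IM55.SG
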