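import Pool.Agent.Work.MP_55ff09_co.SG.Stmts

/-!
# MP_55ff09_co, block SG: item KER

The kernel of `d2` consists of the functions which are constant on `T`.
-/

set_option autoImplicit false

namespace Pool.Agent.IM55.SG

open SimpleGraph Pool.Agent.IM55 Pool.Agent.IM55.PL

namespace XKER

/-- a connected graph stays preconnected when it is induced on the set of all vertices -/
theorem pre_univ {V : Type} (G : SimpleGraph V) (h : G.Connected) :
    (G.induce Set.univ).Preconnected :=
  (SimpleGraph.Iso.connected_iff (SimpleGraph.induceUnivIso G)).2 h |>.preconnected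

end XKER

/-- KER -/
theorem i_KER (h1 : S_CST) : S_KER := by
  intro P _ T g hT c hc s hs t ht
  have hne : ∀ u ∈ T, ∃ x ∈ u, x ∈ (Set.univ : Set P) := by
    intro u hu
    have h3 : u.card = 3 := hT.card u hu
    have hn : u.Nonempty := by
      rw [← Finset.card_pos, h3]
      norm_num
    obtain ⟨x, hx⟩ := hn
    exact ⟨x, hx, Set.mem_univ x⟩
  refine h1 T g hT c Set.univ (XKER.pre_univ _ hT.conn) ?_ s hs t ht (hne s hs) (hne t ht)
  intro x _ y
  rw [hc]
  rfl

end Pool.Agent.IM55.SG
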