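import Pool.Agent.Work.MP_55ff09_co.SG.Stmts

/-!
MP_55ff09_co, block SG, item LA: linear filling, the linear algebra.
-/

set_option autoImplicit false

namespace Pool.Agent.IM55.SG

namespace XLA

variable {K M N : Type} [Field K] [AddCommGroup M] [Module K M] [AddCommGroup N] [Module K N]

/-- A linear section, modulo `W`, of a linear map. -/
lemma exists_section (e : M →ₗ[K] N) (W : Submodule K N) :
    ∃ h : N →ₗ[K] M, ∀ a ∈ W ⊔ LinearMap.range e, e (h a) - a ∈ W := by
  let q : M →ₗ[K] N ⧸ W := W.mkQ ∘ₗ e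
  obtain ⟨s, hs⟩ := LinearMap.exists_rightInverse_of_surjective q.rangeRestrict
    (LinearMap.range_rangeRestrict q)
  obtain ⟨s', hs'⟩ := LinearMap.exists_extend s
  refine ⟨s' ∘ₗ W.mkQ, fun a ha => ?_⟩
  obtain ⟨u, hu, v, ⟨c, rfl⟩, rfl⟩ := Submodule.mem_sup.mp ha
  have h1 : W.mkQ (u + e c) = q c := by
    rw [map_add]
    have : W.mkQ u = 0 := by
      rw [Submodule.mkQ_apply, Submodule.Quotient.mk_eq_zero]
      exact hu
    rw [this, zero_add]
    rfl
  have hq : q c ∈ LinearMap.range q := ⟨c, rfl⟩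
  have h2 : s' (q c) = s ⟨q c, hq⟩ := by
    have := LinearMap.congr_fun hs' (⟨q c, hq⟩ : LinearMap.range q)
    simpa using this
  have h3 : q (s ⟨q c, hq⟩) = q c := by
    have := LinearMap.congr_fun hs (⟨q c, hq⟩ : LinearMap.range q)
    have h4 := congrArg Subtype.val this
    simpa using h4
  have h5 : W.mkQ (e (s' (W.mkQ (u + e c)))) = W.mkQ (u + e c) := by
    rw [h1, h2]
    exact h3
  rw [← Submodule.Quotient.mk_eq_zero, ← Submodule.mkQ_apply, map_sub]
  rw [LinearMap.comp_apply, h5, sub_self]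

end XLA

theorem i_LA : S_LA := by
  intro K M N _ _ _ _ _ d X phi w W Y hinj hw hdw hphi hY
  let X₀ : Submodule K M := X ⊓ LinearMap.ker phi
  let e : X₀ →ₗ[K] N := d ∘ₗ X₀.subtype
  have he : LinearMap.ker e = ⊥ := by
    rw [LinearMap.ker_eq_bot']
    intro c hc
    apply Subtype.ext
    exact hinj c.1 c.2.1 hc (LinearMap.mem_ker.mp c.2.2)
  obtain ⟨L, hL⟩ := LinearMap.exists_leftInverse_of_injective e he
  obtain ⟨h, hh⟩ := XLA.exists_section e W
  have hmap : X.map d ≤ LinearMap.range e := by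
    rintro a ⟨c, hc, rfl⟩
    refine ⟨⟨c - phi c • w, X.sub_mem hc (X.smul_mem _ hw), ?_⟩, ?_⟩
    · change c - phi c • w ∈ LinearMap.ker phi
      rw [LinearMap.mem_ker, map_sub, map_smul, hphi, smul_eq_mul, mul_one, sub_self]
    · change d (c - phi c • w) = d c
      rw [map_sub, map_smul, hdw, smul_zero, sub_zero]
  refine ⟨X₀.subtype ∘ₗ (L + h ∘ₗ (LinearMap.id - e ∘ₗ L)), fun a ha => ?_, fun c hc hc0 => ?_⟩
  · have h1 : a - e (L a) ∈ W ⊔ LinearMap.range e := by
      refine Submodule.sub_mem _ ?_ (Submodule.mem_sup_right ⟨L a, rfl⟩)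
      exact (sup_le_sup_left hmap W) (hY ha)
    have h2 := hh _ h1
    have h3 : d ((X₀.subtype ∘ₗ (L + h ∘ₗ (LinearMap.id - e ∘ₗ L))) a) - a =
        e (h (a - e (L a))) - (a - e (L a)) := by
      change e (L a + h (a - e (L a))) - a = _
      rw [map_add]
      abel
    rw [h3]
    exact h2
  · have hc' : c ∈ X₀ := ⟨hc, LinearMap.mem_ker.mpr hc0⟩
    have h1 : L (d c) = ⟨c, hc'⟩ := by
      have := LinearMap.congr_fun hL (⟨c, hc'⟩ : X₀)
      exact this
    change ((L (d c) + h (d c - e (L (d c))) : X₀) : M) = c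
    rw [h1]
    have h2 : d c - e ⟨c, hc'⟩ = 0 := sub_self _
    rw [h2, map_zero, add_zero]

end Pool.Agent.IM55.SG
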