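import Pool.Agent.Work.MP_55ff09_co.SG.Stmts

/-!
# MP_55ff09_co, block SG, item LBL: the number of labels is at most 1 + the number of corners
-/

set_option autoImplicit false

namespace Pool.Agent.IM55.SG

open SimpleGraph Pool.Agent.IM55 Pool.Agent.IM55.PL

namespace XLBL

variable {P : Type}

/-- the corner `t` joins the labels `i` and `j` -/
def Jn (T : Finset (Finset P)) (D : Set P) (lam : P → P) (t : Finset P) (i j : P) : Prop :=
  t ∈ T ∧ ∃ d ∈ t, ∃ b ∈ t, ∃ b' ∈ t, d ∈ D ∧ b ∉ D ∧ b' ∉ D ∧ lam b = i ∧ lam b' = j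

theorem Jn.symm {T : Finset (Finset P)} {D : Set P} {lam : P → P} {t : Finset P} {i j : P}
    (h : Jn T D lam t i j) : Jn T D lam t j i := by
  obtain ⟨ht, d, hd, b, hb, b', hb', h1, h2, h3, h4, h5⟩ := h
  exact ⟨ht, d, hd, b', hb', b, hb, h1, h3, h2, h5, h4⟩

theorem Jn.cor {T : Finset (Finset P)} {D : Set P} {lam : P → P} {t : Finset P} {i j : P}
    (h : Jn T D lam t i j) (hij : i ≠ j) : t ∈ Cor T D lam := by
  obtain ⟨ht, d, hd, b, hb, b', hb', h1, h2, h3, h4, h5⟩ := h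
  exact ⟨ht, d, hd, b, hb, b', hb', h1, h2, h3, by rw [h4, h5]; exact hij⟩

theorem Jn.uniq [DecidableEq P] {T : Finset (Finset P)} {D : Set P} {lam : P → P} {t : Finset P}
    {i j i' j' : P} (hc : ∀ t ∈ T, t.card = 3)
    (h : Jn T D lam t i j) (hij : i ≠ j) (h' : Jn T D lam t i' j') (hij' : i' ≠ j') :
    (i = i' ∧ j = j') ∨ (i = j' ∧ j = i') := by
  obtain ⟨ht, d, hd, b, hb, b', hb', h1, h2, h3, h4, h5⟩ := h
  obtain ⟨-, d2, hd2, c, hcc, c', hcc', k1, k2, k3, k4, k5⟩ := h'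
  have hdb : d ≠ b := fun h => h2 (h ▸ h1)
  have hdb' : d ≠ b' := fun h => h3 (h ▸ h1)
  have hbb' : b ≠ b' := fun h => hij (by rw [← h4, ← h5, h])
  have hcc2 : c ≠ c' := fun h => hij' (by rw [← k4, ← k5, h])
  have hsub : ({d, b, b'} : Finset P) ⊆ t := by
    intro x hx
    simp only [Finset.mem_insert, Finset.mem_singleton] at hx
    rcases hx with rfl | rfl | rfl
    · exact hd
    · exact hb
    · exact hb'
  have hcard : ({d, b, b'} : Finset P).card = 3 := by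
    rw [Finset.card_insert_of_notMem, Finset.card_pair hbb']
    simp only [Finset.mem_insert, Finset.mem_singleton, not_or]
    exact ⟨hdb, hdb'⟩
  have heq : ({d, b, b'} : Finset P) = t :=
    Finset.eq_of_subset_of_card_le hsub (by rw [hc t ht, hcard])
  have m1 : c = b ∨ c = b' := by
    rw [← heq] at hcc
    simp only [Finset.mem_insert, Finset.mem_singleton] at hcc
    rcases hcc with h | h | h
    · exact absurd (h ▸ h1) k2
    · exact Or.inl h
    · exact Or.inr h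
  have m2 : c' = b ∨ c' = b' := by
    rw [← heq] at hcc'
    simp only [Finset.mem_insert, Finset.mem_singleton] at hcc'
    rcases hcc' with h | h | h
    · exact absurd (h ▸ h1) k3
    · exact Or.inl h
    · exact Or.inr h
  rcases m1 with m1 | m1 <;> rcases m2 with m2 | m2
  · exact absurd (m1.trans m2.symm) hcc2
  · exact Or.inl ⟨by rw [← h4, ← k4, m1], by rw [← h5, ← k5, m2]⟩
  · exact Or.inr ⟨by rw [← h4, ← k5, m2], by rw [← h5, ← k4, m1]⟩
  · exact absurd (m1.trans m2.symm) hcc2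

/-- the graph of labels -/
def HL (T : Finset (Finset P)) (D : Set P) (lam : P → P) :
    SimpleGraph (lam '' nbD T D : Set P) where
  Adj i j := i ≠ j ∧ ∃ t, Jn T D lam t i j
  symm := ⟨by
    rintro i j ⟨h, t, ht⟩
    exact ⟨h.symm, t, ht.symm⟩⟩
  loopless := ⟨by
    rintro i ⟨h, -⟩
    exact h rfl⟩

theorem HL_conn [Fintype P] (h1 : S_COC) {T : Finset (Finset P)} {g : ℕ} (hS : Surf T g)
    {D : Set P} {lam : P → P} (hR : Reg T D) : (HL T D lam).Preconnected := by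
  rintro ⟨i, b0, hb0, hi⟩ ⟨j, b1, hb1, hj⟩
  have hi' : i ∈ lam '' nbD T D := ⟨b0, hb0, hi⟩
  let I : Set P := {b | ∃ h : lam b ∈ lam '' nbD T D, (HL T D lam).Reachable ⟨i, hi'⟩ ⟨lam b, h⟩}
  have hnb : ∀ t ∈ T, ∀ d ∈ t, d ∈ D → ∀ b ∈ t, b ∉ D → b ∈ nbD T D := by
    intro t ht d hd hdD b hb hbD
    exact ⟨hbD, d, hdD, fun h => hbD (h ▸ hdD), t, ht, hd, hb⟩
  have key : ∀ t ∈ T, ∀ d ∈ t, d ∈ D → ∀ b ∈ t, b ∉ D → ∀ b' ∈ t, b' ∉ D →
      (b ∈ I → b' ∈ I) := by
    rintro t ht d hd hdD b hb hbD b' hb' hbD' ⟨h, hr⟩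
    have hb2 := hnb t ht d hd hdD b' hb' hbD'
    refine ⟨⟨b', hb2, rfl⟩, ?_⟩
    by_cases he : lam b = lam b'
    · have : (⟨lam b', ⟨b', hb2, rfl⟩⟩ : (lam '' nbD T D : Set P)) = ⟨lam b, h⟩ :=
        Subtype.ext he.symm
      rw [this]
      exact hr
    · refine hr.trans (SimpleGraph.Adj.reachable ⟨fun h => he (congrArg Subtype.val h), t, ht, d,
        hd, b, hb, b', hb', hdD, hbD, hbD', rfl, rfl⟩)
  have h2 := h1 T g hS D I hR (fun t ht d hd hdD b hb hbD b' hb' hbD' =>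
    ⟨key t ht d hd hdD b hb hbD b' hb' hbD', key t ht d hd hdD b' hb' hbD' b hb hbD⟩)
    b0 hb0 b1 hb1
  have h3 : b0 ∈ I := by
    refine ⟨⟨b0, hb0, rfl⟩, ?_⟩
    have : (⟨lam b0, ⟨b0, hb0, rfl⟩⟩ : (lam '' nbD T D : Set P)) = ⟨i, hi'⟩ := Subtype.ext hi
    rw [this]
  obtain ⟨h4, h5⟩ := h2.1 h3
  have : (⟨j, ⟨b1, hb1, hj⟩⟩ : (lam '' nbD T D : Set P)) = ⟨lam b1, h4⟩ := Subtype.ext hj.symm
  rw [this]
  exact h5

theorem HL_edges [Fintype P] [DecidableEq P] {T : Finset (Finset P)} {D : Set P} {lam : P → P}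
    (hc : ∀ t ∈ T, t.card = 3) : Nat.card (HL T D lam).edgeSet ≤ (Cor T D lam).ncard := by
  have hex : ∀ e : (HL T D lam).edgeSet, ∃ t : Finset P, ∃ i j : (lam '' nbD T D : Set P),
      i ≠ j ∧ Jn T D lam t i j ∧ (e : Sym2 (lam '' nbD T D : Set P)) = s(i, j) := by
    rintro ⟨e, he⟩
    induction e with
    | _ i j =>
      obtain ⟨hne, t, ht⟩ := (SimpleGraph.mem_edgeSet _).1 he
      exact ⟨t, i, j, hne, ht, rfl⟩
  choose f hf using hex
  have hmem : ∀ e, f e ∈ Cor T D lam := by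
    intro e
    obtain ⟨i, j, hne, hJ, -⟩ := hf e
    exact hJ.cor fun h => hne (Subtype.ext h)
  have hinj : Function.Injective (fun e => (⟨f e, hmem e⟩ : (Cor T D lam : Set (Finset P)))) := by
    intro e e' h
    have h' : f e = f e' := congrArg Subtype.val h
    obtain ⟨i, j, hne, hJ, he⟩ := hf e
    obtain ⟨i', j', hne', hJ', he'⟩ := hf e'
    rw [← h'] at hJ'
    apply Subtype.ext
    rw [he, he']
    rcases hJ.uniq hc (fun h => hne (Subtype.ext h)) hJ' (fun h => hne' (Subtype.ext h)) with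
      ⟨h1, h2⟩ | ⟨h1, h2⟩
    · rw [Subtype.ext h1, Subtype.ext h2]
    · rw [Subtype.ext h1, Subtype.ext h2]
      exact Sym2.eq_swap
  have := Nat.card_le_card_of_injective _ hinj
  rwa [Nat.card_coe_set_eq (Cor T D lam)] at this

end XLBL

open XLBL in
/-- **LBL.** -/
theorem i_LBL (h1 : S_COC) : S_LBL := by
  classical
  intro P _ T g hS D lam hR
  by_cases hne : (lam '' nbD T D).Nonempty
  · have hne' : Nonempty (lam '' nbD T D : Set P) := hne.to_subtype
    have hconn : (HL T D lam).Connected :=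
      { preconnected := HL_conn h1 hS hR, nonempty := hne' }
    have h2 := hconn.card_vert_le_card_edgeSet_add_one
    have h3 := HL_edges (D := D) (lam := lam) hS.card
    rw [Nat.card_coe_set_eq] at h2
    omega
  · rw [Set.not_nonempty_iff_eq_empty.1 hne, Set.ncard_empty]
    exact Nat.zero_le _

end Pool.Agent.IM55.SG
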