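import Pool.Agent.Work.MP_55ff09_co.SG.Stmts

/-!
# MP_55ff09_co, block SG, item LNK: a chain is constant around a point
-/

set_option autoImplicit false

namespace Pool.Agent.IM55.SG

open SimpleGraph Pool.Agent.IM55 Pool.Agent.IM55.PL

theorem i_LNK : S_LNK := by
  classical
  intro P _ T g hT c x hc s hs t ht hxs hxt
  have key : ∀ a b : Finset P, a ∈ T → b ∈ T → x ∈ a → x ∈ b → (∃ y, y ≠ x ∧ y ∈ a ∧ y ∈ b) →
      c a = c b := by
    intro a b ha hb hxa hxb hy
    obtain ⟨y, hyx, hya, hyb⟩ := hy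
    by_cases hab : a = b
    · rw [hab]
    have hadj : (gph T).Adj x y := ⟨hyx.symm, a, ha, hxa, hya⟩
    have he : s(x, y) ∈ (gph T).edgeSet := hadj
    have h1 := hc y
    unfold d2 at h1
    simp only [LinearMap.coe_mk, AddHom.coe_mk] at h1
    rw [if_pos he] at h1
    have h2 := hT.two x y hadj
    have h3 : ((({a, b} : Finset (Finset P)) : Set (Finset P))) = {t | t ∈ T ∧ x ∈ t ∧ y ∈ t} := by
      apply Set.eq_of_subset_of_ncard_le
      · intro u hu
        simp only [Finset.coe_insert, Finset.coe_singleton, Set.mem_insert_iff,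
          Set.mem_singleton_iff] at hu
        rcases hu with rfl | rfl
        · exact ⟨ha, hxa, hya⟩
        · exact ⟨hb, hxb, hyb⟩
      · rw [h2, Set.ncard_coe_finset, Finset.card_pair hab]
      · exact Set.toFinite _
    have h4 : (T.filter fun t => ∀ z ∈ s(x, y), z ∈ t) = {a, b} := by
      ext u
      have h5 : u ∈ (({a, b} : Finset (Finset P)) : Set (Finset P)) ↔
          u ∈ {t | t ∈ T ∧ x ∈ t ∧ y ∈ t} := by rw [h3]
      rw [Finset.mem_coe] at h5
      rw [h5, Finset.mem_filter]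
      simp [Sym2.mem_iff]
    have h6 : ∑ t ∈ ({a, b} : Finset (Finset P)), c t = 0 := by
      rw [← h4, ← h1]
      apply Finset.sum_congr _ fun _ _ => rfl
      ext u
      simp only [Finset.mem_filter]
    rw [Finset.sum_pair hab] at h6
    have h7 : ∀ p q : ZMod 2, p + q = 0 → p = q := by decide
    exact h7 _ _ h6
  have h := hT.link x s hs t ht hxs hxt
  have main : ∀ u, Relation.ReflTransGen
      (fun a b : Finset P => b ∈ T ∧ x ∈ a ∧ x ∈ b ∧ ∃ y, y ≠ x ∧ y ∈ a ∧ y ∈ b) s u →
      u ∈ T ∧ c s = c u := by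
    intro u hu
    induction hu with
    | refl => exact ⟨hs, rfl⟩
    | tail _ h2 ih =>
      obtain ⟨hb, hxa, hxb, hy⟩ := h2
      exact ⟨hb, ih.2.trans (key _ _ ih.1 hb hxa hxb hy)⟩
  exact (main t h).2

end Pool.Agent.IM55.SG
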