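import Pool.Agent.Work.MP_55ff09_co.SG.Stmts

/-!
# MP_55ff09_co, block SG, item MIX: double counting of the mixed edges
-/

set_option autoImplicit false

namespace Pool.Agent.IM55.SG

open SimpleGraph Pool.Agent.IM55 Pool.Agent.IM55.PL

namespace XMIX

theorem mixed_mk {P : Type} (k : P → Fin 3) (a b : P) :
    (∃ x ∈ s(a, b), ∃ y ∈ s(a, b), k x ≠ k y) ↔ k a ≠ k b := by
  constructor
  · rintro ⟨x, hx, y, hy, h⟩ h'
    rw [Sym2.mem_iff] at hx hy
    rcases hx with rfl | rfl <;> rcases hy with rfl | rfl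
    · exact h rfl
    · exact h h'
    · exact h h'.symm
    · exact h rfl
  · intro h
    exact ⟨a, Sym2.mem_mk_left a b, b, Sym2.mem_mk_right a b, h⟩

theorem fin3 (p q r : Fin 3) :
    ((if p ≠ q then 1 else 0) + ((if p ≠ r then 1 else 0) + (if q ≠ r then 1 else 0)) : ℕ) =
      (if (p ≠ q ∨ p ≠ r ∨ q ≠ r) ∧ ∃ i, p ≠ i ∧ q ≠ i ∧ r ≠ i then 2 else 0) +
        (if ∀ i, p = i ∨ q = i ∨ r = i then 3 else 0) := by
  revert p q r
  decide

open Classical in
theorem tri {P : Type} [Fintype P] (T : Finset (Finset P)) (k : P → Fin 3) (t : Finset P)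
    (ht : t ∈ T) (hc : t.card = 3) :
    ((Finset.univ.filter fun e : Sym2 P => e ∈ (gph T).edgeSet ∧
        ∃ x ∈ e, ∃ y ∈ e, k x ≠ k y).filter fun e => ∀ x ∈ e, x ∈ t).card =
      (if (∃ x ∈ t, ∃ y ∈ t, k x ≠ k y) ∧ ∃ i, ∀ x ∈ t, k x ≠ i then 2 else 0) +
        (if ∀ i, ∃ x ∈ t, k x = i then 3 else 0) := by
  obtain ⟨x, y, z, hxy, hxz, hyz, rfl⟩ := Finset.card_eq_three.1 hc
  have h1 : ((Finset.univ.filter fun e : Sym2 P => e ∈ (gph T).edgeSet ∧
        ∃ x ∈ e, ∃ y ∈ e, k x ≠ k y).filter fun e => ∀ w ∈ e, w ∈ ({x, y, z} : Finset P)) =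
      ({s(x, y), s(x, z), s(y, z)} : Finset (Sym2 P)).filter fun e =>
        ∃ x ∈ e, ∃ y ∈ e, k x ≠ k y := by
    ext e
    rw [Finset.mem_filter, Finset.mem_filter, Finset.mem_filter]
    constructor
    · rintro ⟨⟨-, h2, h3⟩, h4⟩
      refine ⟨?_, h3⟩
      induction e using Sym2.ind with
      | h a b =>
        have hab : a ≠ b := ((SimpleGraph.mem_edgeSet _).1 h2).1
        have ha := h4 a (Sym2.mem_mk_left a b)
        have hb := h4 b (Sym2.mem_mk_right a b)
        simp only [Finset.mem_insert, Finset.mem_singleton] at ha hb ⊢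
        rcases ha with rfl | rfl | rfl <;> rcases hb with rfl | rfl | rfl
        · exact absurd rfl hab
        · exact Or.inl rfl
        · exact Or.inr (Or.inl rfl)
        · exact Or.inl Sym2.eq_swap
        · exact absurd rfl hab
        · exact Or.inr (Or.inr rfl)
        · exact Or.inr (Or.inl Sym2.eq_swap)
        · exact Or.inr (Or.inr Sym2.eq_swap)
        · exact absurd rfl hab
    · rintro ⟨h2, h3⟩
      have hx : x ∈ ({x, y, z} : Finset P) := by simp
      have hy : y ∈ ({x, y, z} : Finset P) := by simp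
      have hz : z ∈ ({x, y, z} : Finset P) := by simp
      have key : ∀ a b, a ≠ b → a ∈ ({x, y, z} : Finset P) → b ∈ ({x, y, z} : Finset P) →
          s(a, b) ∈ (gph T).edgeSet ∧ ∀ w ∈ s(a, b), w ∈ ({x, y, z} : Finset P) := by
        intro a b hab ha hb
        refine ⟨(SimpleGraph.mem_edgeSet _).2 ⟨hab, _, ht, ha, hb⟩, ?_⟩
        intro w hw
        rw [Sym2.mem_iff] at hw
        rcases hw with rfl | rfl
        · exact ha
        · exact hb
      have h5 : e ∈ (gph T).edgeSet ∧ ∀ w ∈ e, w ∈ ({x, y, z} : Finset P) := by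
        rw [Finset.mem_insert, Finset.mem_insert, Finset.mem_singleton] at h2
        rcases h2 with rfl | rfl | rfl
        · exact key x y hxy hx hy
        · exact key x z hxz hx hz
        · exact key y z hyz hy hz
      exact ⟨⟨Finset.mem_univ _, h5.1, h3⟩, h5.2⟩
  rw [h1]
  have n1 : s(x, y) ∉ ({s(x, z), s(y, z)} : Finset (Sym2 P)) := by
    rw [Finset.mem_insert, Finset.mem_singleton, Sym2.eq_iff, Sym2.eq_iff]
    rintro ((⟨-, h⟩ | ⟨h, -⟩) | (⟨h, -⟩ | ⟨h, -⟩))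
    · exact hyz h
    · exact hxz h
    · exact hxy h
    · exact hxz h
  have n2 : s(x, z) ∉ ({s(y, z)} : Finset (Sym2 P)) := by
    rw [Finset.mem_singleton, Sym2.eq_iff]
    rintro (⟨h, -⟩ | ⟨h, -⟩)
    · exact hxy h
    · exact hxz h
  rw [Finset.card_filter, Finset.sum_insert n1, Finset.sum_insert n2, Finset.sum_singleton]
  simp only [mixed_mk]
  have e1 : (∃ a ∈ ({x, y, z} : Finset P), ∃ b ∈ ({x, y, z} : Finset P), k a ≠ k b) ↔
      (k x ≠ k y ∨ k x ≠ k z ∨ k y ≠ k z) := by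
    simp only [Finset.mem_insert, Finset.mem_singleton]
    constructor
    · rintro ⟨a, ha, b, hb, h⟩
      by_contra hcon
      push Not at hcon
      obtain ⟨h2, h3, h4⟩ := hcon
      rcases ha with rfl | rfl | rfl <;> rcases hb with rfl | rfl | rfl <;> simp_all
    · rintro (h | h | h)
      · exact ⟨x, Or.inl rfl, y, Or.inr (Or.inl rfl), h⟩
      · exact ⟨x, Or.inl rfl, z, Or.inr (Or.inr rfl), h⟩
      · exact ⟨y, Or.inr (Or.inl rfl), z, Or.inr (Or.inr rfl), h⟩
  have e2 : (∃ i, ∀ a ∈ ({x, y, z} : Finset P), k a ≠ i) ↔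
      ∃ i, k x ≠ i ∧ k y ≠ i ∧ k z ≠ i := by
    simp
  have e3 : (∀ i, ∃ a ∈ ({x, y, z} : Finset P), k a = i) ↔
      ∀ i, k x = i ∨ k y = i ∨ k z = i := by
    simp
  rw [if_congr (and_congr e1 e2) rfl rfl, if_congr e3 rfl rfl]
  convert fin3 (k x) (k y) (k z) using 2

open Classical in
theorem edge {P : Type} [Fintype P] (T : Finset (Finset P)) (g : ℕ) (hT : Surf T g)
    (e : Sym2 P) (he : e ∈ (gph T).edgeSet) : (T.filter fun t => ∀ x ∈ e, x ∈ t).card = 2 := by
  induction e using Sym2.ind with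
  | h a b =>
    rw [← hT.two a b ((SimpleGraph.mem_edgeSet _).1 he), ← Set.ncard_coe_finset]
    congr 1
    ext t
    simp only [Finset.coe_filter, Set.mem_setOf_eq, Sym2.mem_iff, forall_eq_or_imp, forall_eq]

end XMIX

theorem i_MIX : S_MIX := by
  classical
  intro P _ T g hT k
  have h1 : {e | e ∈ (gph T).edgeSet ∧ ∃ x ∈ e, ∃ y ∈ e, k x ≠ k y} =
      ((Finset.univ.filter fun e : Sym2 P => e ∈ (gph T).edgeSet ∧
        ∃ x ∈ e, ∃ y ∈ e, k x ≠ k y : Finset (Sym2 P)) : Set (Sym2 P)) := by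
    ext e
    simp
  have h2 : {t | t ∈ T ∧ (∃ x ∈ t, ∃ y ∈ t, k x ≠ k y) ∧ ∃ i, ∀ x ∈ t, k x ≠ i} =
      ((T.filter fun t => (∃ x ∈ t, ∃ y ∈ t, k x ≠ k y) ∧ ∃ i, ∀ x ∈ t, k x ≠ i :
        Finset (Finset P)) : Set (Finset P)) := by
    ext e
    simp
  have h3 : {t | t ∈ T ∧ ∀ i, ∃ x ∈ t, k x = i} =
      ((T.filter fun t => ∀ i, ∃ x ∈ t, k x = i : Finset (Finset P)) : Set (Finset P)) := by
    ext e
    simp
  rw [h1, h2, h3, Set.ncard_coe_finset, Set.ncard_coe_finset, Set.ncard_coe_finset]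
  have h4 := Finset.sum_card_bipartiteAbove_eq_sum_card_bipartiteBelow
    (s := Finset.univ.filter fun e : Sym2 P => e ∈ (gph T).edgeSet ∧
        ∃ x ∈ e, ∃ y ∈ e, k x ≠ k y) (t := T) (fun (e : Sym2 P) (t : Finset P) => ∀ x ∈ e, x ∈ t)
  unfold Finset.bipartiteAbove Finset.bipartiteBelow at h4
  rw [Finset.sum_congr rfl (fun e he => XMIX.edge T g hT e (Finset.mem_filter.1 he).2.1),
    Finset.sum_congr rfl (fun t ht => XMIX.tri T k t ht (hT.card t ht)),
    Finset.sum_const, smul_eq_mul, Finset.sum_add_distrib, ← Finset.sum_filter,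
    ← Finset.sum_filter, Finset.sum_const, Finset.sum_const, smul_eq_mul, smul_eq_mul] at h4
  rw [mul_comm 2, h4, mul_comm 2, mul_comm 3]

end Pool.Agent.IM55.SG
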