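import Pool.Agent.Work.MP_55ff09_co.SG.Stmts

/-!
# MP_55ff09_co, block SG, item MN0: labelling of the whole graph
-/

set_option autoImplicit false

namespace Pool.Agent.IM55.SG

open SimpleGraph Pool.Agent.IM55 Pool.Agent.IM55.PL

namespace XMN0

open Classical in
/-- the names of the first step -/
noncomputable def e0 {P V : Type} (S : V → Set P) (K : Set P) (r : V) (w : V) : V :=
  if (S w ∩ K).Nonempty then r else w

variable {P V : Type} {Γ : SimpleGraph P} {S : V → Set P} {K : Set P}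

/-- a connected set which does not meet `K` and meets a component of `Kᶜ` is inside it -/
theorem sub_of_meets {X : Set P} {x : P} (hX : (Γ.induce X).Connected) (hK : ¬ (X ∩ K).Nonempty)
    (h : (X ∩ cmp Γ Kᶜ x).Nonempty) : X ⊆ cmp Γ Kᶜ x := by
  obtain ⟨y, hy, hy'⟩ := h
  have h1 : X ⊆ cmp Γ Kᶜ y := subset_cmp hX hy (fun z hz hzK => hK ⟨z, hz, hzK⟩)
  rwa [cmp_eq hy'] at h1

/-- nonempty sets meeting `K` are not inside a component of `Kᶜ` -/
theorem not_sub {X : Set P} {x : P} (hK : (X ∩ K).Nonempty) : ¬ X ⊆ cmp Γ Kᶜ x := by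
  obtain ⟨y, hy, hyK⟩ := hK
  exact fun h => (cmp_subset (h hy)) hyK

/-- the state of a component of the complement of `K` -/
theorem state [Fintype P] [Finite V] {T : Finset (Finset P)} {m : ℕ} {r : V}
    (hr : S r ⊆ K) (hne : (S r).Nonempty) {x x₀ : P} (hx₀ : x₀ ∈ S r)
    (hR : Reg T (cmp (gph T) Kᶜ x)) :
    St T S m (cmp (gph T) Kᶜ x) (e0 S K r) (fun _ => x₀) (fun _ => r) (fun _ => ∅) where
  reg := hR
  old := by
    intro w hw
    unfold e0
    split_ifs with h
    · obtain ⟨y, hy⟩ := hne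
      exact not_sub ⟨y, hy, hr hy⟩
    · exact hw
  lamD := fun b _ h => (cmp_subset h) (hr hx₀)
  exc := by
    rintro b ⟨hb, d, hd, hdb⟩ w hw
    left
    have hbK : b ∈ K := by
      by_contra hbK
      exact hb (cmp_adj hd hbK hdb)
    unfold e0
    rw [if_pos ⟨b, hw, hbK⟩]
  card := by
    intro i
    simp
  cor := by
    have : Cor T (cmp (gph T) Kᶜ x) (fun _ => x₀) = ∅ := by
      ext t
      simp [Cor]
    rw [this]
    simp

end XMN0

open XMN0 in
theorem i_MN0 (h1 : S_STA) (h2 : S_RG0) (h3 : S_IND) (h4 : S_GLU) : S_MN0 := by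
  intro P V _ _ T g Δ G S r p ly hT hS hc hB hD
  classical
  obtain ⟨K, hrK, hKc, hKZ, hKw⟩ := h1 T g Δ G S r p ly hT hS hc hB hD
  have hpt : ∀ v, ∃ x, x ∈ S v := fun v => by
    obtain ⟨⟨y, hy⟩⟩ := (hS.conn v).nonempty
    exact ⟨y, hy⟩
  choose pt hpt using hpt
  have hrne : (S r ∩ K).Nonempty := ⟨pt r, hpt r, hrK (hpt r)⟩
  -- the components
  let ι : Type := {D : Set P // ∃ x, x ∉ K ∧ D = cmp (gph T) Kᶜ x}
  have hCon : ∀ i : ι, Con G S ly (12 * (Δ + 1)) (5 * (6 * (Δ + 1) + 1) + 1) i.1 (e0 S K r) := by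
    rintro ⟨D, x, hx, rfl⟩
    exact h3 T g Δ G S r p ly hT hS hc hB hD _ (e0 S K r) (fun _ => pt r) (fun _ => r)
      (fun _ => ∅) (not_sub hrne)
      (state hrK ⟨pt r, hpt r⟩ (hpt r) (h2 T g hT K hKc hKZ x hx))
  choose lbi hl1 hl2 hl3 hl4 using hCon
  have hnotK : ∀ v, ¬ (S v ∩ K).Nonempty → pt v ∉ K := fun v hv h => hv ⟨pt v, hpt v, h⟩
  let cc : ∀ v, ¬ (S v ∩ K).Nonempty → ι := fun v hv => ⟨cmp (gph T) Kᶜ (pt v), pt v, hnotK v hv, rfl⟩
  have hcc : ∀ v (hv : ¬ (S v ∩ K).Nonempty), S v ⊆ (cc v hv).1 := fun v hv =>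
    sub_of_meets (hS.conn v) hv ⟨pt v, hpt v, mem_cmp_self (hnotK v hv)⟩
  -- a string inside a component determines it
  have huniq : ∀ (i : ι) (v : V), S v ⊆ i.1 → ∃ hv : ¬ (S v ∩ K).Nonempty, cc v hv = i := by
    rintro ⟨D, x, hx, rfl⟩ v hv
    have hv' : ¬ (S v ∩ K).Nonempty := fun h => not_sub h hv
    refine ⟨hv', ?_⟩
    apply Subtype.ext
    exact cmp_eq (hv (hpt v))
  let lb : V → V := fun v => if h : (S v ∩ K).Nonempty then r else lbi (cc v h) v
  have lb1 : ∀ v, (S v ∩ K).Nonempty → lb v = r := fun v h => dif_pos h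
  have lb2 : ∀ (i : ι) (v : V), S v ⊆ i.1 → lb v = lbi i v := by
    intro i v hv
    obtain ⟨hv', rfl⟩ := huniq i v hv
    exact dif_neg hv'
  refine ⟨lb, ?_, ?_⟩
  · intro i j
    by_cases hi : (S i ∩ K).Nonempty
    · -- only strings meeting K
      have hsub : {v | lb v = i ∧ ly v = j} ⊆ {v | (S v ∩ K).Nonempty ∧ ly v = j} := by
        rintro v ⟨hv1, hv2⟩
        refine ⟨?_, hv2⟩
        by_contra hv
        have h5 := hl2 (cc v hv) v (hcc v hv)
        rw [← lb2 (cc v hv) v (hcc v hv), hv1] at h5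
        exact not_sub hi h5
      refine (Set.ncard_le_ncard hsub (Set.toFinite _)).trans ((hKw j).trans ?_)
      exact Nat.mul_le_mul_right _ (by omega)
    · have hsub : {v | lb v = i ∧ ly v = j} ⊆
          {v | S v ⊆ (cc i hi).1 ∧ lbi (cc i hi) v = i ∧ ly v = j} := by
        rintro v ⟨hv1, hv2⟩
        have hv : ¬ (S v ∩ K).Nonempty := by
          intro h
          rw [lb1 v h] at hv1
          exact hi (hv1 ▸ hrne)
        have h5 := hl2 (cc v hv) v (hcc v hv)
        rw [← lb2 (cc v hv) v (hcc v hv), hv1] at h5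
        obtain ⟨hi', h6⟩ := huniq (cc v hv) i h5
        have h7 : S v ⊆ (cc i hi).1 := by
          rw [h6]
          exact hcc v hv
        refine ⟨h7, ?_, hv2⟩
        rw [← lb2 _ v h7]
        exact hv1
      refine (Set.ncard_le_ncard hsub (Set.toFinite _)).trans ((hl3 (cc i hi) i j).trans ?_)
      exact Nat.mul_le_mul_right _ (by omega)
  · refine h4 (ι := ι) G _ lb {v | (S v ∩ K).Nonempty} {r} {r} Set.univ
      (fun i => {v | S v ⊆ i.1}) (fun i => pk S i.1 (e0 S K r)) lbi hl4 ?_ ?_ ?_ ?_ ?_ ?_ ?_ ?_ ?_ ?_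
    · rintro ⟨D, x, hx, rfl⟩ w ⟨v, ⟨hv1, hv2⟩, rfl⟩
      have : (S v ∩ K).Nonempty := by
        by_contra h
        exact hv1 (sub_of_meets (hS.conn v) h hv2)
      show e0 S K r v = r
      unfold e0
      rw [if_pos this]
    · rintro ⟨D, x, hx, rfl⟩
      rw [Set.disjoint_singleton_left]
      exact not_sub hrne
    · intro i j hij
      rw [Set.disjoint_left]
      intro v hv hv'
      obtain ⟨a1, a2⟩ := huniq i v hv
      obtain ⟨b1, b2⟩ := huniq j v hv'
      exact hij (a2.symm.trans b2)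
    · intro i u hu v huv
      refine ⟨lb2 i u hu, ?_⟩
      by_cases hv : (S v ∩ K).Nonempty
      · rw [lb1 v hv]
        have : ¬ S v ⊆ i.1 := by
          obtain ⟨D, x, hx, rfl⟩ := i
          exact not_sub hv
        rw [hl1 i v this]
        unfold e0
        rw [if_pos hv]
      · apply lb2
        obtain ⟨D, x, hx, rfl⟩ := i
        obtain ⟨y, hy1, hy2⟩ := (hS.adj u v huv.ne).1 huv
        exact sub_of_meets (hS.conn v) hv ⟨y, hy2, hu hy1⟩
    · rw [Set.encard_singleton]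
      exact_mod_cast Nat.le_add_left 1 _
    · exact subset_rfl
    · intro x hx
      exact Or.inl hx
    · intro i v _
      exact Set.mem_univ _
    · intro u _
      by_cases hu : (S u ∩ K).Nonempty
      · exact Or.inl hu
      · exact Or.inr ⟨cc u hu, hcc u hu⟩
    · intro u hu v huv
      by_cases hv : (S v ∩ K).Nonempty
      · exact Or.inl ⟨lb1 u hu, lb1 v hv⟩
      · exact Or.inr ⟨cc v hv, hcc v hv⟩

end Pool.Agent.IM55.SG
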