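import Pool.Agent.Work.MP_55ff09_co.SG.Stmts

/-!
# MP_55ff09_co, block SG, item NEW: the state of a component of `D \ N`
-/

set_option autoImplicit false

namespace Pool.Agent.IM55.SG

open SimpleGraph Pool.Agent.IM55 Pool.Agent.IM55.PL

open Classical in
theorem i_NEW (h1 : S_RGC) (h2 : S_CRN) : S_NEW := by
  intro P V _ _ T g Δ m S ly hT hS hm D e lam nm X N q hst hcut hq x hxD hxN
  obtain ⟨hreg, hconn⟩ := h1 T g hT D N hst.reg hcut.sub hcut.conn hcut.touch x hxD hxN
  obtain ⟨⟨x₁, hx₁⟩⟩ := hcut.conn.nonempty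
  set D' := cmp (gph T) (D \ N) x with hD'
  have hsub : D' ⊆ D \ N := cmp_subset
  have hsubD : D' ⊆ D := fun y hy => (hsub hy).1
  have hdis : ∀ y ∈ D', y ∉ N := fun y hy => (hsub hy).2
  have hnb : ∀ b ∈ nbD T D', b ∈ N ∨ b ∉ D := by
    rintro b ⟨hb, d, hd, hdb⟩
    by_contra hcon
    push Not at hcon
    exact hb (cmp_adj hd ⟨hcon.2, hcon.1⟩ hdb)
  have hnb2 : ∀ b ∈ nbD T D', b ∉ D → b ∈ nbD T D := by
    rintro b ⟨-, d, hd, hdb⟩ hbD
    exact ⟨hbD, d, hsubD hd, hdb⟩
  set lam' : P → P := fun b => if b ∈ N then x₁ else lam b with hlam'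
  set nm' : P → V := fun i => if i = x₁ then q else nm i with hnm'
  set X' : P → Set V := fun i =>
    if i = x₁ then {w | ¬ S w ⊆ D ∧ (S w ∩ N).Nonempty} else X i with hX'
  have hx₁D : x₁ ∈ D := hcut.sub hx₁
  have hlN : ∀ b ∈ N, lam' b = x₁ := fun b hb => if_pos hb
  have hlD : ∀ b, b ∉ D → lam' b = lam b := fun b hb => if_neg fun h => hb (hcut.sub h)
  refine ⟨lam', nm', X', ?_⟩
  refine { reg := hreg, old := ?_, lamD := ?_, exc := ?_, card := ?_, cor := ?_ }
  · intro w hw
    unfold en
    by_cases h : S w ⊆ D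
    · rw [if_pos h]
      by_cases h' : (S w ∩ N).Nonempty
      · rw [if_pos h']
        obtain ⟨-, z, hz, hzN⟩ := hq w h h'
        exact fun hcon => hdis z (hcon hz) hzN
      · rw [if_neg h']
        exact hw
    · rw [if_neg h]
      exact fun hcon => hst.old w h (hcon.trans hsubD)
  · intro b hb
    rcases hnb b hb with h | h
    · rw [hlN b h]
      exact fun hcon => hdis x₁ hcon hx₁
    · rw [hlD b h]
      exact fun hcon => hst.lamD b (hnb2 b hb h) (hsubD hcon)
  · intro b hb w hw
    rcases hnb b hb with h | h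
    · rw [hlN b h]
      by_cases hwD : S w ⊆ D
      · left
        unfold en
        rw [if_pos hwD, if_pos ⟨b, hw, h⟩]
        exact (if_pos rfl).symm
      · right
        change w ∈ (if x₁ = x₁ then {w | ¬ S w ⊆ D ∧ (S w ∩ N).Nonempty} else X x₁)
        rw [if_pos rfl]
        exact ⟨hwD, b, hw, h⟩
    · rw [hlD b h]
      have hne : lam b ≠ x₁ := by
        intro hcon
        have := hst.lamD b (hnb2 b hb h)
        rw [hcon] at this
        exact this hx₁D
      have hwD : ¬ S w ⊆ D := fun hcon => h (hcon hw)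
      have h3 : nm' (lam b) = nm (lam b) := if_neg hne
      have h4 : X' (lam b) = X (lam b) := if_neg hne
      have h5 : en S D N q e w = e w := by
        unfold en
        rw [if_neg hwD]
      rw [h3, h4, h5]
      exact hst.exc b (hnb2 b hb h) w hw
  · intro i
    by_cases h : i = x₁
    · have h4 : X' i = {w | ¬ S w ⊆ D ∧ (S w ∩ N).Nonempty} := if_pos h
      rw [h4]
      exact hcut.old.trans hm
    · have h4 : X' i = X i := if_neg h
      rw [h4]
      exact hst.card i
  · have h3 := h2 T g hT D N D' lam lam' x₁ hst.reg hcut.sub hreg.conn hconn hsubD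
      (Set.disjoint_left.2 hdis) hnb hlN hlD
    have h4 := hcut.half x hxD hxN
    rw [← hD'] at h4
    have h5 := hst.cor
    omega

end Pool.Agent.IM55.SG
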