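import Pool.Agent.Work.MP_55ff09_co.SG.Stmts

/-!
# MP_55ff09_co, block SG, item POK: at most `5 (m + 1)` names poke into the region
-/

set_option autoImplicit false

namespace Pool.Agent.IM55.SG

open SimpleGraph Pool.Agent.IM55 Pool.Agent.IM55.PL

namespace XPOK

/-- a connected set which meets `D` and is not inside `D` contains a neighbour of `D` -/
theorem exists_nb {P : Type} (T : Finset (Finset P)) (A D : Set P)
    (hA : ((gph T).induce A).Connected) (h1 : (A ∩ D).Nonempty) (h2 : ¬ A ⊆ D) :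
    ∃ b ∈ nbD T D, b ∈ A := by
  by_contra hc
  push Not at hc
  obtain ⟨d, hdA, hdD⟩ := h1
  obtain ⟨x, hxA, hxD⟩ := Set.not_subset.1 h2
  obtain ⟨p⟩ := hA.preconnected ⟨d, hdA⟩ ⟨x, hxA⟩
  have key : ∀ (u v : A) (_ : ((gph T).induce A).Walk u v), u.1 ∈ D → v.1 ∈ D := by
    intro u v q
    induction q with
    | nil => exact id
    | @cons a b c h q ih =>
      intro hu
      apply ih
      by_contra hb
      have hadj : (gph T).Adj a.1 b.1 := h
      exact hc b.1 ⟨hb, a.1, hu, hadj⟩ b.2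
  exact hxD (key _ _ p hdD)

/-- a union of `ncard L` sets of at most `n` elements -/
theorem union_le {P V : Type} [Finite P] [Finite V] (L : Set P) (F : P → Set V) (K : Set V)
    (n : ℕ) (hK : K ⊆ {v | ∃ i ∈ L, v ∈ F i}) (hF : ∀ i, (F i).ncard ≤ n) :
    K.ncard ≤ L.ncard * n := by
  classical
  have hL : L.Finite := Set.toFinite L
  have hfin : ∀ i, (F i).Finite := fun i => Set.toFinite _
  have hKf : K.Finite := Set.toFinite K
  have h1 : hKf.toFinset ⊆ hL.toFinset.biUnion fun i => (hfin i).toFinset := by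
    intro v hv
    obtain ⟨i, hi, hvi⟩ := hK (hKf.mem_toFinset.1 hv)
    exact Finset.mem_biUnion.2 ⟨i, hL.mem_toFinset.2 hi, (hfin i).mem_toFinset.2 hvi⟩
  have h2 := (Finset.card_le_card h1).trans
    (Finset.card_biUnion_le_card_mul hL.toFinset (fun i => (hfin i).toFinset) n fun i _ => by
      rw [← Set.ncard_eq_toFinset_card (F i) (hfin i)]
      exact hF i)
  rw [← Set.ncard_eq_toFinset_card K hKf, ← Set.ncard_eq_toFinset_card L hL] at h2
  exact h2

end XPOK

open XPOK in
theorem i_POK (h1 : S_LBL) : S_POK := by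
  intro P V _ _ T g m S hT hS D e lam nm X hSt
  have hL : (lam '' nbD T D).ncard ≤ 5 := (h1 T g hT D lam hSt.reg).trans (by
    have := hSt.cor
    omega)
  have hF : ∀ i, (insert (nm i) (e '' X i)).ncard ≤ m + 1 := fun i =>
    (Set.ncard_insert_le _ _).trans
      (Nat.add_le_add_right ((Set.ncard_image_le (Set.toFinite _)).trans (hSt.card i)) 1)
  refine (union_le (lam '' nbD T D) (fun i => insert (nm i) (e '' X i)) (pk S D e) (m + 1) ?_
    hF).trans (Nat.mul_le_mul_right _ hL)
  rintro v ⟨w, ⟨hw1, hw2⟩, rfl⟩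
  obtain ⟨b, hb, hbw⟩ := exists_nb T (S w) D (hS w) hw2 hw1
  refine ⟨lam b, ⟨b, hb, rfl⟩, ?_⟩
  rcases hSt.exc b hb w hbw with h | h
  · exact Or.inl h
  · exact Or.inr ⟨w, h, rfl⟩

end Pool.Agent.IM55.SG
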