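import Pool.Agent.Work.MP_55ff09_co.SG.Stmts
import Pool.Agent.Work.MP_55ff09_co.PL.I_PRD

/-!
# MP_55ff09_co, block SG, item PR2: product structure from the labels
-/

set_option autoImplicit false

namespace Pool.Agent.IM55.SG

open SimpleGraph Pool.Agent.IM55 Pool.Agent.IM55.PL

theorem i_PR2 : S_PR2 := by
  classical
  intro V _ G c W ly lb hlay hwid hT
  obtain ⟨num, hnum⟩ := PL.XPRD.exists_num c ly lb hwid
  obtain ⟨k, hk⟩ : ∃ k, ∀ v, ly v < k := by
    obtain ⟨b, hb⟩ := (Set.finite_range ly).bddAbove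
    exact ⟨b + 1, fun v => Nat.lt_succ_of_le (hb ⟨v, rfl⟩)⟩
  refine ⟨V × Fin c, PL.XPRD.JB (qG G lb) c, k, fun v => ((lb v, num v), ⟨ly v, hk v⟩),
    PL.XPRD.tw _ _ _ hT, ?_, ?_⟩
  · intro u v h
    simp only [Prod.mk.injEq, Fin.mk.injEq] at h
    exact hnum u v h.1.1 h.2 h.1.2
  · intro u v huv
    refine ⟨?_, ?_⟩
    · by_cases h : ((lb u, num u) : V × Fin c) = (lb v, num v)
      · exact Or.inl h
      · refine Or.inr ⟨h, ?_⟩
        by_cases h' : lb u = lb v
        · exact Or.inl h'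
        · refine Or.inr ?_
          show (qG G lb).Adj (lb u) (lb v)
          rw [qG, SimpleGraph.fromRel_adj]
          exact ⟨h', Or.inl ⟨u, v, rfl, rfl, huv⟩⟩
    · have h1 := hlay u v huv
      have h2 := hlay v u huv.symm
      show (⟨ly u, hk u⟩ : Fin k) = ⟨ly v, hk v⟩ ∨
        (SimpleGraph.pathGraph k).Adj ⟨ly u, hk u⟩ ⟨ly v, hk v⟩
      rw [SimpleGraph.pathGraph_adj, Fin.mk.injEq]
      simp only
      omega

end Pool.Agent.IM55.SG
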