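import Pool.Agent.Work.MP_55ff09_co.SG.Stmts
import Pool.Agent.Work.Tools.GridThm.T0

/-!
# MP_55ff09_co, block SG, item PRE (helper46)
-/

set_option autoImplicit false

namespace Pool.Agent.IM55.SG

open SimpleGraph Pool.Agent.IM55 Pool.Agent.IM55.PL

namespace XPRE

variable {Y S V : Type}

/-- The nodes of the pieces. -/
def TT (Y S : Type) : Option S → Type
  | none => Y
  | some _ => Unit

/-- The trees of the pieces. -/
def tt (t : SimpleGraph Y) : ∀ o : Option S, SimpleGraph (TT Y S o)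
  | none => t
  | some _ => (⊥ : SimpleGraph Unit)

/-- The roots of the pieces. -/
def rt (ρ : Y) : ∀ o : Option S, TT Y S o
  | none => ρ
  | some _ => ()

/-- The parts. -/
def bg (bag : Y → Set V) (f : S → V) : Option (Σ o : Option S, TT Y S o) → Set V
  | none => ∅
  | some ⟨none, y⟩ => bag y
  | some ⟨some s, _⟩ => {f s}

theorem tt_tree {t : SimpleGraph Y} (ht : t.IsTree) (o : Option S) : (tt t o).IsTree := by
  rcases o with _ | s
  · exact ht
  · show (⊥ : SimpleGraph Unit).IsTree
    refine ⟨⟨fun a b => ?_⟩, SimpleGraph.isAcyclic_bot⟩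
    exact SimpleGraph.Reachable.refl _

theorem adj_none (t : SimpleGraph Y) (ρ : Y) {x y : Y} (h : t.Adj x y) :
    (Pool.Agent.GridThm.glue (tt (S := S) t) (rt ρ)).Adj (some ⟨none, x⟩) (some ⟨none, y⟩) := by
  rw [Pool.Agent.GridThm.glue, SimpleGraph.fromRel_adj]
  refine ⟨?_, Or.inl (Or.inr ⟨none, x, y, rfl, rfl, h⟩)⟩
  intro hh
  simp only [Option.some.injEq, Sigma.mk.injEq, heq_eq_eq, true_and] at hh
  exact h.ne hh

end XPRE

open XPRE in
theorem i_PRE : S_PRE := by
  intro V G w Root lb h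
  obtain ⟨Y, t, ρ, bag, h1, h2, h3, h4, h5, h6⟩ := h
  let S : Type := {i : V // ∀ y, i ∉ bag y}
  let f : S → V := Subtype.val
  refine ⟨Option (Σ o : Option S, TT Y S o), Pool.Agent.GridThm.glue (tt t) (rt ρ), bg bag f,
    Pool.Agent.GridThm.T0 _ _ _ _ (tt_tree h1), ?_, ?_, ?_⟩
  · intro i
    by_cases hi : ∃ y, i ∈ bag y
    · have hc : (t.induce {y | i ∈ bag y}).Connected := by
        have : Nonempty ↑{y | i ∈ bag y} := by
          obtain ⟨y, hy⟩ := hi
          exact ⟨⟨y, hy⟩⟩
        exact ⟨h2 i⟩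
      let φ : (t.induce {y | i ∈ bag y}) →g
          (Pool.Agent.GridThm.glue (tt (S := S) t) (rt ρ)).induce {x | i ∈ bg bag f x} :=
        { toFun := fun x => ⟨some ⟨none, x.1⟩, x.2⟩
          map_rel' := by
            intro x y hxy
            exact adj_none t ρ hxy }
      refine hc.map φ ?_
      rintro ⟨x, hx⟩
      rcases x with _ | ⟨_ | s, y⟩
      · exact absurd hx (Set.notMem_empty i)
      · exact ⟨⟨y, hx⟩, rfl⟩
      · exfalso
        have e : i = s.1 := hx
        obtain ⟨y', hy'⟩ := hi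
        rw [e] at hy'
        exact s.2 y' hy'
    · push Not at hi
      have hne : Nonempty ↑{x | i ∈ bg bag f x} := ⟨⟨some ⟨some ⟨i, hi⟩, ()⟩, rfl⟩⟩
      have hsub : Subsingleton ↑{x | i ∈ bg bag f x} := by
        constructor
        have key : ∀ x : ↑{x | i ∈ bg bag f x}, x = ⟨some ⟨some ⟨i, hi⟩, ()⟩, rfl⟩ := by
          rintro ⟨x, hx⟩
          apply Subtype.ext
          rcases x with _ | ⟨_ | s, y⟩
          · exact absurd hx (Set.notMem_empty i)
          · exact absurd hx (hi y)
          · have e : i = s.1 := hx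
            have e2 : s = ⟨i, hi⟩ := Subtype.ext e.symm
            subst e2
            rfl
        intro a b
        rw [key a, key b]
      refine ⟨fun a b => ?_⟩
      rw [Subsingleton.elim a b]
  · intro a b hab
    rw [qG, SimpleGraph.fromRel_adj] at hab
    obtain ⟨-, ⟨u, v, rfl, rfl, huv⟩ | ⟨u, v, rfl, rfl, huv⟩⟩ := hab
    · obtain ⟨y, hy1, hy2⟩ := h5 u v trivial huv
      exact ⟨some ⟨none, y⟩, hy1, hy2⟩
    · obtain ⟨y, hy1, hy2⟩ := h5 u v trivial huv
      exact ⟨some ⟨none, y⟩, hy2, hy1⟩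
  · intro x
    rcases x with _ | ⟨_ | s, y⟩
    · show (∅ : Set V).encard ≤ _
      simp
    · have := h6 y
      push_cast at this
      exact this
    · show ({f s} : Set V).encard ≤ _
      rw [Set.encard_singleton]
      exact le_add_self

end Pool.Agent.IM55.SG
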