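import Pool.Agent.Work.MP_55ff09_co.SG.Stmts

/-! MP_55ff09_co, block SG: item PTH (a 1-chain joining two points of a connected set), helper64. -/

set_option autoImplicit false

namespace Pool.Agent.IM55.SG

open SimpleGraph Pool.Agent.IM55 Pool.Agent.IM55.PL

namespace XPTH

theorem d1_dl {P : Type} [Fintype P] (x y : P) (h : x ≠ y) :
    d1 (dl s(x, y)) = (dl x + dl y : P → ZMod 2) := by
  classical
  funext z
  show ∑ w, dl s(x, y) s(z, w) = dl x z + dl y z
  by_cases hx : z = x
  · subst hx
    have h1 : ∀ w, (dl s(z, y) s(z, w) : ZMod 2) = if w = y then 1 else 0 := by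
      intro w
      unfold dl
      congr 1
      rw [Sym2.eq_iff]
      apply propext
      constructor
      · rintro (⟨_, h2⟩ | ⟨h2, _⟩)
        · exact h2
        · exact absurd h2 h
      · intro h2
        exact Or.inl ⟨rfl, h2⟩
    rw [Finset.sum_congr rfl fun w _ => h1 w, Finset.sum_ite_eq']
    simp [dl, h]
  · by_cases hy : z = y
    · subst hy
      have h1 : ∀ w, (dl s(x, z) s(z, w) : ZMod 2) = if w = x then 1 else 0 := by
        intro w
        unfold dl
        congr 1
        rw [Sym2.eq_iff]
        apply propext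
        constructor
        · rintro (⟨h2, _⟩ | ⟨_, h2⟩)
          · exact absurd h2 hx
          · exact h2
        · intro h2
          exact Or.inr ⟨rfl, h2⟩
      rw [Finset.sum_congr rfl fun w _ => h1 w, Finset.sum_ite_eq']
      simp [dl, hx]
    · have h1 : ∀ w, (dl s(x, y) s(z, w) : ZMod 2) = 0 := by
        intro w
        unfold dl
        rw [if_neg]
        rw [Sym2.eq_iff]
        rintro (⟨h2, _⟩ | ⟨h2, _⟩)
        · exact hx h2
        · exact hy h2
      rw [Finset.sum_congr rfl fun w _ => h1 w, Finset.sum_const_zero]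
      simp [dl, hx, hy]

theorem walk {P : Type} [Fintype P] (T : Finset (Finset P)) (A : Set P) {u v : A}
    (p : ((gph T).induce A).Walk u v) :
    ∃ a ∈ sp (EE T A), d1 a = (dl (u : P) + dl (v : P) : P → ZMod 2) := by
  induction p with
  | nil =>
    refine ⟨0, Submodule.zero_mem _, ?_⟩
    rw [map_zero]
    funext z
    exact (CharTwo.add_self_eq_zero _).symm
  | @cons u v w h p ih =>
    obtain ⟨a, ha, had⟩ := ih
    have hadj : (gph T).Adj (u : P) (v : P) := h
    refine ⟨dl s((u : P), (v : P)) + a, Submodule.add_mem _ ?_ ha, ?_⟩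
    · intro i hi
      have hi' : i = s((u : P), (v : P)) := by
        by_contra hne
        exact hi (if_neg hne)
      subst hi'
      refine ⟨(SimpleGraph.mem_edgeSet _).2 hadj, ?_⟩
      intro x hx
      rcases Sym2.mem_iff.1 hx with rfl | rfl
      · exact u.2
      · exact v.2
    · rw [map_add, d1_dl _ _ hadj.ne, had]
      funext z
      simp only [Pi.add_apply]
      have := CharTwo.add_self_eq_zero (dl (v : P) z : ZMod 2)
      linear_combination this

end XPTH

theorem i_PTH : S_PTH := by
  intro P _ T A hA x hx y hy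
  obtain ⟨p⟩ := hA ⟨x, hx⟩ ⟨y, hy⟩
  exact XPTH.walk T A p

end Pool.Agent.IM55.SG
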