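import Pool.Agent.Work.MP_55ff09_co.SG.Stmts

set_option autoImplicit false

namespace Pool.Agent.IM55.SG

open SimpleGraph Pool.Agent.IM55 Pool.Agent.IM55.PL

namespace XRG0

theorem conn_univ {P : Type} {G : SimpleGraph P} (h : G.Connected) :
    (G.induce (Set.univ : Set P)).Connected :=
  (SimpleGraph.induceUnivIso G).connected_iff.mpr h

theorem sp_mono {ι : Type} {X Y : Set ι} (h : X ⊆ Y) : sp X ≤ sp Y :=
  fun _ ha i hi => h (ha i hi)

theorem EE_mono {P : Type} (T : Finset (Finset P)) {A B : Set P} (h : A ⊆ B) :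
    EE T A ⊆ EE T B := fun _ he => ⟨he.1, fun x hx => h (he.2 x hx)⟩

theorem Z_mono {P : Type} [Fintype P] (T : Finset (Finset P)) {A B : Set P} (h : A ⊆ B) :
    Z T A ≤ Z T B := inf_le_inf_right _ (sp_mono (EE_mono T h))

end XRG0

theorem i_RG0 (h1 : S_CPL) : S_RG0 := by
  intro P _ T g hS K hK hZ x hx
  have hxc : x ∈ Kᶜ := hx
  refine ⟨cmp_connected hxc, ?_, ?_⟩
  · have h := h1 (gph T) Set.univ K (XRG0.conn_univ hS.conn) hK (Set.subset_univ _) x
      (Set.mem_univ _) hx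
    rw [← Set.compl_eq_univ_sdiff, ← Set.compl_eq_univ_sdiff] at h
    exact h
  · refine hZ.trans (sup_le_sup_right (XRG0.Z_mono T ?_) _)
    intro y hy hy'
    exact cmp_subset hy' hy

end Pool.Agent.IM55.SG
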