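import Pool.Agent.Work.MP_55ff09_co.SG.Stmts

/-!
# MP_55ff09_co, block SG, item RGC: components of `D \ N` are regions
-/

set_option autoImplicit false

namespace Pool.Agent.IM55.SG

open SimpleGraph Pool.Agent.IM55 Pool.Agent.IM55.PL

namespace XRGC

theorem Z_mono {P : Type} [Fintype P] (T : Finset (Finset P)) {A A' : Set P} (h : A ⊆ A') :
    Z T A ≤ Z T A' := by
  intro a ha
  obtain ⟨ha1, ha2⟩ := Submodule.mem_inf.1 ha
  refine Submodule.mem_inf.2 ⟨?_, ha2⟩
  intro i hi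
  obtain ⟨h1, h2⟩ := ha1 i hi
  exact ⟨h1, fun x hx => h (h2 x hx)⟩

theorem compl_eq {P : Type} (D N : Set P) : D \ N = (Dᶜ ∪ N)ᶜ := by
  ext y
  simp only [Set.mem_sdiff, Set.mem_compl_iff, Set.mem_union, not_or, not_not]

end XRGC

theorem i_RGC (h1 : S_RG0) (h2 : S_CPL) : S_RGC := by
  intro P _ T g hT D N hD hND hN htouch x hxD hxN
  refine ⟨?_, h2 (gph T) D N hD.conn hN hND x hxD hxN⟩
  rw [XRGC.compl_eq D N]
  refine h1 T g hT _ (conn_union hD.cconn hN htouch.symm) ?_ x ?_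
  · exact hD.hom.trans (sup_le_sup_right (XRGC.Z_mono T Set.subset_union_left) _)
  · rintro (h | h)
    · exact h hxD
    · exact hxN h

end Pool.Agent.IM55.SG
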