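import Pool.Agent.Work.MP_55ff09_co.SG.Stmts

/-!
# MP_55ff09_co, block SG, item SEP: the separation lemma
-/

set_option autoImplicit false

namespace Pool.Agent.IM55.SG

open SimpleGraph Pool.Agent.IM55 Pool.Agent.IM55.PL

theorem i_SEP (h1 : S_SP1) (h2 : S_SP2) : S_SEP := by
  intro P _ T g hT D hD Pi hPi ι M pos hpos
  by_cases hM : M.Nonempty
  · by_contra hcon
    push Not at hcon
    obtain ⟨B, K, hB, hK⟩ := h1 T D hD.conn Pi M pos hM hpos (fun t ht hx => by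
      obtain ⟨y, hy1, hy2, hy3⟩ := hcon t ht hx
      exact ⟨y, hy1, hy2, hy3⟩)
    exact h2 T g hT D hD Pi hPi B K hB hK
  · rw [Finset.not_nonempty_iff_eq_empty] at hM
    obtain ⟨⟨x, hx⟩⟩ := hD.conn.nonempty
    obtain ⟨t, ht, hxt⟩ := hT.cover x
    refine ⟨t, ht, ⟨x, hxt, hx⟩, fun y _ _ => ?_⟩
    have : {i | i ∈ M ∧ pos i ∈ cmp (gph T) (D \ nn Pi D ↑t) y} = ∅ := by
      ext i
      simp [hM]
    rw [this]
    simp

end Pool.Agent.IM55.SG
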