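import Pool.Agent.Work.MP_55ff09_co.SG.Stmts

/-!
# MP_55ff09_co, block SG: item SP1 (big components)
-/

set_option autoImplicit false

namespace Pool.Agent.IM55.SG.XSP1

open SimpleGraph Pool.Agent.IM55 Pool.Agent.IM55.PL Pool.Agent.IM55.SG

variable {P : Type} {ι : Type}

/-- the marks in a component -/
def Mk (T : Finset (Finset P)) (D : Set P) (Pi : P → Set P) (M : Finset ι) (pos : ι → P)
    (A : Set P) (y : P) : Set ι :=
  {i | i ∈ M ∧ pos i ∈ cmp (gph T) (D \ nn Pi D A) y}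

/-- big points -/
def Big (T : Finset (Finset P)) (D : Set P) (Pi : P → Set P) (M : Finset ι) (pos : ι → P)
    (A : Set P) (y : P) : Prop :=
  y ∈ D ∧ y ∉ nn Pi D A ∧ M.card < 2 * (Mk T D Pi M pos A y).ncard

theorem Mk_sub (T : Finset (Finset P)) (D : Set P) (Pi : P → Set P) (M : Finset ι) (pos : ι → P)
    (A : Set P) (y : P) : Mk T D Pi M pos A y ⊆ (M : Set ι) := fun _ h => h.1

theorem Mk_fin (T : Finset (Finset P)) (D : Set P) (Pi : P → Set P) (M : Finset ι) (pos : ι → P)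
    (A : Set P) (y : P) : (Mk T D Pi M pos A y).Finite :=
  M.finite_toSet.subset (Mk_sub T D Pi M pos A y)

theorem big_cmp {T : Finset (Finset P)} {D : Set P} {Pi : P → Set P} {M : Finset ι} {pos : ι → P}
    {A : Set P} {x y : P} (hx : Big T D Pi M pos A x) (hy : Big T D Pi M pos A y) :
    x ∈ cmp (gph T) (D \ nn Pi D A) y := by
  by_contra hxy
  have hdis : Disjoint (Mk T D Pi M pos A x) (Mk T D Pi M pos A y) := by
    rw [Set.disjoint_left]
    intro i hi hi'
    exact hxy (cmp_trans hi'.2 (cmp_symm hi.2))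
  have h1 := Set.ncard_union_eq hdis (Mk_fin T D Pi M pos A x) (Mk_fin T D Pi M pos A y)
  have h2 : (Mk T D Pi M pos A x ∪ Mk T D Pi M pos A y).ncard ≤ (M : Set ι).ncard :=
    Set.ncard_le_ncard (Set.union_subset (Mk_sub ..) (Mk_sub ..)) M.finite_toSet
  rw [Set.ncard_coe_finset] at h2
  have h3 := hx.2.2
  have h4 := hy.2.2
  omega

theorem nn_mono {Pi : P → Set P} {D A A' : Set P} (h : A ⊆ A') : nn Pi D A ⊆ nn Pi D A' := by
  rintro z ⟨x, h1, h2, h3⟩
  exact ⟨x, h h1, h2, h3⟩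

theorem cmp_mono {G : SimpleGraph P} {A A' : Set P} (h : A ⊆ A') {y : P} (hy : y ∈ A) :
    cmp G A y ⊆ cmp G A' y :=
  subset_cmp (cmp_connected hy) (mem_cmp_self hy) (cmp_subset.trans h)

theorem big_mono {T : Finset (Finset P)} {D : Set P} {Pi : P → Set P} {M : Finset ι} {pos : ι → P}
    {A A' : Set P} (h : A ⊆ A') {y : P} (hy : Big T D Pi M pos A' y) : Big T D Pi M pos A y := by
  refine ⟨hy.1, fun h' => hy.2.1 (nn_mono h h'), lt_of_lt_of_le hy.2.2 ?_⟩
  refine Nat.mul_le_mul_left 2 (Set.ncard_le_ncard ?_ (Mk_fin T D Pi M pos A y))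
  rintro i ⟨h1, h2⟩
  exact ⟨h1, cmp_mono (Set.sdiff_subset_sdiff_right (nn_mono h)) ⟨hy.1, hy.2.1⟩ h2⟩

theorem big_all {T : Finset (Finset P)} {D : Set P} (hD : ((gph T).induce D).Connected)
    {Pi : P → Set P} {M : Finset ι} {pos : ι → P} (hM : M.Nonempty) (hpos : ∀ i ∈ M, pos i ∈ D)
    {A : Set P} (hA : ∀ x ∈ A, x ∉ D) {y : P} (hy : y ∈ D) : Big T D Pi M pos A y := by
  have h0 : nn Pi D A = ∅ := by
    ext z
    constructor
    · rintro ⟨x, h1, h2, -⟩
      exact (hA x h1 h2).elim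
    · intro h
      exact h.elim
  have h1 : Mk T D Pi M pos A y = (M : Set ι) := by
    apply Set.Subset.antisymm (Mk_sub ..)
    intro i hi
    refine ⟨hi, ?_⟩
    rw [h0, Set.sdiff_empty]
    exact subset_cmp hD hy (fun _ h => h) (hpos i hi)
  refine ⟨hy, ?_, ?_⟩
  · rw [h0]
    exact fun h => h.elim
  · rw [h1, Set.ncard_coe_finset]
    have := hM.card_pos
    omega

theorem big_set {T : Finset (Finset P)} {D : Set P} {Pi : P → Set P} {M : Finset ι} {pos : ι → P}
    {A : Set P} {y : P} (hy : Big T D Pi M pos A y) :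
    {z | Big T D Pi M pos A z} = cmp (gph T) (D \ nn Pi D A) y := by
  apply Set.Subset.antisymm
  · intro z hz
    exact big_cmp hz hy
  · intro z hz
    have h1 := cmp_subset hz
    refine ⟨h1.1, h1.2, ?_⟩
    have h2 : Mk T D Pi M pos A z = Mk T D Pi M pos A y := by
      unfold Mk
      rw [cmp_eq hz]
    rw [h2]
    exact hy.2.2

end Pool.Agent.IM55.SG.XSP1

namespace Pool.Agent.IM55.SG

open SimpleGraph Pool.Agent.IM55 Pool.Agent.IM55.PL XSP1

theorem i_SP1 : S_SP1 := by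
  intro P _ T D hD Pi ι M pos hM hpos hbig
  classical
  have hne : D.Nonempty := by
    obtain ⟨z⟩ := hD.nonempty
    exact ⟨z.1, z.2⟩
  obtain ⟨z0, hz0⟩ := hne
  have hK : ∀ t ∈ T, ∃ y, Big T D Pi M pos ↑t y := by
    intro t ht
    by_cases h : ∃ x ∈ t, x ∈ D
    · obtain ⟨y, h1, h2, h3⟩ := hbig t ht h
      exact ⟨y, h1, h2, h3⟩
    · push Not at h
      exact ⟨z0, big_all hD hM hpos h hz0⟩
  refine ⟨fun e => {z | Big T D Pi M pos {x | x ∈ e} z},
    fun t => if h : ∃ y, Big T D Pi M pos ↑t y then h.choose else z0, ?_, ?_⟩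
  · intro e
    refine ⟨?_, fun z hz => hz.1, ?_⟩
    · by_cases h : ∃ y, Big T D Pi M pos {x | x ∈ e} y
      · obtain ⟨y, hy⟩ := h
        change (induce {z | Big T D Pi M pos {x | x ∈ e} z} (gph T)).Preconnected
        rw [big_set hy]
        have hy' : y ∈ D \ nn Pi D {x | x ∈ e} := ⟨hy.1, hy.2.1⟩
        exact (cmp_connected hy').preconnected
      · intro a
        exact (h ⟨a.1, a.2⟩).elim
    · intro x hx hxD
      rw [Set.disjoint_left]
      intro z hz hz'
      exact hz.2.1 ⟨x, hx, hxD, hz'⟩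
  · intro t ht
    have h := hK t ht
    have hs := h.choose_spec
    dsimp only
    rw [dif_pos h]
    refine ⟨hs.1, fun x hx hxD hz' => hs.2.1 ⟨x, hx, hxD, hz'⟩, ?_⟩
    intro x hx y hy _
    refine big_mono ?_ hs
    intro z hz
    rcases Sym2.mem_iff.1 hz with rfl | rfl
    · exact hx
    · exact hy

end Pool.Agent.IM55.SG
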