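import Pool.Agent.Work.MP_55ff09_co.SG.Stmts

/-!
# MP_55ff09_co, block SG: item SP2, the parity contradiction
-/

set_option autoImplicit false

namespace Pool.Agent.IM55.SG

open SimpleGraph Pool.Agent.IM55 Pool.Agent.IM55.PL

namespace XSP2

theorem dl_self {ι : Type} (i : ι) : dl i i = 1 := by
  unfold dl
  rw [if_pos rfl]

theorem dl_ne {ι : Type} {i j : ι} (h : j ≠ i) : dl i j = 0 := by
  unfold dl
  rw [if_neg h]

theorem dl_ne_zero {ι : Type} {i j : ι} (h : dl i j ≠ 0) : j = i := by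
  by_contra h1
  exact h (dl_ne h1)

theorem d1_dl {P : Type} [Fintype P] {x y : P} (h : x ≠ y) :
    d1 (dl s(x, y)) = (dl x + dl y : P → ZMod 2) := by
  classical
  funext z
  change ∑ w, dl s(x, y) s(z, w) = dl x z + dl y z
  by_cases hzx : z = x
  · subst hzx
    rw [Finset.sum_eq_single y, dl_self, dl_self, dl_ne h, add_zero]
    · intro w _ hw
      refine dl_ne fun h1 => ?_
      rcases Sym2.eq_iff.1 h1 with ⟨_, h2⟩ | ⟨h2, _⟩
      · exact hw h2
      · exact h h2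
    · intro h1
      exact absurd (Finset.mem_univ _) h1
  · by_cases hzy : z = y
    · subst hzy
      rw [Finset.sum_eq_single x, dl_self, dl_ne hzx, Sym2.eq_swap, dl_self, zero_add]
      · intro w _ hw
        refine dl_ne fun h1 => ?_
        rcases Sym2.eq_iff.1 h1 with ⟨h2, _⟩ | ⟨_, h2⟩
        · exact hzx h2
        · exact hw h2
      · intro h1
        exact absurd (Finset.mem_univ _) h1
    · rw [dl_ne hzx, dl_ne hzy, add_zero]
      refine Finset.sum_eq_zero fun w _ => dl_ne fun h1 => ?_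
      rcases Sym2.eq_iff.1 h1 with ⟨h2, _⟩ | ⟨h2, _⟩
      · exact hzx h2
      · exact hzy h2

theorem mem_three {P : Type} {t : Finset P} (hc : t.card = 3) {x y z : P} (hx : x ∈ t)
    (hy : y ∈ t) (hz : z ∈ t) (hxy : x ≠ y) (hyz : y ≠ z) (hxz : x ≠ z) {u : P} (hu : u ∈ t) :
    u = x ∨ u = y ∨ u = z := by
  classical
  have h1 : ({x, y, z} : Finset P) ⊆ t := by
    intro w hw
    rw [Finset.mem_insert, Finset.mem_insert, Finset.mem_singleton] at hw
    rcases hw with rfl | rfl | rfl <;> assumption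
  have h2 : ({x, y, z} : Finset P).card = 3 := Finset.card_eq_three.2 ⟨x, y, z, hxy, hxz, hyz, rfl⟩
  have h3 : ({x, y, z} : Finset P) = t := Finset.eq_of_subset_of_card_le h1 (by rw [hc, h2])
  rw [← h3, Finset.mem_insert, Finset.mem_insert, Finset.mem_singleton] at hu
  exact hu

theorem d2_dl {P : Type} [Fintype P] {T : Finset (Finset P)} {t : Finset P} (ht : t ∈ T)
    (hc : t.card = 3) {x y z : P} (hx : x ∈ t)
    (hy : y ∈ t) (hz : z ∈ t) (hxy : x ≠ y) (hyz : y ≠ z) (hxz : x ≠ z) :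
    d2 T (dl t) = (dl s(x, y) + dl s(y, z) + dl s(x, z) : Sym2 P → ZMod 2) := by
  have v1 : dl s(x, y) s(x, y) + dl s(y, z) s(x, y) + dl s(x, z) s(x, y) = 1 := by
    rw [dl_self, dl_ne (i := s(y, z)), dl_ne (i := s(x, z)), add_zero, add_zero]
    · intro h
      rcases Sym2.eq_iff.1 h with ⟨_, h2⟩ | ⟨h2, _⟩
      · exact hyz h2
      · exact hxz h2
    · intro h
      rcases Sym2.eq_iff.1 h with ⟨h2, _⟩ | ⟨h2, _⟩
      · exact hxy h2
      · exact hxz h2
  have v2 : dl s(x, y) s(y, z) + dl s(y, z) s(y, z) + dl s(x, z) s(y, z) = 1 := by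
    rw [dl_self, dl_ne (i := s(x, y)), dl_ne (i := s(x, z)), add_zero, zero_add]
    · intro h
      rcases Sym2.eq_iff.1 h with ⟨h2, _⟩ | ⟨h2, _⟩
      · exact hxy h2.symm
      · exact hyz h2
    · intro h
      rcases Sym2.eq_iff.1 h with ⟨h2, _⟩ | ⟨_, h2⟩
      · exact hxy h2.symm
      · exact hxz h2.symm
  have v3 : dl s(x, y) s(x, z) + dl s(y, z) s(x, z) + dl s(x, z) s(x, z) = 1 := by
    rw [dl_self, dl_ne (i := s(x, y)), dl_ne (i := s(y, z)), zero_add, zero_add]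
    · intro h
      rcases Sym2.eq_iff.1 h with ⟨h2, _⟩ | ⟨h2, _⟩
      · exact hxy h2
      · exact hxz h2
    · intro h
      rcases Sym2.eq_iff.1 h with ⟨_, h2⟩ | ⟨h2, _⟩
      · exact hyz h2.symm
      · exact hxy h2
  funext e
  induction e using Sym2.ind with
  | _ u v =>
    change _ = dl s(x, y) s(u, v) + dl s(y, z) s(u, v) + dl s(x, z) s(u, v)
    unfold d2
    simp only [LinearMap.coe_mk, AddHom.coe_mk]
    by_cases h : u ∈ t ∧ v ∈ t ∧ u ≠ v
    · obtain ⟨hu, hv, huv⟩ := h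
      have he : s(u, v) ∈ (gph T).edgeSet := ⟨huv, t, ht, hu, hv⟩
      have hR : dl s(x, y) s(u, v) + dl s(y, z) s(u, v) + dl s(x, z) s(u, v) = 1 := by
        rcases mem_three hc hx hy hz hxy hyz hxz hu with hu' | hu' | hu' <;>
          rcases mem_three hc hx hy hz hxy hyz hxz hv with hv' | hv' | hv' <;> rw [hu', hv']
        · exact absurd (hu'.trans hv'.symm) huv
        · exact v1
        · exact v3
        · rw [Sym2.eq_swap (a := y) (b := x)]
          exact v1
        · exact absurd (hu'.trans hv'.symm) huv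
        · exact v2
        · rw [Sym2.eq_swap (a := z) (b := x)]
          exact v3
        · rw [Sym2.eq_swap (a := z) (b := y)]
          exact v2
        · exact absurd (hu'.trans hv'.symm) huv
      rw [hR, if_pos he, Finset.sum_eq_single t, dl_self]
      · intro t' _ hne
        exact dl_ne hne
      · intro h
        exfalso
        apply h
        simp only [Finset.mem_filter]
        refine ⟨ht, ?_⟩
        intro w hw
        rcases Sym2.mem_iff.1 hw with rfl | rfl <;> assumption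
    · have h0 : ∀ a b, a ∈ t → b ∈ t → a ≠ b → dl s(a, b) s(u, v) = 0 := by
        intro a b ha hb hab
        refine dl_ne fun h1 => h ?_
        rcases Sym2.eq_iff.1 h1 with ⟨h2, h3⟩ | ⟨h2, h3⟩
        · rw [h2, h3]
          exact ⟨ha, hb, hab⟩
        · rw [h2, h3]
          exact ⟨hb, ha, hab.symm⟩
      rw [h0 x y hx hy hxy, h0 y z hy hz hyz, h0 x z hx hz hxz, add_zero, add_zero]
      split_ifs with he
      · refine Finset.sum_eq_zero fun t' ht' => dl_ne fun h1 => h ?_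
        simp only [Finset.mem_filter] at ht'
        have ht2 := ht'.2
        rw [← h1]
        exact ⟨ht2 u (Sym2.mem_mk_left u v), ht2 v (Sym2.mem_mk_right u v), he.1⟩
      · rfl

theorem two_zero {ι : Type} (a : ι → ZMod 2) : a + a = 0 := by
  funext i
  exact CharTwo.add_self_eq_zero (a i)

end XSP2

open XSP2 in
theorem i_SP2 (h1 : S_FIL) (h2 : S_CST) (h3 : S_PTH) (h4 : S_DBL) : S_SP2 := by
  intro P _ T g hT D hD Q hQ B K hB hK
  classical
  obtain ⟨⟨x₀, hx₀⟩⟩ := hD.cconn.nonempty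
  have hA : ∀ x, ∃ a : Sym2 P → ZMod 2,
      (∀ e, a e ≠ 0 → e ∈ (gph T).edgeSet ∧ ∀ z ∈ e, z ∉ D ∨ (x ∈ D ∧ z ∈ Q x)) ∧
        d1 a = dl x + dl x₀ := by
    intro x
    by_cases hx : x ∈ D
    · obtain ⟨_, hxx, hcx, htx⟩ := hQ x hx
      have hc := (conn_union hcx hD.cconn htx).preconnected
      obtain ⟨a, ha, ha'⟩ := h3 T _ hc x (Or.inl hxx) x₀ (Or.inr hx₀)
      refine ⟨a, ?_, ha'⟩
      intro e he
      obtain ⟨h5, h6⟩ := ha e he
      refine ⟨h5, fun z hz => ?_⟩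
      rcases h6 z hz with h7 | h7
      · exact Or.inr ⟨hx, h7⟩
      · exact Or.inl h7
    · obtain ⟨a, ha, ha'⟩ := h3 T _ hD.cconn.preconnected x hx x₀ hx₀
      refine ⟨a, ?_, ha'⟩
      intro e he
      obtain ⟨h5, h6⟩ := ha e he
      exact ⟨h5, fun z hz => Or.inl (h6 z hz)⟩
  choose A hA1 hA2 using hA
  let Cy : Sym2 P → (Sym2 P → ZMod 2) := Sym2.lift ⟨fun x y => A x + A y + dl s(x, y), by
    intro x y
    simp only
    rw [add_comm (A x), Sym2.eq_swap]⟩
  have hCy : ∀ x y, Cy s(x, y) = A x + A y + dl s(x, y) := fun x y => rfl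
  -- a triangle
  obtain ⟨t₀, ht₀, -⟩ := hT.cover x₀
  obtain ⟨f, hf1, hf2, hf3⟩ := h1 T g hT D hD t₀ ht₀
  -- the cycles
  have hcyc : ∀ x y, (gph T).Adj x y → Cy s(x, y) ∈ Z T Set.univ := by
    intro x y hxy
    refine ⟨?_, ?_⟩
    · intro e he
      refine ⟨?_, fun _ _ => Set.mem_univ _⟩
      by_cases h5 : A x e = 0
      · by_cases h6 : A y e = 0
        · rw [hCy, Pi.add_apply, Pi.add_apply, h5, h6, add_zero, zero_add] at he
          rw [dl_ne_zero he]
          exact hxy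
        · exact (hA1 y e h6).1
      · exact (hA1 x e h5).1
    · change d1 (Cy s(x, y)) = 0
      rw [hCy, map_add, map_add, hA2, hA2, d1_dl hxy.1]
      have e1 := two_zero (dl x : P → ZMod 2)
      have e2 := two_zero (dl y : P → ZMod 2)
      have e3 := two_zero (dl x₀ : P → ZMod 2)
      calc (dl x + dl x₀ + (dl y + dl x₀) + (dl x + dl y) : P → ZMod 2)
          = (dl x + dl x) + (dl y + dl y) + (dl x₀ + dl x₀) := by abel
        _ = 0 := by rw [e1, e2, e3, add_zero, add_zero]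
  -- the filling is constant on the triangles which meet `B e`
  have hconst : ∀ x y, (gph T).Adj x y → ∀ s ∈ T, ∀ t ∈ T, (∃ z ∈ s, z ∈ B s(x, y)) →
      (∃ z ∈ t, z ∈ B s(x, y)) → f (Cy s(x, y)) s = f (Cy s(x, y)) t := by
    intro x y hxy
    obtain ⟨hB1, hB2, hB3⟩ := hB s(x, y)
    refine h2 T g hT _ _ hB1 ?_
    intro u hu v
    obtain ⟨a', ha', hd⟩ := hf1 _ (hcyc x y hxy)
    have huD : u ∈ D := hB2 hu
    have huQ : ∀ w, (w = x ∨ w = y) → w ∈ D → u ∉ Q w := by
      intro w hw hwD hu'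
      have hwe : w ∈ s(x, y) := Sym2.mem_iff.2 hw
      exact Set.disjoint_left.1 (hB3 w hwe hwD) hu hu'
    have hAz : ∀ w, (w = x ∨ w = y) → A w s(u, v) = 0 := by
      intro w hw
      by_contra h5
      rcases (hA1 w _ h5).2 u (Sym2.mem_mk_left u v) with h6 | ⟨h6, h7⟩
      · exact h6 huD
      · exact huQ w hw h6 h7
    have hdz : dl s(x, y) s(u, v) = 0 := by
      refine dl_ne fun h5 => ?_
      have h6 : u = x ∨ u = y := by
        rcases Sym2.eq_iff.1 h5 with ⟨h7, _⟩ | ⟨h7, _⟩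
        · exact Or.inl h7
        · exact Or.inr h7
      exact huQ u h6 huD (hQ u huD).2.1
    have ha'z : a' s(u, v) = 0 := by
      by_contra h5
      exact (ha' _ h5).2 u (Sym2.mem_mk_left u v) huD
    rw [hd, Pi.add_apply, hCy, Pi.add_apply, Pi.add_apply, hAz x (Or.inl rfl),
      hAz y (Or.inr rfl), hdz, ha'z, add_zero, add_zero, add_zero]
  -- the values
  let b : Sym2 P → ZMod 2 := fun e =>
    if h : ∃ τ, τ ∈ T ∧ ∃ z ∈ τ, z ∈ B e then f (Cy e) (Classical.choose h) else 0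
  have hb : ∀ x y, (gph T).Adj x y → ∀ τ ∈ T, (∃ z ∈ τ, z ∈ B s(x, y)) →
      b s(x, y) = f (Cy s(x, y)) τ := by
    intro x y hxy τ hτ hz
    have h : ∃ τ, τ ∈ T ∧ ∃ z ∈ τ, z ∈ B s(x, y) := ⟨τ, hτ, hz⟩
    have hs := Classical.choose_spec h
    change (if h : ∃ τ, τ ∈ T ∧ ∃ z ∈ τ, z ∈ B s(x, y) then
      f (Cy s(x, y)) (Classical.choose h) else 0) = _
    rw [dif_pos h]
    exact hconst x y hxy _ hs.1 τ hτ hs.2 hz
  have hτ : ∀ t, ∃ τ, t ∈ T → τ ∈ T ∧ K t ∈ τ := by
    intro t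
    obtain ⟨τ, h5, h6⟩ := hT.cover (K t)
    exact ⟨τ, fun _ => ⟨h5, h6⟩⟩
  choose τ hτ using hτ
  have hne : ∀ t ∈ T, τ t ≠ t := by
    intro t ht h5
    have h6 := (hτ t ht).2
    rw [h5] at h6
    obtain ⟨h7, h8, _⟩ := hK t ht
    exact h8 _ h6 h7 (hQ _ h7).2.1
  have hsum := h4 T g hT b (fun t => f (d2 T (dl t)) (τ t)) ?_
  · rw [Finset.sum_eq_single_of_mem t₀ ht₀] at hsum
    · rw [hf3 _ (hτ t₀ ht₀).1, dl_ne (hne t₀ ht₀), add_zero] at hsum
      exact one_ne_zero hsum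
    · intro t ht htt
      rw [hf2 t ht htt _ (hτ t ht).1, dl_ne (hne t ht)]
  · intro t ht x hx y hy z hz hxy hyz hxz
    have axy : (gph T).Adj x y := ⟨hxy, t, ht, hx, hy⟩
    have ayz : (gph T).Adj y z := ⟨hyz, t, ht, hy, hz⟩
    have axz : (gph T).Adj x z := ⟨hxz, t, ht, hx, hz⟩
    obtain ⟨hτT, hKτ⟩ := hτ t ht
    have hKB := (hK t ht).2.2
    rw [hb x y axy (τ t) hτT ⟨K t, hKτ, hKB x hx y hy hxy⟩,
      hb y z ayz (τ t) hτT ⟨K t, hKτ, hKB y hy z hz hyz⟩,
      hb x z axz (τ t) hτT ⟨K t, hKτ, hKB x hx z hz hxz⟩]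
    rw [← Pi.add_apply, ← Pi.add_apply, ← map_add, ← map_add, d2_dl ht (hT.card t ht) hx hy hz hxy
      hyz hxz]
    have e4 : (dl s(x, y) + dl s(y, z) + dl s(x, z) : Sym2 P → ZMod 2) =
        Cy s(x, y) + Cy s(y, z) + Cy s(x, z) := by
      rw [hCy, hCy, hCy]
      have e1 := two_zero (A x)
      have e2 := two_zero (A y)
      have e3 := two_zero (A z)
      calc (dl s(x, y) + dl s(y, z) + dl s(x, z) : Sym2 P → ZMod 2)
          = 0 + 0 + 0 + (dl s(x, y) + dl s(y, z) + dl s(x, z)) := by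
            rw [add_zero, add_zero, zero_add]
        _ = (A x + A x) + (A y + A y) + (A z + A z) +
            (dl s(x, y) + dl s(y, z) + dl s(x, z)) := by rw [e1, e2, e3]
        _ = _ := by abel
    rw [e4]

end Pool.Agent.IM55.SG
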