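import Pool.Agent.Work.MP_55ff09_co.SG.Stmts

/-!
# MP_55ff09_co, block SG, item SPN: generators of the cycle space
-/

set_option autoImplicit false

namespace Pool.Agent.IM55.SG

namespace XSPN

variable {P : Type}

open Classical in
/-- the fibre of an edge -/
lemma fib [Fintype P] (a b : P) :
    (Finset.univ.filter fun p : P × P => s(p.1, p.2) = s(a, b)) = {(a, b), (b, a)} := by
  ext ⟨x, y⟩
  simp only [Finset.mem_filter, Finset.mem_univ, true_and, Finset.mem_insert,
    Finset.mem_singleton, Sym2.eq_iff, Prod.mk.injEq]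

/-- the sum of the ends -/
def AA {M : Type} [AddCommMonoid M] (A : P → M) : Sym2 P → M :=
  Sym2.lift ⟨fun x y => A x + A y, fun _ _ => add_comm _ _⟩

open Classical in
lemma sumAA [Fintype P] {M : Type} [AddCommGroup M] [Module (ZMod 2) M] (A : P → M)
    (z : Sym2 P → ZMod 2) (hz : ∀ x, z s(x, x) = 0) (h : ∀ x, ∑ y, z s(x, y) = 0) :
    ∑ e, z e • AA A e = 0 := by
  have h1 : ∑ p : P × P, z s(p.1, p.2) • A p.1 = 0 := by
    rw [Fintype.sum_prod_type]
    refine Finset.sum_eq_zero fun x _ => ?_
    change ∑ y, z s(x, y) • A x = 0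
    rw [← Finset.sum_smul, h x, zero_smul]
  rw [← Finset.sum_fiberwise (s := Finset.univ) (g := fun p : P × P => s(p.1, p.2))] at h1
  rw [← h1]
  refine Finset.sum_congr rfl fun e _ => ?_
  induction e using Sym2.inductionOn with
  | _ a b =>
    by_cases hab : a = b
    · subst hab
      rw [hz a, zero_smul]
      symm
      refine Finset.sum_eq_zero fun p hp => ?_
      rw [(Finset.mem_filter.1 hp).2, hz a, zero_smul]
    · rw [fib a b, Finset.sum_pair (by
        intro hc
        exact hab (Prod.mk.inj hc).1)]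
      simp only [AA, Sym2.lift_mk]
      rw [Sym2.eq_swap (a := b) (b := a), smul_add]

end XSPN

open XSPN in
open Classical in
/-- SPN. -/
theorem i_SPN : S_SPN := by
  intro P _ T A z hz
  obtain ⟨hz1, hz2⟩ := Submodule.mem_inf.1 hz
  have hz1' : ∀ e, z e ≠ 0 → e ∈ (gph T).edgeSet := fun e he => (hz1 e he).1
  have hz0 : ∀ x, z s(x, x) = 0 := by
    intro x
    by_contra hc
    have := hz1' _ hc
    rw [SimpleGraph.mem_edgeSet] at this
    exact this.ne rfl
  have hz3 : ∀ x, ∑ y, z s(x, y) = 0 := fun x => congrFun (LinearMap.mem_ker.1 hz2) x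
  have e1 : z = ∑ e, z e • dl e := by
    funext e
    rw [Finset.sum_apply]
    simp [dl]
  have e2 : z = ∑ e, z e • (AA A e + dl e) := by
    simp only [smul_add]
    rw [Finset.sum_add_distrib, sumAA A z hz0 hz3, zero_add]
    exact e1
  rw [e2]
  refine Submodule.sum_mem _ fun e _ => ?_
  by_cases he : z e = 0
  · rw [he, zero_smul]
    exact Submodule.zero_mem _
  · refine Submodule.smul_mem _ _ (Submodule.subset_span ?_)
    have h3 := hz1' e he
    induction e using Sym2.inductionOn with
    | _ a b =>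
      refine ⟨a, b, (SimpleGraph.mem_edgeSet _).1 h3, ?_⟩
      simp only [AA, Sym2.lift_mk]

end Pool.Agent.IM55.SG
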