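import Pool.Agent.Work.MP_55ff09_co.SG.Stmts

/-!
# MP_55ff09_co, block SG, item STA: the first cut
-/

set_option autoImplicit false

namespace Pool.Agent.IM55.SG

open SimpleGraph Pool.Agent.IM55 Pool.Agent.IM55.PL

namespace XSTA

theorem ly_iter {V : Type} {G : SimpleGraph V} {r : V} {p : V → V} {ly : V → ℕ}
    (h : Bfs G r p ly) (v : V) : ∀ (k : ℕ), (∀ i < k, p^[i] v ≠ r) → ly (p^[k] v) + k = ly v := by
  intro k
  induction k with
  | zero => intro _; rfl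
  | succ k ih =>
    intro hk
    have h1 := ih fun i hi => hk i (Nat.lt_succ_of_lt hi)
    have h2 := (h.par (p^[k] v) (hk k (Nat.lt_succ_self k))).2
    rw [Function.iterate_succ_apply']
    omega

/-- the root is reached -/
theorem reach {V : Type} {G : SimpleGraph V} {r : V} {p : V → V} {ly : V → ℕ}
    (h : Bfs G r p ly) (v : V) : ∃ k : ℕ, p^[k] v = r ∧ ∀ i < k, p^[i] v ≠ r := by
  classical
  have hex : ∃ k : ℕ, p^[k] v = r := by
    by_contra hcon
    have h1 : ∀ k : ℕ, p^[k] v ≠ r := fun k hk => hcon ⟨k, hk⟩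
    have h2 := ly_iter h v (ly v + 1) fun i _ => h1 i
    omega
  exact ⟨Nat.find hex, Nat.find_spec hex, fun i hi => Nat.find_min hex hi⟩

theorem sp_mono {ι : Type} {X Y : Set ι} (h : X ⊆ Y) : sp X ≤ sp Y :=
  fun _ ha i hi => h (ha i hi)

theorem EE_mono {P : Type} (T : Finset (Finset P)) {A B : Set P} (h : A ⊆ B) :
    EE T A ⊆ EE T B := fun _ he => ⟨he.1, fun x hx => h (he.2 x hx)⟩

theorem dl_self {ι : Type} (i : ι) : dl i i = 1 := by
  unfold dl
  rw [if_pos rfl]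

theorem dl_ne {ι : Type} {i j : ι} (h : j ≠ i) : dl i j = 0 := by
  unfold dl
  rw [if_neg h]

theorem dl_ne_zero {ι : Type} {i j : ι} (h : dl i j ≠ 0) : j = i := by
  by_contra h1
  exact h (dl_ne h1)

theorem d1_dl {P : Type} [Fintype P] {x y : P} (h : x ≠ y) :
    d1 (dl s(x, y)) = (dl x + dl y : P → ZMod 2) := by
  classical
  funext z
  change ∑ w, dl s(x, y) s(z, w) = dl x z + dl y z
  by_cases hzx : z = x
  · subst hzx
    rw [Finset.sum_eq_single y, dl_self, dl_self, dl_ne h, add_zero]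
    · intro w _ hw
      refine dl_ne fun h1 => ?_
      rcases Sym2.eq_iff.1 h1 with ⟨_, h2⟩ | ⟨h2, _⟩
      · exact hw h2
      · exact h h2
    · intro h1
      exact absurd (Finset.mem_univ _) h1
  · by_cases hzy : z = y
    · subst hzy
      rw [Finset.sum_eq_single x, dl_self, dl_ne hzx, Sym2.eq_swap, dl_self, zero_add]
      · intro w _ hw
        refine dl_ne fun h1 => ?_
        rcases Sym2.eq_iff.1 h1 with ⟨h2, _⟩ | ⟨_, h2⟩
        · exact hzx h2
        · exact hw h2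
      · intro h1
        exact absurd (Finset.mem_univ _) h1
    · rw [dl_ne hzx, dl_ne hzy, add_zero]
      refine Finset.sum_eq_zero fun w _ => dl_ne fun h1 => ?_
      rcases Sym2.eq_iff.1 h1 with ⟨h2, _⟩ | ⟨h2, _⟩
      · exact hzx h2
      · exact hzy h2

theorem dl_mem {P : Type} {T : Finset (Finset P)} {A : Set P} {x y : P}
    (h : (gph T).Adj x y) (hx : x ∈ A) (hy : y ∈ A) : dl s(x, y) ∈ sp (EE T A) := by
  intro e he
  have he' := dl_ne_zero he
  subst he'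
  refine ⟨(SimpleGraph.mem_edgeSet _).2 h, fun z hz => ?_⟩
  rcases Sym2.mem_iff.1 hz with rfl | rfl
  · exact hx
  · exact hy

/-- the cycle of an edge -/
theorem cyc_mem {P : Type} [Fintype P] {T : Finset (Finset P)} {K : Set P} {x y x₀ : P}
    {a b : Sym2 P → ZMod 2} (h : (gph T).Adj x y) (hx : x ∈ K) (hy : y ∈ K)
    (ha : a ∈ sp (EE T K)) (hb : b ∈ sp (EE T K)) (ha' : d1 a = dl x + dl x₀)
    (hb' : d1 b = dl y + dl x₀) : a + b + dl s(x, y) ∈ Z T K := by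
  refine Submodule.mem_inf.2 ⟨Submodule.add_mem _ (Submodule.add_mem _ ha hb) (dl_mem h hx hy),
    LinearMap.mem_ker.2 ?_⟩
  rw [map_add, map_add, ha', hb', d1_dl h.ne]
  funext z
  simp only [Pi.add_apply, Pi.zero_apply]
  have e1 := CharTwo.add_self_eq_zero (dl x z : ZMod 2)
  have e2 := CharTwo.add_self_eq_zero (dl y z : ZMod 2)
  have e3 := CharTwo.add_self_eq_zero (dl x₀ z : ZMod 2)
  linear_combination e1 + e2 + e3

theorem rng_le {P : Type} [Fintype P] (T : Finset (Finset P)) (g : ℕ) (hT : Surf T g)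
    (h : S_DD) : LinearMap.range (d2 T) ≤ Z T Set.univ := by
  rintro _ ⟨c, rfl⟩
  refine Submodule.mem_inf.2 ⟨?_, LinearMap.mem_ker.2 (h T g hT c)⟩
  intro e he
  refine ⟨?_, fun x _ => Set.mem_univ x⟩
  by_contra hcon
  exact he (if_neg hcon)

end XSTA

open XSTA in
/-- Item STA. -/
theorem i_STA (h1 : S_SPN) (h2 : S_EXF) (h3 : S_HG) (h4 : S_DD) (h5 : S_PTH) (h6 : S_UCN)
    (h7 : S_VCT) : S_STA := by
  classical
  intro P V _ _ T g Δ G S r p ly hT hS hcov hB hΔ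
  obtain ⟨⟨x₀, hx₀⟩⟩ := (hS.conn r).nonempty
  have : Nonempty P := ⟨x₀⟩
  choose vx hvx using hcov
  choose kx hkx hkx' using fun x => reach hB (vx x)
  let U : P → Set P := fun x => {y | ∃ i ≤ kx x, y ∈ S (p^[i] (vx x))}
  have hUc : ∀ x, ((gph T).induce (U x)).Connected := fun x =>
    h6 T G S r p ly hS hB (vx x) (kx x) (hkx' x)
  have hUx : ∀ x, x ∈ U x := fun x => ⟨0, Nat.zero_le _, hvx x⟩
  have hUr : ∀ x, S r ⊆ U x := by
    intro x y hy
    refine ⟨kx x, le_rfl, ?_⟩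
    rw [hkx x]
    exact hy
  have hUn : ∀ x j, {v | (S v ∩ U x).Nonempty ∧ ly v = j}.ncard ≤ 3 * (Δ + 1) := by
    intro x j
    refine (Set.ncard_le_ncard ?_ (Set.toFinite _)).trans
      (h7 G Δ r p ly hB hΔ (vx x) (kx x) (hkx' x) j)
    rintro v ⟨⟨y, hyv, i, hi, hy⟩, hj⟩
    refine ⟨⟨i, hi, ?_⟩, hj⟩
    by_cases hv : v = p^[i] (vx x)
    · exact Or.inl hv
    · exact Or.inr ((hS.adj _ _ hv).2 ⟨y, hyv, hy⟩)
  choose A hA hA' using fun x => h5 T (U x) (hUc x).preconnected x (hUx x) x₀ (hUr x hx₀)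
  have hs : {c | ∃ x y, (gph T).Adj x y ∧ c = A x + A y + dl s(x, y)} ⊆
      ((Z T Set.univ : Submodule (ZMod 2) (Sym2 P → ZMod 2)) : Set (Sym2 P → ZMod 2)) := by
    rintro c ⟨x, y, hxy, rfl⟩
    exact cyc_mem hxy (Set.mem_univ _) (Set.mem_univ _)
      (sp_mono (EE_mono T (Set.subset_univ _)) (hA x))
      (sp_mono (EE_mono T (Set.subset_univ _)) (hA y)) (hA' x) (hA' y)
  obtain ⟨F, hF1, hF2, hF3⟩ := h2 (LinearMap.range (d2 T)) (Z T Set.univ)
    {c | ∃ x y, (gph T).Adj x y ∧ c = A x + A y + dl s(x, y)} g hs (rng_le T g hT h4)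
    (fun z hz => Submodule.mem_sup_left (h1 T A z hz)) (h3 T g hT).le
  have hF4 : ∀ f ∈ F, ∃ x y, (gph T).Adj x y ∧ f = A x + A y + dl s(x, y) := fun f hf => hF1 hf
  choose! X Y hXY hXY' using hF4
  have hYc : ∀ f : F, ((gph T).induce (U (X f) ∪ U (Y f))).Connected := fun f =>
    conn_union (hUc _) (hUc _) ⟨x₀, hUr _ hx₀, x₀, hUr _ hx₀, Or.inl rfl⟩
  refine ⟨S r ∪ ⋃ f : F, (U (X f) ∪ U (Y f)), Set.subset_union_left,
    conn_iUnion _ (hS.conn r) hYc fun f => ⟨x₀, hx₀, x₀, Or.inl (hUr _ hx₀), Or.inl rfl⟩, ?_, ?_⟩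
  · refine hF3.trans (sup_le_sup_right (Submodule.span_le.2 ?_) _)
    intro f hf
    have hX : U (X f) ⊆ S r ∪ ⋃ f : F, (U (X f) ∪ U (Y f)) := fun y hy =>
      Or.inr (Set.mem_iUnion.2 ⟨⟨f, hf⟩, Or.inl hy⟩)
    have hY : U (Y f) ⊆ S r ∪ ⋃ f : F, (U (X f) ∪ U (Y f)) := fun y hy =>
      Or.inr (Set.mem_iUnion.2 ⟨⟨f, hf⟩, Or.inr hy⟩)
    have hfm := cyc_mem (hXY f hf) (hX (hUx _)) (hY (hUx _))
      (sp_mono (EE_mono T hX) (hA (X f))) (sp_mono (EE_mono T hY) (hA (Y f)))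
      (hA' (X f)) (hA' (Y f))
    rw [← hXY' f hf] at hfm
    exact hfm
  · intro j
    have hr : {v | (S v ∩ S r).Nonempty ∧ ly v = j}.ncard ≤ Δ + 1 := by
      refine (Set.ncard_le_ncard (t := insert r (G.neighborSet r)) ?_ (Set.toFinite _)).trans
        ((Set.ncard_insert_le _ _).trans (Nat.add_le_add_right (hΔ r) 1))
      rintro v ⟨hv, -⟩
      by_cases hvr : v = r
      · exact Or.inl hvr
      · exact Or.inr ((hS.adj _ _ hvr).2 hv).symm
    have hsub : {v | (S v ∩ (S r ∪ ⋃ f : F, (U (X f) ∪ U (Y f)))).Nonempty ∧ ly v = j} ⊆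
        {v | (S v ∩ S r).Nonempty ∧ ly v = j} ∪
          ((F.biUnion fun f => (Set.toFinite {v | (S v ∩ U (X f)).Nonempty ∧ ly v = j}).toFinset ∪
            (Set.toFinite {v | (S v ∩ U (Y f)).Nonempty ∧ ly v = j}).toFinset : Finset V) :
              Set V) := by
      rintro v ⟨⟨y, hyv, hy | hy⟩, hj⟩
      · exact Or.inl ⟨⟨y, hyv, hy⟩, hj⟩
      · obtain ⟨⟨f, hf⟩, hy⟩ := Set.mem_iUnion.1 hy
        refine Or.inr (Finset.mem_coe.2 (Finset.mem_biUnion.2 ⟨f, hf, Finset.mem_union.2 ?_⟩))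
        rcases hy with hy | hy
        · exact Or.inl ((Set.Finite.mem_toFinset _).2 ⟨⟨y, hyv, hy⟩, hj⟩)
        · exact Or.inr ((Set.Finite.mem_toFinset _).2 ⟨⟨y, hyv, hy⟩, hj⟩)
    have hcard : (F.biUnion fun f =>
        (Set.toFinite {v | (S v ∩ U (X f)).Nonempty ∧ ly v = j}).toFinset ∪
          (Set.toFinite {v | (S v ∩ U (Y f)).Nonempty ∧ ly v = j}).toFinset).card ≤
        F.card * (6 * (Δ + 1)) := by
      refine Finset.card_biUnion_le_card_mul _ _ _ fun f _ => ?_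
      refine (Finset.card_union_le _ _).trans ?_
      have e1 := hUn (X f) j
      have e2 := hUn (Y f) j
      rw [Set.ncard_eq_toFinset_card _ (Set.toFinite _)] at e1 e2
      omega
    refine (Set.ncard_le_ncard hsub (Set.toFinite _)).trans ((Set.ncard_union_le _ _).trans ?_)
    rw [Set.ncard_coe_finset]
    have e3 : F.card * (6 * (Δ + 1)) ≤ g * (6 * (Δ + 1)) := Nat.mul_le_mul_right _ hF2
    have e4 : (6 * g + 1) * (Δ + 1) = (Δ + 1) + g * (6 * (Δ + 1)) := by ring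
    rw [e4]
    exact Nat.add_le_add hr (hcard.trans e3)

end Pool.Agent.IM55.SG
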