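import Pool.Agent.Work.MP_55ff09_co.SG.Stmts

/-!
# MP_55ff09_co, block SG: item STP (the step of the induction)
-/

set_option autoImplicit false

namespace Pool.Agent.IM55.SG

open SimpleGraph Pool.Agent.IM55 Pool.Agent.IM55.PL

namespace XSTP

variable {P V : Type}

/-- a connected set inside `A` which meets a component of `A` is contained in it -/
theorem sub_of_meet {G : SimpleGraph P} {A X : Set P} {v x : P} (hX : (G.induce X).Connected)
    (hA : X ⊆ A) (hx : x ∈ X) (hxc : x ∈ cmp G A v) : X ⊆ cmp G A v := by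
  rw [← cmp_eq hxc]
  exact subset_cmp hX hx hA

theorem nonempty_of_conn {G : SimpleGraph P} {X : Set P} (hX : (G.induce X).Connected) :
    X.Nonempty := by
  obtain ⟨⟨x, hx⟩⟩ := hX.nonempty
  exact ⟨x, hx⟩

end XSTP

open XSTP in
/-- STP -/
theorem i_STP (h1 : S_GLU) : S_STP := by
  classical
  intro P V _ _ T Δ m c w G S ly hS D e lam nm X N q hSt hCut hw hc hq hCon
  -- the children
  set ι : Type := {D' : Set P // ∃ x, x ∈ D ∧ x ∉ N ∧ D' = cmp (gph T) (D \ N) x} with hι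
  have hsub : ∀ i : ι, i.1 ⊆ D \ N := by
    rintro ⟨D', x, hx, hxN, rfl⟩
    exact cmp_subset
  have huniq : ∀ (i j : ι) (x : P), x ∈ i.1 → x ∈ j.1 → i = j := by
    rintro ⟨D1, x1, hx1, hxN1, rfl⟩ ⟨D2, x2, hx2, hxN2, rfl⟩ x h h'
    apply Subtype.ext
    show cmp (gph T) (D \ N) x1 = cmp (gph T) (D \ N) x2
    rw [← cmp_eq h, ← cmp_eq h']
  have hSne : ∀ v, (S v).Nonempty := fun v => nonempty_of_conn (hS.conn v)
  have huniq' : ∀ (i j : ι) (v : V), S v ⊆ i.1 → S v ⊆ j.1 → i = j := by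
    intro i j v h h'
    obtain ⟨x, hx⟩ := hSne v
    exact huniq i j x (h hx) (h' hx)
  have hex : ∀ v, S v ⊆ D → ¬ (S v ∩ N).Nonempty → ∃ i : ι, S v ⊆ i.1 := by
    intro v hv hn
    obtain ⟨x, hx⟩ := hSne v
    have h2 : S v ⊆ D \ N := fun y hy => ⟨hv hy, fun h => hn ⟨y, hy, h⟩⟩
    exact ⟨⟨cmp (gph T) (D \ N) x, x, (h2 hx).1, (h2 hx).2, rfl⟩, subset_cmp (hS.conn v) hx h2⟩
  have hmeet : ∀ (i : ι) (v : V), S v ⊆ D → ¬ (S v ∩ N).Nonempty → (S v ∩ i.1).Nonempty →
      S v ⊆ i.1 := by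
    intro i v hv hn hne
    obtain ⟨j, hj⟩ := hex v hv hn
    obtain ⟨x, hx, hxi⟩ := hne
    rw [huniq i j x hxi (hj hx)]
    exact hj
  have hin : ∀ (i : ι) (v : V), S v ⊆ i.1 → S v ⊆ D ∧ ¬ (S v ∩ N).Nonempty := by
    intro i v hv
    refine ⟨fun x hx => (hsub i (hv hx)).1, ?_⟩
    rintro ⟨x, hx, hxN⟩
    exact (hsub i (hv hx)).2 hxN
  -- the labellings of the children
  have hC : ∀ i : ι, Con G S ly c w i.1 (en S D N q e) := by
    rintro ⟨D', x, hx, hxN, rfl⟩
    exact hCon x hx hxN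
  choose lbi hla hlb hlc hld using hC
  set lb : V → V := fun v => if S v ⊆ D then (if (S v ∩ N).Nonempty then q else
    (if h : ∃ i : ι, S v ⊆ i.1 then lbi h.choose v else v)) else e v with hlbdef
  have lb1 : ∀ v, ¬ S v ⊆ D → lb v = e v := by
    intro v hv
    rw [hlbdef]
    simp only
    rw [if_neg hv]
  have lb2 : ∀ v, S v ⊆ D → (S v ∩ N).Nonempty → lb v = q := by
    intro v hv hn
    rw [hlbdef]
    simp only
    rw [if_pos hv, if_pos hn]
  have lb3 : ∀ (i : ι) v, S v ⊆ i.1 → lb v = lbi i v := by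
    intro i v hv
    obtain ⟨h2, h3⟩ := hin i v hv
    have h4 : ∃ i : ι, S v ⊆ i.1 := ⟨i, hv⟩
    rw [hlbdef]
    simp only
    rw [if_pos h2, if_neg h3, dif_pos h4, huniq' _ i v h4.choose_spec hv]
  have en1 : ∀ v, ¬ S v ⊆ D → en S D N q e v = e v := by
    intro v hv
    unfold en
    rw [if_neg hv]
  have en2 : ∀ v, S v ⊆ D → (S v ∩ N).Nonempty → en S D N q e v = q := by
    intro v hv hn
    unfold en
    rw [if_pos hv, if_pos hn]
  refine ⟨lb, lb1, ?_, ?_, ?_⟩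
  · -- labels of strings inside `D`
    intro v hv
    by_cases hn : (S v ∩ N).Nonempty
    · rw [lb2 v hv hn]
      exact (hq v hv hn).1
    · obtain ⟨i, hi⟩ := hex v hv hn
      rw [lb3 i v hi]
      exact (hlb i v hi).trans fun x hx => (hsub i hx).1
  · -- widths
    intro i j
    by_cases hA : S i ⊆ D ∧ (S i ∩ N).Nonempty
    · refine le_trans (Set.ncard_le_ncard ?_ (Set.toFinite _)) ((hCut.wid j).trans hc)
      rintro v ⟨hv, hvi, hvj⟩
      refine ⟨hv, ?_, hvj⟩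
      by_contra hn
      obtain ⟨k, hk⟩ := hex v hv hn
      rw [lb3 k v hk] at hvi
      have h2 := hlb k v hk
      rw [hvi] at h2
      exact (hin k i h2).2 hA.2
    · have hkey : ∀ v, S v ⊆ D → lb v = i → ∃ k : ι, S v ⊆ k.1 ∧ S i ⊆ k.1 ∧ lbi k v = i := by
        intro v hv hvi
        have hn : ¬ (S v ∩ N).Nonempty := by
          intro hn
          rw [lb2 v hv hn] at hvi
          exact hA (hvi ▸ hq v hv hn)
        obtain ⟨k, hk⟩ := hex v hv hn
        rw [lb3 k v hk] at hvi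
        have h2 := hlb k v hk
        rw [hvi] at h2
        exact ⟨k, hk, h2, hvi⟩
      by_cases hne : {v | S v ⊆ D ∧ lb v = i ∧ ly v = j}.Nonempty
      · obtain ⟨v0, hv0, hv0i, -⟩ := hne
        obtain ⟨k, hk, hki, -⟩ := hkey v0 hv0 hv0i
        refine le_trans (Set.ncard_le_ncard ?_ (Set.toFinite _)) (hlc k i j)
        rintro v ⟨hv, hvi, hvj⟩
        obtain ⟨k', hk', hki', hl⟩ := hkey v hv hvi
        rw [huniq' k' k i hki' hki] at hk' hl
        exact ⟨hk', hl, hvj⟩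
      · rw [Set.not_nonempty_iff_eq_empty.1 hne, Set.ncard_empty]
        exact Nat.zero_le _
  · -- gluing
    have hadj : ∀ (i : ι) (u : V), S u ⊆ i.1 → ∀ v, G.Adj u v → (S v ∩ i.1).Nonempty := by
      intro i u hu v huv
      obtain ⟨x, hxu, hxv⟩ := (hS.adj u v huv.ne).1 huv
      exact ⟨x, hxv, hu hxu⟩
    refine h1 G w lb {v | S v ⊆ D ∧ (S v ∩ N).Nonempty}
      (pk S D e ∪ {i | i = q ∧ S q ⊆ D ∧ (S q ∩ N).Nonempty}) (pk S D e) {v | S v ⊆ D}
      (fun i : ι => {v | S v ⊆ i.1}) (fun i : ι => pk S i.1 (en S D N q e)) lbi hld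
      ?_ ?_ ?_ ?_ ?_ Set.subset_union_left ?_ ?_ ?_ ?_
    · rintro i x ⟨v, ⟨hv, hvi⟩, rfl⟩
      by_cases hvD : S v ⊆ D
      · have hn : (S v ∩ N).Nonempty := by
          by_contra hn
          exact hv (hmeet i v hvD hn hvi)
        rw [en2 v hvD hn]
        exact Or.inr ⟨rfl, hq v hvD hn⟩
      · rw [en1 v hvD]
        obtain ⟨x, hx, hxi⟩ := hvi
        exact Or.inl ⟨v, ⟨hvD, x, hx, (hsub i hxi).1⟩, rfl⟩
    · intro i
      rw [Set.disjoint_left]
      rintro x (⟨v, ⟨hv, -⟩, rfl⟩ | ⟨rfl, -, hn⟩) hx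
      · exact hSt.old v hv (hin i _ hx).1
      · exact (hin i _ hx).2 hn
    · intro i j hij
      rw [Set.disjoint_left]
      intro v hv hv'
      exact hij (huniq' i j v hv hv')
    · intro i u hu v huv
      refine ⟨lb3 i u hu, ?_⟩
      by_cases hvi : S v ⊆ i.1
      · exact lb3 i v hvi
      · rw [hla i v hvi]
        by_cases hvD : S v ⊆ D
        · have hn : (S v ∩ N).Nonempty := by
            by_contra hn
            exact hvi (hmeet i v hvD hn (hadj i u hu v huv))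
          rw [en2 v hvD hn, lb2 v hvD hn]
        · rw [en1 v hvD, lb1 v hvD]
    · have h2 : (pk S D e ∪ {i | i = q ∧ S q ⊆ D ∧ (S q ∩ N).Nonempty}).ncard ≤ w := by
        refine (Set.ncard_union_le _ _).trans ?_
        have h3 : {i | i = q ∧ S q ⊆ D ∧ (S q ∩ N).Nonempty}.ncard ≤ 1 := by
          refine (Set.ncard_le_ncard (t := {q}) ?_ (Set.toFinite _)).trans
            (Set.ncard_singleton q).le
          rintro i ⟨rfl, -⟩
          exact rfl
        omega
      rw [← (Set.toFinite _).cast_ncard_eq]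
      exact_mod_cast h2
    · rintro x (hx | ⟨rfl, h, -⟩)
      · exact Or.inl hx
      · exact Or.inr h
    · intro i v hv
      exact (hin i v hv).1
    · intro u hu
      by_cases hn : (S u ∩ N).Nonempty
      · exact Or.inl ⟨hu, hn⟩
      · exact Or.inr (hex u hu hn)
    · rintro u ⟨hu, hun⟩ v huv
      obtain ⟨x, hxu, hxv⟩ := (hS.adj u v huv.ne).1 huv
      have huq : lb u ∈ pk S D e ∪ {i | i = q ∧ S q ⊆ D ∧ (S q ∩ N).Nonempty} := by
        rw [lb2 u hu hun]
        exact Or.inr ⟨rfl, hq u hu hun⟩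
      by_cases hvD : S v ⊆ D
      · by_cases hn : (S v ∩ N).Nonempty
        · refine Or.inl ⟨huq, ?_⟩
          rw [lb2 v hvD hn]
          exact Or.inr ⟨rfl, hq v hvD hn⟩
        · exact Or.inr (hex v hvD hn)
      · refine Or.inl ⟨huq, ?_⟩
        rw [lb1 v hvD]
        exact Or.inl ⟨v, ⟨hvD, x, hxv, hu hxu⟩, rfl⟩

end Pool.Agent.IM55.SG
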