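import Pool.Agent.Work.MP_55ff09_co.SG.Stmts

set_option autoImplicit false

namespace Pool.Agent.IM55.SG

open SimpleGraph Pool.Agent.IM55 Pool.Agent.IM55.PL

namespace XTRI

open Classical in
theorem ncard_sum {α : Type} [Fintype α] (S : Set α) :
    S.ncard = ∑ x : α, if x ∈ S then 1 else 0 := by
  rw [Finset.sum_boole, Set.ncard_eq_toFinset_card', Set.toFinset_card]
  rw [Fintype.card_subtype]
  simp

open Classical in
/-- exactly one index -/
theorem sum_one (p : Fin 3 → Prop) (c : Fin 3) (hc : p c) (h : ∀ i, p i → i = c) :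
    (∑ i, if p i then 1 else 0) = 1 := by
  rw [Finset.sum_eq_single c]
  · rw [if_pos hc]
  · intro i _ hi
    rw [if_neg fun hp => hi (h i hp)]
  · intro h
    exact absurd (Finset.mem_univ _) h

open Classical in
/-- no index -/
theorem sum_none (p : Fin 3 → Prop) (h : ∀ i, ¬ p i) : (∑ i, if p i then 1 else 0) = 0 :=
  Finset.sum_eq_zero fun i _ => if_neg (h i)

end XTRI

open Classical in
open XTRI in
theorem i_TRI (h1 : S_MIX) : S_TRI := by
  intro P _ T g hS k
  have hmix := h1 T g hS k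
  have heul := hS.euler
  -- vertices
  have hV : Nat.card P = ∑ i, {x | k x = i}.ncard := by
    simp_rw [ncard_sum]
    rw [Finset.sum_comm]
    refine Eq.trans ?_ (Finset.sum_congr rfl fun x _ =>
      (sum_one (fun i => x ∈ {x | k x = i}) (k x) rfl fun i hi => Eq.symm hi).symm)
    simp
  -- edges
  have hE : (gph T).edgeSet.ncard = ∑ i, (EE T {x | k x = i}).ncard +
      {e | e ∈ (gph T).edgeSet ∧ ∃ x ∈ e, ∃ y ∈ e, k x ≠ k y}.ncard := by
    simp_rw [ncard_sum]
    rw [Finset.sum_comm, ← Finset.sum_add_distrib]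
    refine Finset.sum_congr rfl fun e _ => ?_
    induction e using Sym2.ind with
    | _ a b =>
      by_cases he : s(a, b) ∈ (gph T).edgeSet
      · by_cases hab : k a = k b
        · have h2 : s(a, b) ∉ {e | e ∈ (gph T).edgeSet ∧ ∃ x ∈ e, ∃ y ∈ e, k x ≠ k y} := by
            rintro ⟨-, x, hx, y, hy, hxy⟩
            rw [Sym2.mem_iff] at hx hy
            rcases hx with rfl | rfl <;> rcases hy with rfl | rfl <;> simp_all
          have h3 := sum_one (fun i => s(a, b) ∈ EE T {x | k x = i}) (k a) (by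
            refine ⟨he, ?_⟩
            intro x hx
            rw [Sym2.mem_iff] at hx
            rcases hx with rfl | rfl
            · rfl
            · exact hab.symm) (fun i hi => (hi.2 a (Sym2.mem_mk_left a b)).symm)
          simp only [if_pos he, if_neg h2, h3, add_zero, zero_add]
        · have h2 : s(a, b) ∈ {e | e ∈ (gph T).edgeSet ∧ ∃ x ∈ e, ∃ y ∈ e, k x ≠ k y} :=
            ⟨he, a, Sym2.mem_mk_left a b, b, Sym2.mem_mk_right a b, hab⟩
          have h3 := sum_none (fun i => s(a, b) ∈ EE T {x | k x = i}) (fun i hi =>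
            hab ((hi.2 a (Sym2.mem_mk_left a b)).trans (hi.2 b (Sym2.mem_mk_right a b)).symm))
          simp only [if_pos he, if_pos h2, h3, add_zero, zero_add]
      · have h3 := sum_none (fun i => s(a, b) ∈ EE T {x | k x = i}) (fun i hi => he hi.1)
        have h5 : s(a, b) ∉ {e | e ∈ (gph T).edgeSet ∧ ∃ x ∈ e, ∃ y ∈ e, k x ≠ k y} :=
          fun h => he h.1
        simp only [if_neg he, if_neg h5, h3, add_zero, zero_add]
  -- triangles
  have hT : T.card = ∑ i, (FF T {x | k x = i}).ncard +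
      ({t | t ∈ T ∧ (∃ x ∈ t, ∃ y ∈ t, k x ≠ k y) ∧ ∃ i, ∀ x ∈ t, k x ≠ i}.ncard +
        {t | t ∈ T ∧ ∀ i, ∃ x ∈ t, k x = i}.ncard) := by
    have h0 : T.card = (T : Set (Finset P)).ncard := by
      rw [Set.ncard_coe_finset]
    rw [h0]
    simp_rw [ncard_sum]
    rw [Finset.sum_comm, ← Finset.sum_add_distrib, ← Finset.sum_add_distrib]
    refine Finset.sum_congr rfl fun t _ => ?_
    by_cases ht : t ∈ (T : Set (Finset P))
    · have ht' : t ∈ T := Finset.mem_coe.1 ht
      have hne : t.Nonempty := by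
        rw [← Finset.card_pos, hS.card t ht']
        norm_num
      obtain ⟨a, ha⟩ := hne
      by_cases hall : ∀ x ∈ t, k x = k a
      · have h2 : t ∉ {t | t ∈ T ∧ (∃ x ∈ t, ∃ y ∈ t, k x ≠ k y) ∧ ∃ i, ∀ x ∈ t, k x ≠ i} := by
          rintro ⟨-, ⟨x, hx, y, hy, hxy⟩, -⟩
          exact hxy ((hall x hx).trans (hall y hy).symm)
        have h3 : t ∉ {t | t ∈ T ∧ ∀ i, ∃ x ∈ t, k x = i} := by
          rintro ⟨-, h⟩
          obtain ⟨x, hx, hx'⟩ := h (k a + 1)
          rw [hall x hx] at hx'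
          have : ∀ j : Fin 3, j ≠ j + 1 := by decide
          exact this _ hx'
        have h4 := sum_one (fun i => t ∈ FF T {x | k x = i}) (k a) ⟨ht', hall⟩
          (fun i hi => (hi.2 a ha).symm)
        simp only [if_pos ht, if_neg h2, if_neg h3, h4, add_zero, zero_add]
      · have h4 := sum_none (fun i => t ∈ FF T {x | k x = i})
          (fun i hi => hall fun x hx => (hi.2 x hx).trans (hi.2 a ha).symm)
        push Not at hall
        obtain ⟨b, hb, hab⟩ := hall
        by_cases h3 : ∀ i, ∃ x ∈ t, k x = i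
        · have h5 : t ∉ {t | t ∈ T ∧ (∃ x ∈ t, ∃ y ∈ t, k x ≠ k y) ∧
              ∃ i, ∀ x ∈ t, k x ≠ i} := by
            rintro ⟨-, -, i, hi⟩
            obtain ⟨x, hx, hx'⟩ := h3 i
            exact hi x hx hx'
          have h6 : t ∈ {t | t ∈ T ∧ ∀ i, ∃ x ∈ t, k x = i} := ⟨ht', h3⟩
          simp only [if_pos ht, if_neg h5, if_pos h6, h4, add_zero, zero_add]
        · have h5 : t ∉ {t | t ∈ T ∧ ∀ i, ∃ x ∈ t, k x = i} := fun h => h3 h.2
          push Not at h3
          have h6 : t ∈ {t | t ∈ T ∧ (∃ x ∈ t, ∃ y ∈ t, k x ≠ k y) ∧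
              ∃ i, ∀ x ∈ t, k x ≠ i} := ⟨ht', ⟨b, hb, a, ha, hab⟩, h3⟩
          simp only [if_pos ht, if_pos h6, if_neg h5, h4, add_zero, zero_add]
    · have ht' : t ∉ T := fun h => ht (Finset.mem_coe.2 h)
      have h4 := sum_none (fun i => t ∈ FF T {x | k x = i}) (fun i hi => ht' hi.1)
      have h5 : t ∉ {t | t ∈ T ∧ (∃ x ∈ t, ∃ y ∈ t, k x ≠ k y) ∧ ∃ i, ∀ x ∈ t, k x ≠ i} :=
        fun h => ht' h.1
      have h6 : t ∉ {t | t ∈ T ∧ ∀ i, ∃ x ∈ t, k x = i} := fun h => ht' h.1
      simp only [if_neg ht, if_neg h5, if_neg h6, h4, add_zero, zero_add]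
  rw [Finset.sum_add_distrib]
  omega

end Pool.Agent.IM55.SG
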