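import Pool.Agent.Work.MP_55ff09_co.SG.Stmts

/-!
# MP_55ff09_co, block SG, item UCN
-/

set_option autoImplicit false

namespace Pool.Agent.IM55.SG

open SimpleGraph Pool.Agent.IM55 Pool.Agent.IM55.PL

theorem i_UCN : S_UCN := by
  intro P V T G S r p ly hS hB v k
  induction k with
  | zero =>
    intro _
    have e : {x | ∃ i ≤ 0, x ∈ S (p^[i] v)} = S v := by
      ext x
      constructor
      · rintro ⟨i, hi, hx⟩
        obtain rfl : i = 0 := Nat.le_zero.1 hi
        exact hx
      · intro hx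
        exact ⟨0, le_rfl, hx⟩
    rw [e]
    exact hS.conn v
  | succ k ih =>
    intro h
    have ih' := ih fun i hi => h i (by omega)
    have hk : G.Adj (p^[k] v) (p (p^[k] v)) := (hB.par _ (h k (by omega))).1
    have e : {x | ∃ i ≤ k + 1, x ∈ S (p^[i] v)} =
        {x | ∃ i ≤ k, x ∈ S (p^[i] v)} ∪ S (p (p^[k] v)) := by
      ext x
      constructor
      · rintro ⟨i, hi, hx⟩
        rcases Nat.lt_or_ge i (k + 1) with h3 | h3
        · exact Or.inl ⟨i, by omega, hx⟩
        · obtain rfl : i = k + 1 := by omega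
          rw [Function.iterate_succ_apply'] at hx
          exact Or.inr hx
      · rintro (⟨i, hi, hx⟩ | hx)
        · exact ⟨i, by omega, hx⟩
        · refine ⟨k + 1, le_rfl, ?_⟩
          rw [Function.iterate_succ_apply']
          exact hx
    rw [e]
    obtain ⟨z, hz1, hz2⟩ := (hS.adj _ _ hk.ne).1 hk
    exact conn_union ih' (hS.conn _) ⟨z, ⟨k, le_rfl, hz1⟩, z, hz2, Or.inl rfl⟩

end Pool.Agent.IM55.SG
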