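import Pool.Agent.Work.MP_55ff09_co.SG.Stmts

/-! Item UPW: going up to the closed neighbourhood of `O`. -/

set_option autoImplicit false

namespace Pool.Agent.IM55.SG

open SimpleGraph Pool.Agent.IM55 Pool.Agent.IM55.PL

namespace XUPW

/-- `ly` decreases along the parents as long as `r` is not reached -/
theorem lay_iter {V : Type} {G : SimpleGraph V} {r : V} {p : V → V} {ly : V → ℕ}
    (hB : Bfs G r p ly) (v : V) : ∀ k : ℕ, (∀ i < k, p^[i] v ≠ r) → ly (p^[k] v) + k = ly v := by
  intro k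
  induction k with
  | zero => intro _; simp
  | succ k ih =>
    intro h
    have h1 := ih fun i hi => h i (by omega)
    have h2 := (hB.par (p^[k] v) (h k (by omega))).2
    rw [Function.iterate_succ_apply']
    omega

/-- the closed neighbourhood of `O` is reached -/
theorem reach {V : Type} {G : SimpleGraph V} {r : V} {p : V → V} {ly : V → ℕ}
    (hB : Bfs G r p ly) (O : Set V) (hr : r ∈ O) (v : V) :
    ∃ k : ℕ, ∃ w ∈ O, p^[k] v = w ∨ G.Adj (p^[k] v) w := by
  by_contra hcon
  have h : ∀ k : ℕ, p^[k] v ≠ r := fun k hk => hcon ⟨k, r, hr, Or.inl hk⟩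
  have h1 := lay_iter hB v (ly v + 1) fun i _ => h i
  omega

end XUPW

open XUPW in
/-- Item UPW. -/
theorem i_UPW : S_UPW := by
  intro V G r p ly hB O hr v
  classical
  have hex := reach hB O hr v
  obtain ⟨z, hz, hz2⟩ := Nat.find_spec hex
  refine ⟨Nat.find hex, z, ?_, hz, hz2⟩
  intro i hi w hw
  have h1 := Nat.find_min hex hi
  exact ⟨fun h => h1 ⟨w, hw, Or.inl h⟩, fun h => h1 ⟨w, hw, Or.inr h⟩⟩

end Pool.Agent.IM55.SG
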