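import Pool.Agent.Work.MP_55ff09_co.SG.Stmts

/-!
# MP_55ff09_co, block SG, item VCT: counting near a vertical path
-/

set_option autoImplicit false

namespace Pool.Agent.IM55.SG

open SimpleGraph Pool.Agent.IM55

namespace XVCT

lemma ly_iter {V : Type} {G : SimpleGraph V} {r : V} {p : V → V} {ly : V → ℕ}
    (h : Bfs G r p ly) (v : V) : ∀ (k : ℕ), (∀ i < k, p^[i] v ≠ r) → ly (p^[k] v) + k = ly v := by
  intro k
  induction k with
  | zero => intro _; rfl
  | succ k ih =>
    intro hk
    have h1 := ih fun i hi => hk i (Nat.lt_succ_of_lt hi)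
    have h2 := (h.par (p^[k] v) (hk k (Nat.lt_succ_self k))).2
    rw [Function.iterate_succ_apply']
    omega

/-- closed neighbourhoods -/
noncomputable def cn {V : Type} [Finite V] (G : SimpleGraph V) (u : V) : Finset V :=
  (Set.toFinite {w | w = u ∨ G.Adj w u}).toFinset

lemma card_cn {V : Type} [Finite V] {G : SimpleGraph V} {Δ : ℕ} (hG : DegLe G Δ) (u : V) :
    (cn G u).card ≤ Δ + 1 := by
  have e : {w | w = u ∨ G.Adj w u} = insert u (G.neighborSet u) := by
    ext w
    constructor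
    · rintro (h | h)
      · exact Or.inl h
      · exact Or.inr h.symm
    · rintro (h | h)
      · exact Or.inl h
      · exact Or.inr (show G.Adj u w from h).symm
  have h1 : (cn G u).card = {w | w = u ∨ G.Adj w u}.ncard := by
    unfold cn
    rw [Set.ncard_eq_toFinset_card _ (Set.toFinite _)]
  rw [h1, e]
  exact (Set.ncard_insert_le u (G.neighborSet u)).trans (Nat.add_le_add_right (hG u) 1)

end XVCT

open XVCT in
theorem i_VCT : S_VCT := by
  classical
  intro V _ G Δ r p ly h hG v k hk j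
  have hsub : {w | (∃ i ≤ k, w = p^[i] v ∨ G.Adj w (p^[i] v)) ∧ ly w = j} ⊆
      (((Finset.Icc (ly v - (j + 1)) (ly v + 1 - j)).biUnion fun i => cn G (p^[i] v) :
        Finset V) : Set V) := by
    rintro w ⟨⟨i, hi, hw⟩, hj⟩
    have h1 := ly_iter h v i fun i' hi' => hk i' (lt_of_lt_of_le hi' hi)
    have h2 : ly w ≤ ly (p^[i] v) + 1 ∧ ly (p^[i] v) ≤ ly w + 1 := by
      rcases hw with hw | hw
      · rw [← hw]
        exact ⟨Nat.le_succ _, Nat.le_succ _⟩
      · exact ⟨h.lay _ _ hw, h.lay _ _ hw.symm⟩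
    refine Finset.mem_coe.2 (Finset.mem_biUnion.2 ⟨i, ?_, ?_⟩)
    · rw [Finset.mem_Icc]
      omega
    · unfold cn
      rw [Set.Finite.mem_toFinset]
      exact hw
  have hcard : ((Finset.Icc (ly v - (j + 1)) (ly v + 1 - j)).biUnion
      fun i => cn G (p^[i] v)).card ≤ (Finset.Icc (ly v - (j + 1)) (ly v + 1 - j)).card *
        (Δ + 1) :=
    Finset.card_biUnion_le_card_mul _ _ _ fun i _ => card_cn hG _
  have h3 : (Finset.Icc (ly v - (j + 1)) (ly v + 1 - j)).card ≤ 3 := by
    rw [Nat.card_Icc]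
    omega
  have h4 := Set.ncard_le_ncard hsub (Finset.finite_toSet _)
  rw [Set.ncard_coe_finset] at h4
  exact h4.trans (hcard.trans (Nat.mul_le_mul_right _ h3))

end Pool.Agent.IM55.SG
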