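import Pool.Agent.Work.MP_55ff09_co.SG.Main0
import Pool.Agent.Work.MP_55ff09_co.SG.I_DD
import Pool.Agent.Work.MP_55ff09_co.SG.I_LNK
import Pool.Agent.Work.MP_55ff09_co.SG.I_CST
import Pool.Agent.Work.MP_55ff09_co.SG.I_KER
import Pool.Agent.Work.MP_55ff09_co.SG.I_PTH
import Pool.Agent.Work.MP_55ff09_co.SG.I_DM0
import Pool.Agent.Work.MP_55ff09_co.SG.I_DM1
import Pool.Agent.Work.MP_55ff09_co.SG.I_DM2
import Pool.Agent.Work.MP_55ff09_co.SG.I_DMZ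
import Pool.Agent.Work.MP_55ff09_co.SG.I_INJ
import Pool.Agent.Work.MP_55ff09_co.SG.I_BDM
import Pool.Agent.Work.MP_55ff09_co.SG.I_HG
import Pool.Agent.Work.MP_55ff09_co.SG.I_CH1
import Pool.Agent.Work.MP_55ff09_co.SG.I_CHC
import Pool.Agent.Work.MP_55ff09_co.SG.I_MIX
import Pool.Agent.Work.MP_55ff09_co.SG.I_TRI
import Pool.Agent.Work.MP_55ff09_co.SG.I_ABC
import Pool.Agent.Work.MP_55ff09_co.SG.I_CO1
import Pool.Agent.Work.MP_55ff09_co.SG.I_COC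
import Pool.Agent.Work.MP_55ff09_co.SG.I_LBL
import Pool.Agent.Work.MP_55ff09_co.SG.I_LA
import Pool.Agent.Work.MP_55ff09_co.SG.I_FIL
import Pool.Agent.Work.MP_55ff09_co.SG.I_DBL
import Pool.Agent.Work.MP_55ff09_co.SG.I_SP1
import Pool.Agent.Work.MP_55ff09_co.SG.I_SP2
import Pool.Agent.Work.MP_55ff09_co.SG.I_SEP
import Pool.Agent.Work.MP_55ff09_co.SG.I_SPN
import Pool.Agent.Work.MP_55ff09_co.SG.I_EXF
import Pool.Agent.Work.MP_55ff09_co.SG.I_STA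
import Pool.Agent.Work.MP_55ff09_co.SG.I_BFS
import Pool.Agent.Work.MP_55ff09_co.SG.I_UPW
import Pool.Agent.Work.MP_55ff09_co.SG.I_VCT
import Pool.Agent.Work.MP_55ff09_co.SG.I_UCN
import Pool.Agent.Work.MP_55ff09_co.SG.I_CRV
import Pool.Agent.Work.MP_55ff09_co.SG.I_ADP
import Pool.Agent.Work.MP_55ff09_co.SG.I_CPL
import Pool.Agent.Work.MP_55ff09_co.SG.I_RG0
import Pool.Agent.Work.MP_55ff09_co.SG.I_RGC
import Pool.Agent.Work.MP_55ff09_co.SG.I_CRN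
import Pool.Agent.Work.MP_55ff09_co.SG.I_CUT
import Pool.Agent.Work.MP_55ff09_co.SG.I_NEW
import Pool.Agent.Work.MP_55ff09_co.SG.I_POK
import Pool.Agent.Work.MP_55ff09_co.SG.I_GLU
import Pool.Agent.Work.MP_55ff09_co.SG.I_STP
import Pool.Agent.Work.MP_55ff09_co.SG.I_IND
import Pool.Agent.Work.MP_55ff09_co.SG.I_MN0
import Pool.Agent.Work.MP_55ff09_co.SG.I_PRE
import Pool.Agent.Work.MP_55ff09_co.SG.I_PR2
import Pool.Agent.Work.MP_55ff09_co.SG.I_COV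

/-!
# MP_55ff09_co, block SG: main theorem
-/

set_option autoImplicit false

namespace Pool.Agent.IM55.SG

open SimpleGraph Pool.Agent.IM55 Pool.Agent.IM55.PL

theorem main_final {P V : Type} [Fintype P] [Finite V]
    (T : Finset (Finset P)) (g Δ : ℕ) (G : SimpleGraph V) (S : V → Set P) (hT : Surf T g)
    (hS : Str T G S) (hG : DegLe G Δ) :
    Emb G ((6 * g + 12) * (Δ + 1) * (5 * (6 * (Δ + 1) + 1) + 1)) := by
  have hDD : S_DD := i_DD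
  have hLNK : S_LNK := i_LNK
  have hCST : S_CST := i_CST hLNK
  have hKER : S_KER := i_KER hCST
  have hPTH : S_PTH := i_PTH
  have hDM0 : S_DM0 := i_DM0
  have hDM1 : S_DM1 := i_DM1 hPTH
  have hDM2 : S_DM2 := i_DM2 hDM0
  have hDMZ : S_DMZ := i_DMZ hDM0 hDM1 hDM2
  have hINJ : S_INJ := i_INJ hKER hDD hDM0
  have hBDM : S_BDM := i_BDM hKER hDM0
  have hHG : S_HG := i_HG hDMZ hBDM
  have hCH1 : S_CH1 := i_CH1 hDMZ hINJ
  have hCHC : S_CHC := i_CHC hDMZ hINJ hHG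
  have hMIX : S_MIX := i_MIX
  have hTRI : S_TRI := i_TRI hMIX
  have hABC : S_ABC := i_ABC hCH1 hCHC hTRI
  have hCO1 : S_CO1 := i_CO1
  have hCOC : S_COC := i_COC hCO1 hPTH
  have hLBL : S_LBL := i_LBL hCOC
  have hLA : S_LA := i_LA
  have hFIL : S_FIL := i_FIL hLA hKER
  have hDBL : S_DBL := i_DBL
  have hSP1 : S_SP1 := i_SP1
  have hSP2 : S_SP2 := i_SP2 hFIL hCST hPTH hDBL
  have hSEP : S_SEP := i_SEP hSP1 hSP2
  have hSPN : S_SPN := i_SPN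
  have hEXF : S_EXF := i_EXF
  have hBFS : S_BFS := i_BFS
  have hUPW : S_UPW := i_UPW
  have hVCT : S_VCT := i_VCT
  have hUCN : S_UCN := i_UCN
  have hCRV : S_CRV := i_CRV
  have hADP : S_ADP := i_ADP hUPW hVCT hUCN hCRV
  have hSTA : S_STA := i_STA hSPN hEXF hHG hDD hPTH hUCN hVCT
  have hCPL : S_CPL := i_CPL
  have hRG0 : S_RG0 := i_RG0 hCPL
  have hRGC : S_RGC := i_RGC hRG0 hCPL
  have hCRN : S_CRN := i_CRN hABC
  have hCUT : S_CUT := i_CUT hADP hSEP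
  have hNEW : S_NEW := i_NEW hRGC hCRN
  have hPOK : S_POK := i_POK hLBL
  have hGLU : S_GLU := i_GLU
  have hSTP : S_STP := i_STP hGLU
  have hIND : S_IND := i_IND hCUT hNEW hPOK hSTP
  have hMN0 : S_MN0 := i_MN0 hSTA hRG0 hIND hGLU
  have hMN1 : S_MN1 := i_MN1 i_COV hBFS hMN0 i_PRE i_PR2
  exact main_all hMN1 (i_DSJ Pool.Agent.GridThm.T0) T g Δ G S hT hS hG

end Pool.Agent.IM55.SG
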