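import Pool.Agent.Work.MP_55ff09_co.SG.Stmts
import Pool.Agent.Work.MP_55ff09_co.PL.I_DSJ

/-!
# MP_55ff09_co, block SG: assembly
-/

set_option autoImplicit false

namespace Pool.Agent.IM55.SG

open SimpleGraph Pool.Agent.IM55 Pool.Agent.IM55.PL

theorem i_MN1 (h1 : S_COV) (h2 : S_BFS) (h3 : S_MN0) (h4 : S_PRE) (h5 : S_PR2) : S_MN1 := by
  intro P V _ _ T g Δ G S hT hS hG hΔ
  have hne : Nonempty V := hG.nonempty
  obtain ⟨S', hS', hc⟩ := h1 T G S hT.conn hne hS
  obtain ⟨r⟩ := hne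
  obtain ⟨p, ly, hb⟩ := h2 G hG r
  obtain ⟨lb, hw, hR⟩ := h3 T g Δ G S' r p ly hT hS' hc hb hΔ
  exact h5 G _ _ ly lb hb.lay hw (h4 G _ _ lb hR)

theorem main_all (h : S_MN1) (hD : S_DSJ) {P V : Type} [Fintype P] [Finite V]
    (T : Finset (Finset P)) (g Δ : ℕ) (G : SimpleGraph V) (S : V → Set P) (hT : Surf T g)
    (hS : Str T G S) (hG : DegLe G Δ) :
    Emb G ((6 * g + 12) * (Δ + 1) * (5 * (6 * (Δ + 1) + 1) + 1)) := by
  apply hD G
  intro v
  have hconn : (G.induce {u | G.Reachable v u}).Connected := by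
    apply induce_connected_of_patches v (Reachable.refl v)
    intro u hu
    obtain ⟨p⟩ := hu
    refine ⟨{x | x ∈ p.support}, ?_, p.start_mem_support, p.end_mem_support,
      p.connected_induce_support.preconnected _ _⟩
    intro x hx
    classical
    exact ⟨p.takeUntil x hx⟩
  refine h T g Δ _ (fun u => S u.1) hT ⟨fun u => hS.conn u.1, ?_⟩ hconn ?_
  · intro u w huw
    have : u.1 ≠ w.1 := fun e => huw (Subtype.ext e)
    exact hS.adj u.1 w.1 this
  · intro u
    refine le_trans ?_ (hG u.1)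
    have : (Subtype.val '' (G.induce {u | G.Reachable v u}).neighborSet u) ⊆
        G.neighborSet u.1 := by
      rintro _ ⟨w, hw, rfl⟩
      exact hw
    rw [← Set.ncard_image_of_injective _ Subtype.val_injective]
    exact Set.ncard_le_ncard this (Set.toFinite _)

end Pool.Agent.IM55.SG
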