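import Pool.Agent.Work.MP_55ff09_co.SG.Defs

/-!
# MP_55ff09_co, block SG (string graphs on surfaces): statements with proofs

Each item `X` is a theorem `i_X : (items it is from) → S_X`, in the file `SG/I_X.lean` (import
`Pool.Agent.Work.MP_55ff09_co.SG.Stmts`, namespace `Pool.Agent.IM55.SG`, auxiliary lemmas in the
namespace `Pool.Agent.IM55.SG.XX`, `XX` the name of the item). `Γ = gph T` is the host graph. In
`Pool.Agent.IM55`: `cmp G A v` is the component of `v` in `G[A]`, with `cmp_adj`, `cmp_connected`,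
`subset_cmp`, `cmp_eq`, ...; `conn_union`; `Touch G X Y`: `X` and `Y` meet or are adjacent.
-/

set_option autoImplicit false

namespace Pool.Agent.IM55.SG

open SimpleGraph Pool.Agent.IM55 Pool.Agent.IM55.PL

/-! ## Homology mod 2 of the surface -/

/-- DD: `∂∂ = 0`. At `x`: `Σ_y Σ_{t ∋ x, y} c t` over the neighbours `y` of `x`, i.e.
`Σ_{t ∈ T, x ∈ t} c t · |t \ {x}|`, and `|t \ {x}| = 2`. -/
def S_DD : Prop := ∀ {P : Type} [Fintype P] (T : Finset (Finset P)) (g : ℕ), Surf T g →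
  ∀ c : Finset P → ZMod 2, d1 (d2 T c) = 0

/-- LNK: if no edge at `x` is in the boundary of `c`, then `c` is constant on the triangles which
contain `x`. Two triangles with a common edge `x y` are the only two which contain it (`two`), so the
coefficient `c s + c t` of the boundary at this edge is 0. Then induction along `link`. -/
def S_LNK : Prop := ∀ {P : Type} [Fintype P] (T : Finset (Finset P)) (g : ℕ), Surf T g →
  ∀ (c : Finset P → ZMod 2) (x : P), (∀ y, d2 T c s(x, y) = 0) →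
  ∀ s ∈ T, ∀ t ∈ T, x ∈ s → x ∈ t → c s = c t

/-- CST (from LNK): if no edge which meets the connected set `A` is in the boundary of `c`, then `c` is
constant on the triangles which meet `A`. (Adjacent points have a common triangle.) -/
def S_CST : Prop := ∀ {P : Type} [Fintype P] (T : Finset (Finset P)) (g : ℕ), Surf T g →
  ∀ (c : Finset P → ZMod 2) (A : Set P), ((gph T).induce A).Preconnected →
  (∀ x ∈ A, ∀ y, d2 T c s(x, y) = 0) →
  ∀ s ∈ T, ∀ t ∈ T, (∃ x ∈ s, x ∈ A) → (∃ x ∈ t, x ∈ A) → c s = c t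

/-- KER (from CST): the kernel of `d2` consists of the functions constant on `T` (`A = univ`). -/
def S_KER : Prop := ∀ {P : Type} [Fintype P] (T : Finset (Finset P)) (g : ℕ), Surf T g →
  ∀ c : Finset P → ZMod 2, d2 T c = 0 → ∀ s ∈ T, ∀ t ∈ T, c s = c t

/-- PTH: a 1-chain from `x` to `y` inside a connected set. Induction along a walk of `Γ[A]`: the
boundary of a single edge `dl s(x, y)` is `dl x + dl y`. -/
def S_PTH : Prop := ∀ {P : Type} [Fintype P] (T : Finset (Finset P)) (A : Set P),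
  ((gph T).induce A).Preconnected → ∀ x ∈ A, ∀ y ∈ A,
  ∃ a ∈ sp (EE T A), d1 a = dl x + dl y

/-- DM0: dimension of the space of functions supported on `X` (linear equivalence with `X → ZMod 2`). -/
def S_DM0 : Prop := ∀ {ι : Type} [Finite ι] (X : Set ι), Module.finrank (ZMod 2) (sp X) = X.ncard

/-- DM1 (from PTH): the image of the 1-chains inside the connected set `A` under the boundary: the
functions on `A` with sum 0. `≤`: every edge has two ends (sum over ordered pairs, symmetric, with zero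
diagonal; in characteristic 2). `≥`: `f = Σ_{x ∈ A} f x (dl x + dl x₀)`, `x₀ ∈ A` fixed (if `A` is
empty both sides are 0). -/
def S_DM1 : Prop := ∀ {P : Type} [Fintype P] (T : Finset (Finset P)) (A : Set P),
  ((gph T).induce A).Preconnected → ∀ f : P → ZMod 2,
  (f ∈ sp A ∧ ∑ x, f x = 0) ↔ ∃ a ∈ sp (EE T A), d1 a = f

/-- DM2 (from DM0): functions on `A ≠ ∅` with sum 0 (kernel of a non zero functional on `sp A`). -/
def S_DM2 : Prop := ∀ {P : Type} [Fintype P] (A : Set P) (E : Submodule (ZMod 2) (P → ZMod 2)),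
  A.Nonempty → (∀ f, f ∈ E ↔ f ∈ sp A ∧ ∑ x, f x = 0) → Module.finrank (ZMod 2) E + 1 = A.ncard

/-- DMZ (from DM0, DM1, DM2): dimension of the cycle space of a connected set: rank-nullity for the
restriction of `d1` to `sp (EE T A)`. -/
def S_DMZ : Prop := ∀ {P : Type} [Fintype P] (T : Finset (Finset P)) (A : Set P),
  ((gph T).induce A).Connected →
  Module.finrank (ZMod 2) (Z T A) + A.ncard = (EE T A).ncard + 1

/-- INJ (from KER, DD, DM0): `d2` is injective on `sp (FF T A)` if `A ≠ univ` (an element of the kernel is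
constant on `T` and 0 on a triangle with a vertex outside `A`), and its image lies in `Z T A` (an
edge not inside `A` is in no triangle inside `A`) and in the range of `d2`. -/
def S_INJ : Prop := ∀ {P : Type} [Fintype P] (T : Finset (Finset P)) (g : ℕ), Surf T g →
  ∀ A : Set P, A ≠ Set.univ →
  (FF T A).ncard ≤ Module.finrank (ZMod 2) ↥(Z T A ⊓ LinearMap.range (d2 T))

/-- BDM (from KER, DM0): the range of `d2` is the image of `sp ↑T`, on which the kernel is spanned by
the indicator function of `T` (which is in the kernel by `two`). `T` is not empty. -/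
def S_BDM : Prop := ∀ {P : Type} [Fintype P] (T : Finset (Finset P)) (g : ℕ), Surf T g →
  Module.finrank (ZMod 2) (LinearMap.range (d2 T)) + 1 = T.card

/-- HG (from DMZ, BDM): `dim H_1 = g`, from the Euler formula. (`EE T univ` is the set of edges.) -/
def S_HG : Prop := ∀ {P : Type} [Fintype P] (T : Finset (Finset P)) (g : ℕ), Surf T g →
  Module.finrank (ZMod 2) (Z T Set.univ) = Module.finrank (ZMod 2) (LinearMap.range (d2 T)) + g

/-- CH1 (from DMZ, INJ): the Euler characteristic of a connected set `A ≠ univ` is at most 1. -/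
def S_CH1 : Prop := ∀ {P : Type} [Fintype P] (T : Finset (Finset P)) (g : ℕ), Surf T g →
  ∀ A : Set P, A ≠ Set.univ → ((gph T).induce A).Connected →
  A.ncard + (FF T A).ncard ≤ (EE T A).ncard + 1

/-- CHC (from DMZ, INJ, HG, DD): the Euler characteristic of the complement of a region is at most
`1 - g`. Let `Zc = Z T Dᶜ`, `B = range d2`. `Z T univ = Zc ⊔ B` (by `hom`, DD), so by HG
`dim Zc = g + dim (Zc ⊓ B) ≥ g + |FF T Dᶜ|` (INJ; `Dᶜ ≠ univ`), and DMZ. -/
def S_CHC : Prop := ∀ {P : Type} [Fintype P] (T : Finset (Finset P)) (g : ℕ), Surf T g →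
  ∀ D : Set P, Reg T D → (Dᶜ).ncard + (FF T Dᶜ).ncard + g ≤ (EE T Dᶜ).ncard + 1

/-- MIX: double counting of the pairs (edge with ends of different colours, triangle containing it).
A triangle with exactly two colours has two such edges, a triangle with three colours three,
every edge is in two triangles. -/
def S_MIX : Prop := ∀ {P : Type} [Fintype P] (T : Finset (Finset P)) (g : ℕ), Surf T g →
  ∀ k : P → Fin 3,
  2 * {e | e ∈ (gph T).edgeSet ∧ ∃ x ∈ e, ∃ y ∈ e, k x ≠ k y}.ncard =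
    2 * {t | t ∈ T ∧ (∃ x ∈ t, ∃ y ∈ t, k x ≠ k y) ∧ ∃ i, ∀ x ∈ t, k x ≠ i}.ncard +
      3 * {t | t ∈ T ∧ ∀ i, ∃ x ∈ t, k x = i}.ncard

/-- TRI (from MIX): `F₃ = 2 (χ_0 + χ_1 + χ_2 - χ)`, `F₃` the number of triangles with three colours.
All edges and all triangles: one colour (they are counted by `EE`, `FF` of the colour classes) or
mixed; then `euler`. -/
def S_TRI : Prop := ∀ {P : Type} [Fintype P] (T : Finset (Finset P)) (g : ℕ), Surf T g →
  ∀ k : P → Fin 3,
  {t | t ∈ T ∧ ∀ i, ∃ x ∈ t, k x = i}.ncard + 2 * ∑ i, (EE T {x | k x = i}).ncard + 4 =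
    2 * ∑ i, ({x | k x = i}.ncard + (FF T {x | k x = i}).ncard) + 2 * g

/-- ABC (from CH1, CHC, TRI): colours `D'`, `D \ D'`, `Dᶜ`. -/
def S_ABC : Prop := ∀ {P : Type} [Fintype P] (T : Finset (Finset P)) (g : ℕ), Surf T g →
  ∀ D D' : Set P, Reg T D → D' ⊆ D → ((gph T).induce D').Connected →
  ((gph T).induce (D \ D')).Connected →
  {t | t ∈ T ∧ (∃ x ∈ t, x ∈ D') ∧ (∃ x ∈ t, x ∈ D ∧ x ∉ D') ∧ ∃ x ∈ t, x ∉ D}.ncard ≤ 2

/-- CO1: the cut edges `d b` of `D` with `d ∈ D`, `b ∈ I \ D` form a cocycle: the functional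
`F a = Σ_{d ∈ D, b ∉ D, b ∈ I} a s(d, b)` vanishes on boundaries. Proof: by linearity consider one
triangle `t` (`F (d2 T c) = Σ_{t ∈ T} c t · #{(d, b) | d ∈ t ∩ D, b ∈ t ∩ I \ D}`); if
`|t ∩ D| = 1` the number of pairs is `|t ∩ I \ D|`, 0 or 2; if `|t ∩ D| = 2` it is `2 |t ∩ I \ D|`. -/
def S_CO1 : Prop := ∀ {P : Type} [Fintype P] (T : Finset (Finset P)) (g : ℕ), Surf T g →
  ∀ D I : Set P, (∀ t ∈ T, ∀ d ∈ t, d ∈ D → ∀ b ∈ t, b ∉ D → ∀ b' ∈ t, b' ∉ D →
    (b ∈ I ↔ b' ∈ I)) →
  ∀ F : (Sym2 P → ZMod 2) → ZMod 2,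
  (∀ a, F a = ∑ d : P, ∑ b : P, (open Classical in if d ∈ D ∧ b ∉ D ∧ b ∈ I then a s(d, b) else 0)) →
  ∀ c, F (d2 T c) = 0

/-- COC (from CO1, PTH): a set `I` of neighbours of the region `D` which is not separated from the other
neighbours by a corner is empty or everything. `F` as in CO1 (linear). `F = 0` on chains inside
`D` or inside `Dᶜ`. By `hom` and CO1 `F = 0` on all cycles. For `d b`, `d' b'` (`d, d' ∈ D`,
`b, b' ∉ D` adjacent) the chain `s(d,b) + s(d',b')` + (chain in `D` from `d` to `d'`) + (chain in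
`Dᶜ` from `b` to `b'`) is a cycle. -/
def S_COC : Prop := ∀ {P : Type} [Fintype P] (T : Finset (Finset P)) (g : ℕ), Surf T g →
  ∀ D I : Set P, Reg T D → (∀ t ∈ T, ∀ d ∈ t, d ∈ D → ∀ b ∈ t, b ∉ D → ∀ b' ∈ t, b' ∉ D →
    (b ∈ I ↔ b' ∈ I)) → ∀ b ∈ nbD T D, ∀ b' ∈ nbD T D, (b ∈ I ↔ b' ∈ I)

/-- LBL (from COC): the number of labels is at most 1 + the number of corners. The graph on the set of
labels `lam '' nbD T D` in which every corner `{d, b, b'}` joins `lam b` and `lam b'` is
connected (COC with `I = {b | lam b` in a component`}`), so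
`SimpleGraph.Connected.card_vert_le_card_edgeSet_add_one` applies. In a corner `{d, b, b'}`,
`d` is the only point of `D`; `b, b' ∈ nbD T D`. -/
def S_LBL : Prop := ∀ {P : Type} [Fintype P] (T : Finset (Finset P)) (g : ℕ), Surf T g →
  ∀ (D : Set P) (lam : P → P), Reg T D →
  (lam '' nbD T D).ncard ≤ 1 + (Cor T D lam).ncard

/-! ## Separation -/

/-- LA: linear algebra. `X₀ = X ⊓ ker phi`, `d` is injective on `X₀` and `X.map d = X₀.map d` (replace
`c` by `c - phi c • w`). Let `L : N → X₀` be a linear left inverse of `d` on `X₀` and let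
`h : N → X₀` be linear with `d (h a) - a ∈ W` for all `a ∈ W ⊔ X.map d` (a linear right inverse of
`W × X₀ → N`, `(u, c) ↦ u + d c`, on its range, extended to `N`, second component).
`f a = L a + h (a - d (L a))`. -/
def S_LA : Prop := ∀ {K M N : Type} [Field K] [AddCommGroup M] [Module K M] [AddCommGroup N]
  [Module K N] (d : M →ₗ[K] N) (X : Submodule K M) (phi : M →ₗ[K] K) (w : M)
  (W Y : Submodule K N), (∀ c ∈ X, d c = 0 → phi c = 0 → c = 0) → w ∈ X → d w = 0 → phi w = 1 →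
  Y ≤ W ⊔ X.map d →
  ∃ f : N →ₗ[K] M, (∀ a ∈ Y, d (f a) - a ∈ W) ∧ ∀ c ∈ X, phi c = 0 → f (d c) = c

/-- FIL (from LA, KER): linear filling of cycles in the complement of the region `D`, not using the
triangle `t₀`. LA with `d = d2 T`, `X = sp ↑T`, `phi c = c t₀`, `w` = indicator of `T` (in the kernel
by `two`), `W = sp (EE T Dᶜ)`, `Y = Z T univ`. `d2 T (dl t₀) = d2 T (dl t₀ + w)`. Here
`X.map d = range d2`, because `d2 T c` depends only on `c` on `T`. -/
def S_FIL : Prop := ∀ {P : Type} [Fintype P] (T : Finset (Finset P)) (g : ℕ), Surf T g →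
  ∀ D : Set P, Reg T D → ∀ t₀ ∈ T, ∃ f : (Sym2 P → ZMod 2) →ₗ[ZMod 2] (Finset P → ZMod 2),
    (∀ a ∈ Z T Set.univ, ∃ a' ∈ sp (EE T Dᶜ), d2 T (f a) = a + a') ∧
    (∀ t ∈ T, t ≠ t₀ → ∀ s ∈ T, f (d2 T (dl t)) s = dl t s) ∧
    ∀ s ∈ T, f (d2 T (dl t₀)) s = 1 + dl t₀ s

/-- DBL: every edge is in two triangles. (Double counting of the pairs (triangle, edge in it).) -/
def S_DBL : Prop := ∀ {P : Type} [Fintype P] (T : Finset (Finset P)) (g : ℕ), Surf T g →
  ∀ (b : Sym2 P → ZMod 2) (h : Finset P → ZMod 2),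
  (∀ t ∈ T, ∀ x ∈ t, ∀ y ∈ t, ∀ z ∈ t, x ≠ y → y ≠ z → x ≠ z →
    h t = b s(x, y) + b s(y, z) + b s(x, z)) → ∑ t ∈ T, h t = 0

/-- SP1: big components. For `A ⊆ P` call `y` `A`-big if `y ∈ D`, `y ∉ nn Pi D A` and the component
of `y` in `D \ nn Pi D A` contains more than half of the marks (`pos i`, `i ∈ M`). Two `A`-big points
are in the same component; if `A ⊆ A'`, `A'`-big points are `A`-big. If `t` does not meet `D`, all
points of `D` are `t`-big (`D` is connected). `K t` = a `t`-big point, `B e` = the set of `e`-big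
points (a component or empty). -/
def S_SP1 : Prop := ∀ {P : Type} [Fintype P] (T : Finset (Finset P)) (D : Set P),
  ((gph T).induce D).Connected → ∀ (Pi : P → Set P) {ι : Type} (M : Finset ι) (pos : ι → P),
  M.Nonempty → (∀ i ∈ M, pos i ∈ D) →
  (∀ t ∈ T, (∃ x ∈ t, x ∈ D) → ∃ y, y ∈ D ∧ y ∉ nn Pi D ↑t ∧
    M.card < 2 * {i | i ∈ M ∧ pos i ∈ cmp (gph T) (D \ nn Pi D ↑t) y}.ncard) →
  ∃ (B : Sym2 P → Set P) (K : Finset P → P),
    (∀ e, ((gph T).induce (B e)).Preconnected ∧ B e ⊆ D ∧ ∀ x ∈ e, x ∈ D → Disjoint (B e) (Pi x)) ∧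
    ∀ t ∈ T, K t ∈ D ∧ (∀ x ∈ t, x ∈ D → K t ∉ Pi x) ∧ ∀ x ∈ t, ∀ y ∈ t, x ≠ y → K t ∈ B s(x, y)

/-- SP2 (from FIL, CST, PTH, DBL): contradiction. Fix `x₀ ∉ D`. For every `x` a chain `A x` with
`d1 (A x) = dl x + dl x₀`, inside `Pi x ∪ Dᶜ` if `x ∈ D` (this set is connected), inside `Dᶜ` if
`x ∉ D`. For an edge `x y`: `C = A x + A y + dl s(x, y)` is a cycle supported on `Pi x ∪ Pi y ∪ Dᶜ`
(only those `Pi` with centre in `D`), so `d2 T (f C)` is supported there too (FIL, `t₀ ∈ T`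
arbitrary), and `f C` is constant on the triangles which meet `B s(x, y)` (CST): let `b s(x, y)` be
this value (value at a chosen triangle meeting `B s(x, y)`). For `t = {x, y, z} ∈ T` the sum of the
three cycles is `d2 T (dl t)`, and evaluated at a triangle `τ ∋ K t` (`cover`) the sum of the three
values `b` is `f (d2 T (dl t)) τ`, which is 0 for `t ≠ t₀` and 1 for `t = t₀`, since `τ ≠ t`
(`K t ∈ D` is not in `t`, as `x ∈ Pi x` for `x ∈ t ∩ D`). The sum over all `t` is 1, contradicting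
DBL. -/
def S_SP2 : Prop := ∀ {P : Type} [Fintype P] (T : Finset (Finset P)) (g : ℕ), Surf T g →
  ∀ D : Set P, Reg T D → ∀ Pi : P → Set P,
  (∀ x ∈ D, Pi x ⊆ D ∧ x ∈ Pi x ∧ ((gph T).induce (Pi x)).Connected ∧
    Touch (gph T) (Pi x) Dᶜ) → ∀ (B : Sym2 P → Set P) (K : Finset P → P),
  (∀ e, ((gph T).induce (B e)).Preconnected ∧ B e ⊆ D ∧
    ∀ x ∈ e, x ∈ D → Disjoint (B e) (Pi x)) →
  (∀ t ∈ T, K t ∈ D ∧ (∀ x ∈ t, x ∈ D → K t ∉ Pi x) ∧
    ∀ x ∈ t, ∀ y ∈ t, x ≠ y → K t ∈ B s(x, y)) → False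

/-- SEP (from SP1, SP2): a triangle whose curves separate the marks well. If `M` is empty take any
triangle meeting `D`. -/
def S_SEP : Prop := ∀ {P : Type} [Fintype P] (T : Finset (Finset P)) (g : ℕ), Surf T g →
  ∀ D : Set P, Reg T D → ∀ Pi : P → Set P,
  (∀ x ∈ D, Pi x ⊆ D ∧ x ∈ Pi x ∧ ((gph T).induce (Pi x)).Connected ∧
    Touch (gph T) (Pi x) Dᶜ) → ∀ {ι : Type} (M : Finset ι) (pos : ι → P), (∀ i ∈ M, pos i ∈ D) →
  ∃ t ∈ T, (∃ x ∈ t, x ∈ D) ∧ ∀ y, y ∈ D → y ∉ nn Pi D ↑t →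
    2 * {i | i ∈ M ∧ pos i ∈ cmp (gph T) (D \ nn Pi D ↑t) y}.ncard ≤ M.card

/-! ## The first cut -/

/-- SPN: the cycles `A x + A y + dl s(x, y)` span the cycle space. Let `z` be a cycle. Then
`z = Σ_{e ∈ supp z} dl e = Σ_{e ∈ supp z} (A x + A y + dl s(x, y))`, because
`Σ_{e = xy ∈ supp z} (A x + A y) = Σ_x (d1 z x) • A x = 0`. -/
def S_SPN : Prop := ∀ {P : Type} [Fintype P] (T : Finset (Finset P)) (A : P → Sym2 P → ZMod 2)
  (z : Sym2 P → ZMod 2), z ∈ Z T Set.univ →
  z ∈ Submodule.span (ZMod 2) {c | ∃ x y, (gph T).Adj x y ∧ c = A x + A y + dl s(x, y)}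

/-- EXF: extraction of `g` vectors which span `Y` modulo `B`. In the quotient by `B` the image of `s` spans
a space of dimension at most `g`, so it contains a basis of this space, with at most `g`
elements; lift them to `s`. -/
def S_EXF : Prop := ∀ {K M : Type} [Field K] [AddCommGroup M] [Module K M] [Module.Finite K M]
  (B Y : Submodule K M) (s : Set M) (g : ℕ), s ⊆ Y → B ≤ Y → Y ≤ Submodule.span K s ⊔ B →
  Module.finrank K Y ≤ Module.finrank K B + g →
  ∃ F : Finset M, ↑F ⊆ s ∧ F.card ≤ g ∧ Y ≤ Submodule.span K ↑F ⊔ B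

/-- STA (from SPN, EXF, HG, DD, PTH, UPW, UCN, VCT): the first cut `K`. `x₀ ∈ S r`. For `x ∈ P` choose
`v ∋ x` and the vertical path from `v` to `r` (UPW with `O = {r}`, one more step if it ends at a
neighbour of `r`); `U x` = union of its strings (connected by UCN, contains `x` and `x₀`), `A x` a
chain from `x` to `x₀` inside `U x`. SPN, HG, EXF: at most `g` of the cycles
`A x + A y + dl s(x, y)` span `Z T univ` modulo `range d2`. `K = S r ∪` the sets `U x`, `U y` for
these. A string meeting `U x` is, or is adjacent to, a vertex of the vertical path: VCT. -/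
def S_STA : Prop := ∀ {P V : Type} [Fintype P] [Finite V] (T : Finset (Finset P)) (g Δ : ℕ)
  (G : SimpleGraph V) (S : V → Set P) (r : V) (p : V → V) (ly : V → ℕ), Surf T g → Str T G S →
  (∀ x, ∃ v, x ∈ S v) → Bfs G r p ly → DegLe G Δ →
  ∃ K : Set P, S r ⊆ K ∧ ((gph T).induce K).Connected ∧
    Z T Set.univ ≤ Z T K ⊔ LinearMap.range (d2 T) ∧
    ∀ j, {v | (S v ∩ K).Nonempty ∧ ly v = j}.ncard ≤ (6 * g + 1) * (Δ + 1)

/-! ## Vertical paths -/

/-- BFS: breadth first search layers exist (`ly = G.dist r`). -/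
def S_BFS : Prop := ∀ {V : Type} (G : SimpleGraph V), G.Connected → ∀ r : V,
  ∃ (p : V → V) (ly : V → ℕ), Bfs G r p ly

/-- UPW: go up until the closed neighbourhood of `O ∋ r` is reached (`Nat.find`; `ly` decreases as long as
`r` is not reached). -/
def S_UPW : Prop := ∀ {V : Type} (G : SimpleGraph V) (r : V) (p : V → V) (ly : V → ℕ),
  Bfs G r p ly → ∀ O : Set V, r ∈ O → ∀ v, ∃ (k : ℕ) (z : V),
  (∀ i < k, ∀ w ∈ O, p^[i] v ≠ w ∧ ¬ G.Adj (p^[i] v) w) ∧ z ∈ O ∧
    (p^[k] v = z ∨ G.Adj (p^[k] v) z)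

/-- VCT: at most three vertices `p^[i] v`, `i ≤ k`, are in the layers `j - 1, j, j + 1`
(`ly (p^[i] v) + i = ly v`), and a closed neighbourhood has at most `Δ + 1` vertices. -/
def S_VCT : Prop := ∀ {V : Type} [Finite V] (G : SimpleGraph V) (Δ : ℕ) (r : V) (p : V → V)
  (ly : V → ℕ), Bfs G r p ly → DegLe G Δ → ∀ (v : V) (k : ℕ), (∀ i < k, p^[i] v ≠ r) → ∀ j,
  {w | (∃ i ≤ k, w = p^[i] v ∨ G.Adj w (p^[i] v)) ∧ ly w = j}.ncard ≤ 3 * (Δ + 1)

/-- UCN: the union of the strings of a vertical path is connected (induction on `k`, `conn_union`). -/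
def S_UCN : Prop := ∀ {P V : Type} (T : Finset (Finset P)) (G : SimpleGraph V) (S : V → Set P)
  (r : V) (p : V → V) (ly : V → ℕ), Str T G S → Bfs G r p ly → ∀ (v : V) (k : ℕ),
  (∀ i < k, p^[i] v ≠ r) → ((gph T).induce {x | ∃ i ≤ k, x ∈ S (p^[i] v)}).Connected

/-- CRV: a component of `U ∩ D`, `U` connected and not inside `D`, is adjacent to the complement of `D`
(the first vertex outside `D` of a walk in `U`). -/
def S_CRV : Prop := ∀ {P : Type} (G : SimpleGraph P) (U D : Set P) (x : P),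
  (G.induce U).Connected → x ∈ U → x ∈ D → ¬ U ⊆ D → Touch G (cmp G (U ∩ D) x) Dᶜ

/-- ADP (from UPW, VCT, UCN, CRV): the curve of `x`. `x ∈ S v`, `O = {w | ¬ S w ⊆ D} ∋ r`, `k, z` from
UPW, `U` = union of the strings of `p^[i] v`, `i ≤ k`, and of `z` (connected), the curve is the
component of `x` in `U ∩ D`. A string `w` which meets it is (or is adjacent to) `z` or some
`p^[i] v`, `i ≤ k`; if `w ∈ O` then `i = k`. -/
def S_ADP : Prop := ∀ {P V : Type} [Finite P] [Finite V] (T : Finset (Finset P)) (Δ : ℕ)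
  (G : SimpleGraph V) (S : V → Set P) (r : V) (p : V → V) (ly : V → ℕ), Str T G S →
  (∀ x, ∃ v, x ∈ S v) → Bfs G r p ly → DegLe G Δ → ∀ D : Set P, ¬ S r ⊆ D → ∀ x ∈ D,
  ∃ A : Set P, Crv T S ly Δ D x A

/-! ## Regions -/

/-- CPL: the complement of a component of `A \ K` in `A`: `K` together with the other components of
`A \ K`, each of which is adjacent to `K`, because `A` is connected. -/
def S_CPL : Prop := ∀ {P : Type} (G : SimpleGraph P) (A K : Set P), (G.induce A).Connected →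
  (G.induce K).Connected → K ⊆ A → ∀ x, x ∈ A → x ∉ K →
  (G.induce (A \ cmp G (A \ K) x)).Connected

/-- RG0 (from CPL): components of the complement of `K` are regions (`Z T A ≤ Z T A'` if
`A ⊆ A'`). -/
def S_RG0 : Prop := ∀ {P : Type} [Fintype P] (T : Finset (Finset P)) (g : ℕ), Surf T g →
  ∀ K : Set P, ((gph T).induce K).Connected → Z T Set.univ ≤ Z T K ⊔ LinearMap.range (d2 T) →
  ∀ x, x ∉ K → Reg T (cmp (gph T) Kᶜ x)

/-- RGC (from RG0, CPL): components of `D \ N`: RG0 with `K = Dᶜ ∪ N`, and CPL with `A = D`, `K = N`. -/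
def S_RGC : Prop := ∀ {P : Type} [Fintype P] (T : Finset (Finset P)) (g : ℕ), Surf T g →
  ∀ D N : Set P, Reg T D → N ⊆ D → ((gph T).induce N).Connected → Touch (gph T) N Dᶜ →
  ∀ x, x ∈ D → x ∉ N → Reg T (cmp (gph T) (D \ N) x) ∧
    ((gph T).induce (D \ cmp (gph T) (D \ N) x)).Connected

/-- CRN (from ABC): the corners of a component `D'` of `D \ N`. Let `{d, b, b'}` be a corner of `D'`, so
`b, b' ∈ N ∪ Dᶜ`. Not both are in `N` (same label); if both are in `Dᶜ` it is a corner of `D`; if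
one is in `N` it is a triangle as in ABC. -/
def S_CRN : Prop := ∀ {P : Type} [Fintype P] (T : Finset (Finset P)) (g : ℕ), Surf T g →
  ∀ (D N D' : Set P) (lam lam' : P → P) (x₁ : P), Reg T D → N ⊆ D →
  ((gph T).induce D').Connected → ((gph T).induce (D \ D')).Connected → D' ⊆ D →
  Disjoint D' N → (∀ b ∈ nbD T D', b ∈ N ∨ b ∉ D) → (∀ b ∈ N, lam' b = x₁) →
  (∀ b, b ∉ D → lam' b = lam b) →
  (Cor T D' lam').ncard ≤ {t | t ∈ Cor T D lam ∧ ∃ d ∈ t, d ∈ D'}.ncard + 2

/-- CUT (from ADP, SEP): a good cut. `Pi x` from ADP, `M` = the corners, `pos t` = the point of the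
corner `t` in `D` (unique, a corner has three points), `N = nn Pi D t`: union of at most three
curves, connected because their centres are pairwise adjacent or equal. -/
def S_CUT : Prop := ∀ {P V : Type} [Fintype P] [Finite V] (T : Finset (Finset P)) (g Δ : ℕ)
  (G : SimpleGraph V) (S : V → Set P) (r : V) (p : V → V) (ly : V → ℕ), Surf T g → Str T G S →
  (∀ x, ∃ v, x ∈ S v) → Bfs G r p ly → DegLe G Δ → ∀ (D : Set P) (lam : P → P), Reg T D →
  ¬ S r ⊆ D → ∃ N : Set P, Cut T S ly Δ D lam N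

/-- NEW (from RGC, CRN): the state of a component `D'` of `D \ N`. `x₁ ∈ N`,
`lam' b = if b ∈ N then x₁ else lam b`, `nm' i = if i = x₁ then q else nm i`,
`X' i = if i = x₁ then {w | ¬ S w ⊆ D ∧ (S w ∩ N).Nonempty} else X i`. A neighbour `b` of `D'` is in `N`
or it is a neighbour of `D` outside `D` (then `lam b ∉ D`, so `lam b ≠ x₁`). `old`: let `S w` be not
inside `D'`. If `S w ⊆ D` meets `N`, the new name is `q`, which meets `N`; if `S w ⊆ D` does not meet
`N`, it is `w`; otherwise `e w`, and `S (e w)` is not inside `D`. -/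
def S_NEW : Prop := ∀ {P V : Type} [Fintype P] [Finite V] (T : Finset (Finset P)) (g Δ m : ℕ)
  (S : V → Set P) (ly : V → ℕ), Surf T g → (∀ v, (S v).Nonempty) → 6 * (Δ + 1) ≤ m →
  ∀ (D : Set P) (e : V → V) (lam : P → P) (nm : P → V) (X : P → Set V) (N : Set P) (q : V),
  St T S m D e lam nm X → Cut T S ly Δ D lam N →
  (∀ v, S v ⊆ D → (S v ∩ N).Nonempty → S q ⊆ D ∧ (S q ∩ N).Nonempty) →
  ∀ x, x ∈ D → x ∉ N → ∃ (lam' : P → P) (nm' : P → V) (X' : P → Set V),
    St T S m (cmp (gph T) (D \ N) x) (en S D N q e) lam' nm' X'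

/-- POK (from LBL): at most `5 (m + 1)` names poke into `D`. A connected `S w` which meets `D` and is not
inside `D` contains a neighbour `b` of `D`, so `e w` is `nm i` or in `e '' X i`, `i = lam b`, and there
are at most 5 labels `i`. -/
def S_POK : Prop := ∀ {P V : Type} [Fintype P] [Finite V] (T : Finset (Finset P)) (g m : ℕ)
  (S : V → Set P), Surf T g → (∀ v, ((gph T).induce (S v)).Connected) →
  ∀ (D : Set P) (e : V → V) (lam : P → P) (nm : P → V) (X : P → Set V),
  St T S m D e lam nm X → (pk S D e).ncard ≤ 5 * (m + 1)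

/-! ## The tree decomposition -/

/-- GLU (from `GridThm.PT0`): gluing. Nodes: `Option (Σ i, Y i)`, tree `GridThm.glue` with the roots
`ρ i`, `bag none = R'`, `bag (some ⟨i, y⟩) = bag i y`. A name in `R'` which occurs in the `i`-th
decomposition is not in `Nw i`, so it is in `R i`, hence in the root part; a name which is not in
`R'` occurs only in one decomposition (it is in `Nw i`). -/
def S_GLU : Prop := ∀ {V ι : Type} (G : SimpleGraph V) (w : ℕ) (lb : V → V)
  (Q R' Root New : Set V) (Nw R : ι → Set V) (lbi : ι → V → V),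
  (∀ i, RD G w (Nw i) (R i) (lbi i)) → (∀ i, R i ⊆ R') → (∀ i, Disjoint R' (Nw i)) →
  (∀ i j, i ≠ j → Disjoint (Nw i) (Nw j)) →
  (∀ i, ∀ u ∈ Nw i, ∀ v, G.Adj u v → lb u = lbi i u ∧ lb v = lbi i v) →
  R'.encard ≤ w → Root ⊆ R' → (∀ x, x ∈ R' → x ∈ Root ∪ New) → (∀ i, Nw i ⊆ New) →
  (∀ u ∈ New, u ∈ Q ∨ ∃ i, u ∈ Nw i) →
  (∀ u ∈ Q, ∀ v, G.Adj u v → (lb u ∈ R' ∧ lb v ∈ R') ∨ ∃ i, v ∈ Nw i) →
  RD G w New Root lb

/-- STP (from GLU): the step of the induction. Children: the components `D'` of `D \ N` (index type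
`{D' // ∃ x, x ∈ D ∧ x ∉ N ∧ D' = cmp (gph T) (D \ N) x}`), `lbi` their labellings (from `Con`).
`lb v = e v` if `¬ S v ⊆ D`, `q` if `S v ⊆ D` meets `N`, and `lbi D' v` if `S v ⊆ D'` (every
string inside `D` which does not meet `N` is inside exactly one `D'`). GLU with
`Q = {v | S v ⊆ D, S v meets N}`, `Root = pk S D e`,
`R' = pk S D e ∪ {i | i = q ∧ S q ⊆ D ∧ (S q ∩ N).Nonempty}`, `New = {v | S v ⊆ D}`,
`Nw D' = {v | S v ⊆ D'}`, `R D' = pk S D' (en S D N q e)`. `R D' ⊆ R'`: a string which meets `D'` and is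
not inside `D'` is not inside `D` or meets `N`. Let `u, v` be adjacent, `S u ⊆ D'`: `v` is inside `D'`,
or inside `D` and meets `N` (then `lbi D' v = en ... v = q`), or not inside `D` (then
`lbi D' v = e v`). Widths: the label `q` is only used for the strings of `Q` (`wid`), a label `i`
with `S i ⊆ D'` only in `D'`. -/
def S_STP : Prop := ∀ {P V : Type} [Fintype P] [Finite V] (T : Finset (Finset P)) (Δ m c w : ℕ)
  (G : SimpleGraph V) (S : V → Set P) (ly : V → ℕ), Str T G S →
  ∀ (D : Set P) (e : V → V) (lam : P → P) (nm : P → V) (X : P → Set V) (N : Set P) (q : V),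
  St T S m D e lam nm X → Cut T S ly Δ D lam N → (pk S D e).ncard + 1 ≤ w →
  12 * (Δ + 1) ≤ c →
  (∀ v, S v ⊆ D → (S v ∩ N).Nonempty → S q ⊆ D ∧ (S q ∩ N).Nonempty) →
  (∀ x, x ∈ D → x ∉ N → Con G S ly c w (cmp (gph T) (D \ N) x) (en S D N q e)) →
  Con G S ly c w D e

/-- IND (from CUT, NEW, POK, STP): induction on `|D|` (`N` is not empty; `q` = a string inside `D` which
meets `N` if there is one, arbitrary otherwise; `¬ S r ⊆ D'` since `D' ⊆ D`). -/
def S_IND : Prop := ∀ {P V : Type} [Fintype P] [Finite V] (T : Finset (Finset P)) (g Δ : ℕ)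
  (G : SimpleGraph V) (S : V → Set P) (r : V) (p : V → V) (ly : V → ℕ), Surf T g → Str T G S →
  (∀ x, ∃ v, x ∈ S v) → Bfs G r p ly → DegLe G Δ →
  ∀ (D : Set P) (e : V → V) (lam : P → P) (nm : P → V) (X : P → Set V), ¬ S r ⊆ D →
  St T S (6 * (Δ + 1)) D e lam nm X →
  Con G S ly (12 * (Δ + 1)) (5 * (6 * (Δ + 1) + 1) + 1) D e

/-- MN0 (from STA, RG0, IND, GLU). `K` from STA. For every component `D` of `Kᶜ`: the state
`e w = if (S w ∩ K).Nonempty then r else w`, `lam = fun _ => x₀`, `x₀ ∈ S r ⊆ K`, `nm = fun _ => r`,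
`X = fun _ => ∅` (no corners; a neighbour of `D` is in `K`); IND gives `Con`. `lb v = r` if `S v` meets
`K`, and the label of the component otherwise. GLU with `Q = {v | (S v ∩ K).Nonempty}`,
`R' = Root = {r}`, `New = univ`. Widths: the label `r` is used only for the strings meeting `K`. -/
def S_MN0 : Prop := ∀ {P V : Type} [Fintype P] [Finite V] (T : Finset (Finset P)) (g Δ : ℕ)
  (G : SimpleGraph V) (S : V → Set P) (r : V) (p : V → V) (ly : V → ℕ), Surf T g → Str T G S →
  (∀ x, ∃ v, x ∈ S v) → Bfs G r p ly → DegLe G Δ →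
  ∃ lb : V → V, (∀ i j, {v | lb v = i ∧ ly v = j}.ncard ≤ (6 * g + 12) * (Δ + 1)) ∧
    RD G (5 * (6 * (Δ + 1) + 1) + 1) Set.univ {r} lb

/-- PRE: from a rooted decomposition to `TreewidthLE`: for every `i` which is in no part add a leaf
(adjacent to the root) with the part `{i}`. (New nodes: `Y ⊕ {i // ∀ y, i ∉ bag y}`; or use
`GridThm.PT0`/`glue` with one-vertex trees and the decomposition as another tree, root part
empty.) -/
def S_PRE : Prop := ∀ {V : Type} (G : SimpleGraph V) (w : ℕ) (Root : Set V) (lb : V → V),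
  RD G (w + 1) Set.univ Root lb → TreewidthLE (qG G lb) w

/-- PR2: product structure from the labels, like `PL.i_PRD` (which uses only `width` and `lay`; its
auxiliary lemmas `PL.XPRD.exists_num`, `PL.XPRD.JB`, `PL.XPRD.tw` can be used; import
`Pool.Agent.Work.MP_55ff09_co.PL.I_PRD`). -/
def S_PR2 : Prop := ∀ {V : Type} [Finite V] (G : SimpleGraph V) (c W : ℕ) (ly : V → ℕ)
  (lb : V → V), (∀ u v, G.Adj u v → ly u ≤ ly v + 1) →
  (∀ i j, {v | lb v = i ∧ ly v = j}.ncard ≤ c) → TreewidthLE (qG G lb) W →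
  Emb G (c * (W + 1))

/-- COV: the strings may be extended so that they cover all points. Let `U` be the set of uncovered
points; not everything is uncovered (`V` is not empty, strings are not empty), so every component
of `U` is adjacent to a covered point, of a string `v`; add the component to one such string. No new
intersections. -/
def S_COV : Prop := ∀ {P V : Type} [Finite P] (T : Finset (Finset P)) (G : SimpleGraph V)
  (S : V → Set P), (gph T).Connected → Nonempty V → Str T G S →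
  ∃ S' : V → Set P, Str T G S' ∧ ∀ x, ∃ v, x ∈ S' v

/-- MN1 (from COV, BFS, MN0, PRE, PR2): connected graphs. -/
def S_MN1 : Prop := ∀ {P V : Type} [Fintype P] [Finite V] (T : Finset (Finset P)) (g Δ : ℕ)
  (G : SimpleGraph V) (S : V → Set P), Surf T g → Str T G S → G.Connected → DegLe G Δ →
  Emb G ((6 * g + 12) * (Δ + 1) * (5 * (6 * (Δ + 1) + 1) + 1))

end Pool.Agent.IM55.SG
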