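import Mathlib

/-!
# MP_55ff09_co, block SG (string graphs on surfaces): triangulated surfaces

Definitions used in the statement of the hand-in.
-/

set_option autoImplicit false

namespace Pool.Agent.IM55.SG

open SimpleGraph

variable {P : Type}

/-- the graph of a set `T` of triangles: two points are adjacent if they lie in a common triangle -/
def gph (T : Finset (Finset P)) : SimpleGraph P where
  Adj x y := x ≠ y ∧ ∃ t ∈ T, x ∈ t ∧ y ∈ t
  symm := ⟨by
    rintro x y ⟨h, t, ht, hx, hy⟩
    exact ⟨h.symm, t, ht, hy, hx⟩⟩
  loopless := ⟨by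
    rintro x ⟨h, -⟩
    exact h rfl⟩

/-- `T` is the set of triangles of a triangulated closed surface with point set `P` and Euler genus
`g`: all members of `T` have three elements, every edge is in exactly two triangles, the graph is
connected, every point is in a triangle, the triangles around a point form one cyclic sequence (any
two of them are joined by a sequence in which consecutive ones have a common edge through the
point), and `|P| - (number of edges) + |T| = 2 - g`. -/
structure Surf (T : Finset (Finset P)) (g : ℕ) : Prop where
  card : ∀ t ∈ T, t.card = 3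
  two : ∀ x y, (gph T).Adj x y → {t | t ∈ T ∧ x ∈ t ∧ y ∈ t}.ncard = 2
  conn : (gph T).Connected
  cover : ∀ x, ∃ t ∈ T, x ∈ t
  link : ∀ x, ∀ s ∈ T, ∀ t ∈ T, x ∈ s → x ∈ t → Relation.ReflTransGen
    (fun a b => b ∈ T ∧ x ∈ a ∧ x ∈ b ∧ ∃ y, y ≠ x ∧ y ∈ a ∧ y ∈ b) s t
  euler : Nat.card P + T.card + g = (gph T).edgeSet.ncard + 2

/-- `G` is the intersection graph of the connected sets `S v` of points of the surface `T` -/
structure Str {V : Type} (T : Finset (Finset P)) (G : SimpleGraph V) (S : V → Set P) : Prop where
  conn : ∀ v, ((gph T).induce (S v)).Connected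
  adj : ∀ u v, u ≠ v → (G.Adj u v ↔ (S u ∩ S v).Nonempty)

end Pool.Agent.IM55.SG
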